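import Pool.Agent.Helper82.HC.St

/-!
# MP_10ef18_an (Hector), project HN: exceptional minimal sets of Lebesgue measure zero

Definitions. `T`, `Gr`, `Gens`, `Lam`, `Gap`, `len`, `act`, `Pth`, `cost`, `Tot` are those of
`Pool.Agent.Helper82.HG.Defs`; `W`, `wt`, `sact`, `IsPair`, `span`, `mid`, `Orb2`, `pact`, `nrm` those
of `Pool.Agent.Helper82.HC.St`.
-/

set_option autoImplicit false

namespace Pool.Agent.Helper21.HN

open Set MeasureTheory Pool.Agent.Helper82.HG Pool.Agent.Helper82.HC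

/-- a pair of gaps `((c, a), (b, d))` -/
abbrev PG : Type := (ℝ × ℝ) × (ℝ × ℝ)

/-- integer translate of a pair of gaps -/
def sh (n : ℤ) (P : PG) : PG := ((P.1.1 + n, P.1.2 + n), (P.2.1 + n, P.2.2 + n))

/-- the open interval between the two gaps -/
def core (P : PG) : Set ℝ := Ioo P.1.2 P.2.1

/-- `Q` is strictly nested in `R` -/
def Nst (Q R : PG) : Prop := R.1.2 ≤ Q.1.2 ∧ Q.2.1 ≤ R.2.1 ∧ Q ≠ R

/-- the smaller weight of the two gaps -/
noncomputable def mu (S : Set (Equiv.Perm ℝ)) (P : PG) : ℝ := min (wt S P.1) (wt S P.2)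

/-- the penalised functional -/
noncomputable def Psi (S : Set (Equiv.Perm ℝ)) (P : PG) : ℝ :=
  Real.log (mid P) - 11 / 10 * Real.log (mu S P)

/-- a word for `g` read from the pair `P`; the cost is the sum of the spans of the pairs visited
before the end; integer translations are free -/
inductive Way (S : Set (Equiv.Perm ℝ)) (P : PG) : Equiv.Perm ℝ → ℝ → Prop
  | nil : Way S P 1 0
  | tr {g : Equiv.Perm ℝ} {c : ℝ} (m : ℤ) : Way S P g c → Way S P (T ^ m * g) c
  | step {g : Equiv.Perm ℝ} {c : ℝ} (s : Equiv.Perm ℝ) :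
      s ∈ S → Way S P g c → Way S P (s * g) (c + span (pact g P))

/-- `Q` is a state: an image of `P` -/
def Sta (S : Set (Equiv.Perm ℝ)) (P Q : PG) : Prop := ∃ g ∈ Gr S, Q = pact g P

/-- least cost of a way from `P` to `Q` -/
noncomputable def cst (S : Set (Equiv.Perm ℝ)) (P Q : PG) : ℝ :=
  sInf {c | ∃ g, Way S P g c ∧ Q = pact g P}

/-- The standing situation: `G` is an invariant set of gaps, `P` a pair of gaps of `G` which almost
minimises `Psi`, `L` a unit of cost (`25 L` is the range of almost affine control), all states of cost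
at most `25 L` have span at most `h`, and `m` is the measure of the closed `h`-neighbourhood of `Λ`
modulo `1`. -/
structure Bse (K : ℝ) (S : Set (Equiv.Perm ℝ)) (Λ : Set ℝ) (G : Set (ℝ × ℝ)) (P : PG)
    (L h m : ℝ) : Prop where
  K1 : 1 ≤ K
  gens : Gens K S
  lam : Lam S Λ
  L0 : 0 < L
  KL : 10000 * K * L ≤ 1
  h0 : 0 < h
  hL : 200 * h ≤ L
  mL : 200 * m ≤ L
  meas : m = (volume (Metric.cthickening h Λ ∩ Icc (0 : ℝ) 1)).toReal
  pair : IsPair Λ P
  mem1 : P.1 ∈ G
  mem2 : P.2 ∈ G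
  gact : ∀ g ∈ Gr S, ∀ x ∈ G, sact g x ∈ G
  ggap : ∀ x ∈ G, Gap Λ x.1 x.2
  psi : ∀ Q : PG, IsPair Λ Q → Q.1 ∈ G → Q.2 ∈ G → Psi S P ≤ Psi S Q + 1 / 1000
  sml : ∀ g c, Way S P g c → c ≤ 25 * L → span (pact g P) ≤ h

end Pool.Agent.Helper21.HN
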