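import Pool.Agent.Helper21.HN.St

/-!
# MP_10ef18_an (Hector), project HN, module COV: a covering lemma
-/

set_option autoImplicit false

namespace Pool.Agent.Helper21.HN

open Set MeasureTheory Pool.Agent.Helper82.HG Pool.Agent.Helper82.HC

theorem tCOV : StCOV := by
  intro ι X b l α β hαβ hl hcov
  rcases eq_or_lt_of_le hαβ with h0 | h0
  · exact ⟨∅, by simp, by simp [h0]⟩
  have hc : IsCompact (Icc α (β - (β - α) / 4)) := isCompact_Icc
  obtain ⟨s', hs'X, hs'f, hs'c⟩ := hc.elim_finite_subcover_image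
    (b := X) (c := fun x => Ioo (b x - l x / 8) (b x + l x)) (fun x _ => isOpen_Ioo) (by
      intro t ht
      obtain ⟨x, hx, h1, h2⟩ := hcov t ht.1 (by linarith [ht.2])
      simp only [mem_iUnion]
      refine ⟨x, hx, ?_, h2⟩
      linarith)
  refine ⟨hs'f.toFinset, fun x hx => hs'X (by simpa using hx), ?_⟩
  have h1 : volume (Icc α (β - (β - α) / 4)) ≤
      ∑ x ∈ hs'f.toFinset, volume (Ioo (b x - l x / 8) (b x + l x)) := by
    refine le_trans (measure_mono ?_) (measure_biUnion_finset_le _ _)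
    intro t ht
    have := hs'c ht
    simp only [mem_iUnion] at this ⊢
    obtain ⟨x, hx, h⟩ := this
    exact ⟨x, by simpa using hx, h⟩
  have h2 : ∀ x ∈ hs'f.toFinset, volume (Ioo (b x - l x / 8) (b x + l x)) =
      ENNReal.ofReal (9 / 8 * l x) := by
    intro x _
    rw [Real.volume_Ioo]
    congr 1
    ring
  rw [Finset.sum_congr rfl h2, Real.volume_Icc,
    ← ENNReal.ofReal_sum_of_nonneg (fun x hx => by
      have := hl x (hs'X (by simpa using hx))
      positivity)] at h1
  have h3 : (0 : ℝ) ≤ ∑ x ∈ hs'f.toFinset, 9 / 8 * l x :=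
    Finset.sum_nonneg (fun x hx => by
      have := hl x (hs'X (by simpa using hx))
      positivity)
  have h4 := (ENNReal.ofReal_le_ofReal_iff h3).1 h1
  rw [← Finset.mul_sum] at h4
  have h5 : (0 : ℝ) ≤ ∑ x ∈ hs'f.toFinset, l x := by
    refine Finset.sum_nonneg (fun x hx => hl x (hs'X (by simpa using hx)))
  linarith

end Pool.Agent.Helper21.HN
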