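import Pool.Agent.Helper21.HN.St

/-!
# HN, module CST: the cost of a state
-/

set_option autoImplicit false

namespace Pool.Agent.Helper21.HN

open Set MeasureTheory Pool.Agent.Helper82.HG Pool.Agent.Helper82.HC

private theorem T_mem_CST (S : Set (Equiv.Perm ℝ)) : T ∈ Gr S :=
  Subgroup.subset_closure (Set.mem_insert _ _)

private theorem S_mem_CST (S : Set (Equiv.Perm ℝ)) {s : Equiv.Perm ℝ} (hs : s ∈ S) : s ∈ Gr S :=
  Subgroup.subset_closure (Set.mem_insert_of_mem _ hs)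

private theorem sh_sh_CST (m : ℤ) (Q : PG) : sh (-m) (sh m Q) = Q := by
  unfold sh
  push_cast
  ext <;> simp

theorem tCST : StBAS → StACT → StPAC → StWAY → StCST := by
  intro hBAS hACT hPAC hWAY K S Λ hG hΛ P hP
  obtain ⟨p1, pmul, psh, _, _, _, pT⟩ := hPAC K S Λ hG hΛ
  obtain ⟨w1, _, _, w4⟩ := hWAY K S Λ hG hΛ P hP
  have hpair : ∀ Q, Sta S P Q → IsPair Λ Q := by
    rintro Q ⟨g, hg, rfl⟩
    exact (hACT K S Λ hG hΛ g hg P hP).1
  have hne : ∀ Q, Sta S P Q → {c | ∃ g, Way S P g c ∧ Q = pact g P}.Nonempty := by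
    rintro Q ⟨g, hg, hQ⟩
    obtain ⟨c, hc⟩ := w4 g hg
    exact ⟨c, g, hc, hQ⟩
  have hlow : ∀ Q, ∀ c ∈ {c | ∃ g, Way S P g c ∧ Q = pact g P}, (0 : ℝ) ≤ c := by
    rintro Q c ⟨g, hg, _⟩
    exact (w1 g c hg).2.1
  have hbdd : ∀ Q, BddBelow {c | ∃ g, Way S P g c ∧ Q = pact g P} := fun Q => ⟨0, hlow Q⟩
  have hnn : ∀ Q, 0 ≤ cst S P Q := fun Q => Real.sInf_nonneg (hlow Q)
  have hgr : ∀ g c, Way S P g c → g ∈ Gr S := fun g c h => (w1 g c h).1
  have hstaG : ∀ Q g, Sta S P Q → g ∈ Gr S → Sta S P (pact g Q) := by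
    rintro Q g ⟨h, hh, rfl⟩ hg
    exact ⟨g * h, mul_mem hg hh, (pmul g hg h hh P hP).symm⟩
  have hsh : ∀ (m : ℤ) (g : Equiv.Perm ℝ), g ∈ Gr S → pact (T ^ m * g) P = sh m (pact g P) := by
    intro m g hg
    rw [pmul (T ^ m) (pT m) g hg P hP]
    exact (psh m (pact g P) (hACT K S Λ hG hΛ g hg P hP).1).1
  have hstaS : ∀ Q (m : ℤ), Sta S P Q → Sta S P (sh m Q) := by
    rintro Q m ⟨h, hh, rfl⟩
    exact ⟨T ^ m * h, mul_mem (pT m) hh, (hsh m h hh).symm⟩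
  refine ⟨fun Q hQ => ⟨hpair Q hQ, hnn Q⟩, ?_, ?_, ?_, hstaG, ?_, ?_⟩
  · intro Q t hQ
    unfold cst
    rw [csInf_lt_iff (hbdd Q) (hne Q hQ)]
    constructor
    · rintro ⟨c, ⟨g, hg, hQ'⟩, hc⟩
      exact ⟨g, c, hg, hc, hQ'⟩
    · rintro ⟨g, c, hg, hc, hQ'⟩
      exact ⟨c, ⟨g, hg, hQ'⟩, hc⟩
  · refine ⟨⟨1, one_mem _, (p1 P hP).symm⟩, le_antisymm ?_ (hnn P)⟩
    exact csInf_le (hbdd P) ⟨1, Way.nil, (p1 P hP).symm⟩
  · intro Q m hQ
    refine ⟨hstaS Q m hQ, ?_⟩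
    unfold cst
    congr 1
    ext c
    constructor
    · rintro ⟨g, hg, h⟩
      refine ⟨T ^ (-m) * g, Way.tr (-m) hg, ?_⟩
      rw [hsh (-m) g (hgr g c hg), ← h, sh_sh_CST]
    · rintro ⟨g, hg, h⟩
      refine ⟨T ^ m * g, Way.tr m hg, ?_⟩
      rw [hsh m g (hgr g c hg), ← h]
  · intro Q s hQ hs
    have key : cst S P (pact s Q) - span Q ≤ cst S P Q := by
      refine le_csInf (hne Q hQ) ?_
      rintro c ⟨g, hg, h⟩
      have h1 : cst S P (pact s Q) ≤ c + span Q := by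
        refine csInf_le (hbdd _) ⟨s * g, ?_, ?_⟩
        · rw [h]; exact Way.step s hs hg
        · rw [pmul s (S_mem_CST S hs) g (hgr g c hg) P hP, ← h]
      linarith
    linarith
  · intro p hp hstep htr Q hQ
    obtain ⟨g, hg, rfl⟩ := hQ
    have hT1 : ∀ y ∈ Gr S, pact (T * y) P = sh 1 (pact y P) := by
      intro y hy
      have := hsh 1 y hy
      rwa [zpow_one] at this
    have hT2 : ∀ y ∈ Gr S, pact (T⁻¹ * y) P = sh (-1) (pact y P) := by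
      intro y hy
      have := hsh (-1) y hy
      rwa [zpow_neg_one] at this
    refine Subgroup.closure_induction_left (p := fun g _ => p (pact g P)) ?_ ?_ ?_ hg
    · rw [p1 P hP]; exact hp
    · intro x hx y hy ih
      rcases hx with rfl | hx
      · rw [hT1 y hy]
        exact htr _ ⟨y, hy, rfl⟩ ih 1
      · rw [pmul x (S_mem_CST S hx) y hy P hP]
        exact hstep _ ⟨y, hy, rfl⟩ ih x hx
    · intro x hx y hy ih
      rcases hx with rfl | hx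
      · rw [hT2 y hy]
        exact htr _ ⟨y, hy, rfl⟩ ih (-1)
      · have hx' : x⁻¹ ∈ S := hG.inv x hx
        rw [pmul x⁻¹ (S_mem_CST S hx') y hy P hP]
        exact hstep _ ⟨y, hy, rfl⟩ ih x⁻¹ hx'

end Pool.Agent.Helper21.HN
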