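import Pool.Agent.Helper21.HN.St2

set_option autoImplicit false

namespace Pool.Agent.Helper21.HN

open Set MeasureTheory Pool.Agent.Helper82.HG Pool.Agent.Helper82.HC

private lemma sactlen_EGP (g : Equiv.Perm ℝ) (u : ℝ × ℝ) :
    (sact g u).2 - (sact g u).1 = |g u.1 - g u.2| := by
  rw [sact]
  exact max_sub_min_eq_abs' _ _

private lemma shne_EGP (a b : ℤ) (Q R : PG) (hQ0 : 0 ≤ Q.1.1) (hQ1 : Q.1.1 < 1) (hR0 : 0 ≤ R.1.1)
    (hR1 : R.1.1 < 1) (h : sh a Q = sh b R) : Q = R := by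
  have h1 : Q.1.1 + (a : ℝ) = R.1.1 + b := congrArg (fun X : PG => X.1.1) h
  have h2 : Q.1.2 + (a : ℝ) = R.1.2 + b := congrArg (fun X : PG => X.1.2) h
  have h3 : Q.2.1 + (a : ℝ) = R.2.1 + b := congrArg (fun X : PG => X.2.1) h
  have h4 : Q.2.2 + (a : ℝ) = R.2.2 + b := congrArg (fun X : PG => X.2.2) h
  have hab : a = b := by
    have e1 : ((a - b : ℤ) : ℝ) < 1 := by push_cast; linarith
    have e2 : (-1 : ℝ) < ((a - b : ℤ) : ℝ) := by push_cast; linarith
    have e3 : a - b < 1 := by exact_mod_cast e1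
    have e4 : -1 < a - b := by exact_mod_cast e2
    omega
  subst hab
  refine Prod.ext (Prod.ext ?_ ?_) (Prod.ext ?_ ?_) <;> linarith

private lemma periodic_EGP (h : ℝ) (Λ : Set ℝ) (hΛ : ∀ x, x ∈ Λ ↔ x + 1 ∈ Λ) (x : ℝ) :
    x ∈ Metric.cthickening h Λ ↔ x + 1 ∈ Metric.cthickening h Λ := by
  have e : Metric.infEDist (x + 1) Λ = Metric.infEDist x Λ := by
    have him : (fun y : ℝ => y + 1) '' Λ = Λ := by
      ext y
      constructor
      · rintro ⟨z, hz, rfl⟩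
        exact (hΛ z).1 hz
      · intro hy
        refine ⟨y - 1, ?_, by ring⟩
        rw [hΛ]
        simpa using hy
    have hiso : Isometry (fun y : ℝ => y + 1) := isometry_add_right 1
    have := Metric.infEDist_image hiso (x := x) (t := Λ)
    rw [him] at this
    exact this
  rw [Metric.mem_cthickening_iff, Metric.mem_cthickening_iff, e]

theorem tEGP : StLAM → StACT → StPAC → StGEO → StWAY → StNEA → StCST → StLMN → StPER →
    StEGP := by
  intro hLAM hACT hPAC hGEO hWAY hNEA hCST hLMN hPER K S Λ G P L h m b F hF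
  obtain ⟨hinv, -, -, -, -, -, -, hsep⟩ := hLAM K S Λ b.gens b.lam
  have hact := hACT K S Λ b.gens b.lam
  obtain ⟨hgeo1, -, -, -, -, -⟩ := hGEO K S Λ b.gens b.lam
  obtain ⟨hc1, hc2, hc3, hc4, -, -, -⟩ := hCST K S Λ b.gens b.lam P b.pair
  obtain ⟨hway, -, -, -⟩ := hWAY K S Λ b.gens b.lam P b.pair
  have hnea := hNEA K S Λ b.K1 b.gens b.lam P
  have hlmn := hLMN K S Λ G P L h m b
  have hT : ∀ x : ℝ, x ∈ Λ ↔ x + 1 ∈ Λ := by
    intro x
    have hTm : T ∈ Gr S := Subgroup.subset_closure (mem_insert _ _)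
    have := hinv T hTm x
    rw [← this]
    rfl
  have hTn : ∀ (n : ℤ) (x : ℝ), x ∈ Λ ↔ x + n ∈ Λ := by
    intro n
    induction n using Int.induction_on with
    | zero => intro x; simp
    | succ n ih =>
      intro x
      rw [ih x, hT (x + ((n : ℤ) : ℝ))]
      push_cast
      rw [add_assoc]
    | pred n ih =>
      intro x
      rw [ih x, hT (x + ((-(n : ℤ) - 1 : ℤ) : ℝ))]
      push_cast
      rw [show x + (-(n : ℝ) - 1) + 1 = x + -(n : ℝ) by ring]
  have hPgap1 : Gap Λ P.1.1 P.1.2 := b.pair.1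
  have hPgap2 : Gap Λ P.2.1 P.2.2 := b.pair.2.1
  have hP3 : P.1.2 ≤ P.2.1 := b.pair.2.2.1
  have hP1 : P.1.1 < P.1.2 := hPgap1.1
  have hP2 : P.2.1 < P.2.2 := hPgap2.1
  have hKc : ∀ c : ℝ, c < 25 * L → 400 * K * c ≤ 1 := by
    intro c hc
    have h1 := b.K1
    have h2 := b.KL
    have h3 := b.L0
    have : 400 * K * c ≤ 400 * K * (25 * L) := mul_le_mul_of_nonneg_left hc.le (by linarith)
    nlinarith
  -- two states with the same end gap coming from the same gap of `P`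
  have two : ∀ (Q R : PG) (g : Equiv.Perm ℝ) (c : ℝ) (g' : Equiv.Perm ℝ) (c' : ℝ) (X : ℝ × ℝ),
      Way S P g c → c < 25 * L → Q = pact g P → Way S P g' c' → c' < 25 * L → R = pact g' P →
      P.1.1 ≤ X.1 → X.1 < X.2 → X.2 ≤ P.2.2 → sact g X = sact g' X → 8 * span Q ≤ 5 * span R →
      False := by
    intro Q R g c g' c' X hw hc hQ hw' hc' hR hX1 hX hX2 hV h8
    have hPP := (hgeo1 P b.pair).1
    have hPP2 := (hgeo1 P b.pair).2.1
    have hgm := (hway g c hw).1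
    have hgm' := (hway g' c' hw').1
    have hQp : IsPair Λ Q := by rw [hQ]; exact (hact g hgm P b.pair).1
    have hQ0 : 0 < span Q := lt_trans (hgeo1 Q hQp).1 (hgeo1 Q hQp).2.1
    have n1 := hnea g c b.pair hw (hKc c hc) X.1 ⟨hX1, by linarith⟩ X.2 ⟨by linarith, hX2⟩
    have n2 := hnea g' c' b.pair hw' (hKc c' hc') X.1 ⟨hX1, by linarith⟩ X.2 ⟨by linarith, hX2⟩
    have e1 := sactlen_EGP g X
    have e2 := sactlen_EGP g' X
    rw [← hV, e1] at e2
    rw [← e2, ← hR] at n2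
    rw [← hQ] at n1
    have hXX : |X.1 - X.2| = X.2 - X.1 := by rw [abs_sub_comm, abs_of_pos (by linarith)]
    rw [hXX] at n1 n2
    have hd : 0 < X.2 - X.1 := by linarith
    have h3 : 10000 * (span R * (X.2 - X.1)) ≤ 10201 * (span Q * (X.2 - X.1)) := by
      linarith [n1.1, n2.2]
    have h4 : 10000 * span R ≤ 10201 * span Q := by
      have : (10000 * span R) * (X.2 - X.1) ≤ (10201 * span Q) * (X.2 - X.1) := by linarith
      exact le_of_mul_le_mul_right this hd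
    linarith
  -- states with the same end gap
  have key : ∀ e : PG → ℝ × ℝ, (e = Prod.fst ∨ e = Prod.snd) → ∀ Q R : PG, Sta S P Q → Sta S P R →
      cst S P Q < 25 * L → cst S P R < 25 * L → e Q = e R → Q ≠ R →
      (8 * span Q ≤ 5 * span R ∨ 8 * span R ≤ 5 * span Q) := by
    intro e he Q R hQ hR hcQ hcR heq hne
    have hQp := (hc1 Q hQ).1
    have hRp := (hc1 R hR).1
    have hmQ : 0 < Q.2.1 - Q.1.2 := (hgeo1 Q hQp).1
    have hmR : 0 < R.2.1 - R.1.2 := (hgeo1 R hRp).1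
    have hcore : (core Q ∩ core R).Nonempty := by
      rcases he with rfl | rfl
      · have h12 : Q.1.2 = R.1.2 := congrArg Prod.snd heq
        refine ⟨(Q.1.2 + min Q.2.1 R.2.1) / 2, ⟨?_, ?_⟩, ⟨?_, ?_⟩⟩
        all_goals
          have a1 := min_le_left Q.2.1 R.2.1
          have a2 := min_le_right Q.2.1 R.2.1
          have a3 : Q.1.2 < min Q.2.1 R.2.1 := lt_min (by linarith) (by linarith)
          linarith
      · have h21 : Q.2.1 = R.2.1 := congrArg Prod.fst heq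
        refine ⟨(Q.2.1 + max Q.1.2 R.1.2) / 2, ⟨?_, ?_⟩, ⟨?_, ?_⟩⟩
        all_goals
          have a1 := le_max_left Q.1.2 R.1.2
          have a2 := le_max_right Q.1.2 R.1.2
          have a3 : max Q.1.2 R.1.2 < Q.2.1 := max_lt (by linarith) (by linarith)
          linarith
    rcases (hlmn Q R hQ hR hcQ hcR).1 hcore with h1 | h1 | h1
    · exact absurd h1 hne
    · exact Or.inl ((hlmn Q R hQ hR hcQ hcR).2 h1).2
    · exact Or.inr ((hlmn R Q hR hQ hcR hcQ).2 h1).2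
  -- at most two
  have three : ∀ e : PG → ℝ × ℝ, (e = Prod.fst ∨ e = Prod.snd) → ∀ X Y Z : PG,
      (∀ Q ∈ ({X, Y, Z} : Set PG), Sta S P Q ∧ cst S P Q < 25 * L) → e X = e Y → e Y = e Z →
      X ≠ Y → Y ≠ Z → X ≠ Z → False := by
    intro e he X Y Z hXYZ hXY hYZ n1 n2 n3
    obtain ⟨sX, cX⟩ := hXYZ X (by simp)
    obtain ⟨sY, cY⟩ := hXYZ Y (by simp)
    obtain ⟨sZ, cZ⟩ := hXYZ Z (by simp)
    have rep : ∀ Q, Sta S P Q → cst S P Q < 25 * L → ∃ g c, Way S P g c ∧ c < 25 * L ∧ Q = pact g P ∧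
        (e Q = sact g P.1 ∨ e Q = sact g P.2) := by
      intro Q hQ hcQ
      obtain ⟨g, c, hw, hc, hQe⟩ := (hc2 Q (25 * L) hQ).1 hcQ
      refine ⟨g, c, hw, hc, hQe, ?_⟩
      have hgm := (hway g c hw).1
      have h2 := (hact g hgm P b.pair).2.1
      rw [← hQe] at h2
      rcases he with rfl | rfl
      · rcases h2 with h2 | h2
        · exact Or.inl h2.1
        · exact Or.inr h2.1
      · rcases h2 with h2 | h2
        · exact Or.inr h2.2
        · exact Or.inl h2.2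
    obtain ⟨g1, c1, w1, l1, q1, r1⟩ := rep X sX cX
    obtain ⟨g2, c2, w2, l2, q2, r2⟩ := rep Y sY cY
    obtain ⟨g3, c3, w3, l3, q3, r3⟩ := rep Z sZ cZ
    have fin : ∀ (Q R : PG) (g : Equiv.Perm ℝ) (c : ℝ) (g' : Equiv.Perm ℝ) (c' : ℝ) (W : ℝ × ℝ),
        Sta S P Q → Sta S P R → cst S P Q < 25 * L → cst S P R < 25 * L → e Q = e R → Q ≠ R →
        Way S P g c → c < 25 * L → Q = pact g P → Way S P g' c' → c' < 25 * L → R = pact g' P →
        (W = P.1 ∨ W = P.2) → e Q = sact g W → e R = sact g' W → False := by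
      intro Q R g c g' c' W hQ hR hcQ hcR heq hne hw hc hQe hw' hc' hRe hW hg hg'
      have hV : sact g W = sact g' W := by rw [← hg, ← hg', heq]
      have hW1 : P.1.1 ≤ W.1 ∧ W.1 < W.2 ∧ W.2 ≤ P.2.2 := by
        rcases hW with rfl | rfl
        · exact ⟨le_rfl, hP1, by linarith⟩
        · exact ⟨by linarith, hP2, le_rfl⟩
      rcases key e he Q R hQ hR hcQ hcR heq hne with h8 | h8
      · exact two Q R g c g' c' W hw hc hQe hw' hc' hRe hW1.1 hW1.2.1 hW1.2.2 hV h8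
      · exact two R Q g' c' g c W hw' hc' hRe hw hc hQe hW1.1 hW1.2.1 hW1.2.2 hV.symm h8
    rcases r1 with r1 | r1 <;> rcases r2 with r2 | r2 <;> rcases r3 with r3 | r3
    · exact fin X Y g1 c1 g2 c2 P.1 sX sY cX cY hXY n1 w1 l1 q1 w2 l2 q2 (Or.inl rfl) r1 r2
    · exact fin X Y g1 c1 g2 c2 P.1 sX sY cX cY hXY n1 w1 l1 q1 w2 l2 q2 (Or.inl rfl) r1 r2
    · exact fin X Z g1 c1 g3 c3 P.1 sX sZ cX cZ (hXY.trans hYZ) n3 w1 l1 q1 w3 l3 q3 (Or.inl rfl) r1 r3
    · exact fin Y Z g2 c2 g3 c3 P.2 sY sZ cY cZ hYZ n2 w2 l2 q2 w3 l3 q3 (Or.inr rfl) r2 r3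
    · exact fin Y Z g2 c2 g3 c3 P.1 sY sZ cY cZ hYZ n2 w2 l2 q2 w3 l3 q3 (Or.inl rfl) r2 r3
    · exact fin X Z g1 c1 g3 c3 P.2 sX sZ cX cZ (hXY.trans hYZ) n3 w1 l1 q1 w3 l3 q3 (Or.inr rfl) r1 r3
    · exact fin X Y g1 c1 g2 c2 P.2 sX sY cX cY hXY n1 w1 l1 q1 w2 l2 q2 (Or.inr rfl) r1 r2
    · exact fin X Y g1 c1 g2 c2 P.2 sX sY cX cY hXY n1 w1 l1 q1 w2 l2 q2 (Or.inr rfl) r1 r2
  -- the sum for one side
  have side : ∀ e : PG → ℝ × ℝ, (e = Prod.fst ∨ e = Prod.snd) →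
      ∑ Q ∈ F, ((e Q).2 - (e Q).1) ≤ 2 * m := by
    classical
    intro e he
    set N : PG → ℝ × ℝ := fun Q => ((e Q).1 + (-⌊(e Q).1⌋ : ℤ), (e Q).2 + (-⌊(e Q).1⌋ : ℤ)) with hN
    have hesh : ∀ (k : ℤ) (Q : PG), e (sh k Q) = ((e Q).1 + k, (e Q).2 + k) := by
      intro k Q
      rcases he with rfl | rfl <;> rfl
    have hgap : ∀ Q ∈ F, Gap Λ (e Q).1 (e Q).2 := by
      intro Q hQ
      have := (hc1 Q (hF Q hQ).1).1
      rcases he with rfl | rfl
      · exact this.1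
      · exact this.2.1
    have hlen : ∀ Q ∈ F, (e Q).2 - (e Q).1 ≤ h := by
      intro Q hQ
      obtain ⟨sQ, cQ, -, -⟩ := hF Q hQ
      have hp := (hc1 Q sQ).1
      obtain ⟨g, c, hw, hc, hQe⟩ := (hc2 Q (25 * L) sQ).1 cQ
      have h1 := b.sml g c hw hc.le
      rw [← hQe] at h1
      have h2 : span Q = Q.2.2 - Q.1.1 := rfl
      have h3 : Q.1.1 < Q.1.2 := hp.1.1
      have h4 : Q.2.1 < Q.2.2 := hp.2.1.1
      have h5 : Q.1.2 ≤ Q.2.1 := hp.2.2.1
      rcases he with rfl | rfl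
      · show Q.1.2 - Q.1.1 ≤ h
        linarith
      · show Q.2.2 - Q.2.1 ≤ h
        linarith
    have hfib : ∀ w ∈ F.image N, ((F.filter (fun Q => N Q = w)).card : ℝ) ≤ 2 := by
      intro w _
      have : (F.filter (fun Q => N Q = w)).card ≤ 2 := by
        by_contra hcon
        rw [not_le] at hcon
        obtain ⟨X, hX, Y, hY, Z, hZ, hXY, hXZ, hYZ⟩ := Finset.two_lt_card.1 hcon
        rw [Finset.mem_filter] at hX hY hZ
        have tr : ∀ Q, Q ∈ F ∧ N Q = w → Sta S P (sh (-⌊(e Q).1⌋) Q) ∧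
            cst S P (sh (-⌊(e Q).1⌋) Q) < 25 * L ∧ e (sh (-⌊(e Q).1⌋) Q) = w := by
          intro Q hQ
          obtain ⟨sQ, cQ, -, -⟩ := hF Q hQ.1
          obtain ⟨a1, a2⟩ := hc4 Q (-⌊(e Q).1⌋) sQ
          exact ⟨a1, by rw [a2]; exact cQ, by rw [hesh, ← hQ.2]⟩
        obtain ⟨x1, x2, x3⟩ := tr X hX
        obtain ⟨y1, y2, y3⟩ := tr Y hY
        obtain ⟨z1, z2, z3⟩ := tr Z hZ
        have fX := (hF X hX.1).2.2
        have fY := (hF Y hY.1).2.2
        have fZ := (hF Z hZ.1).2.2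
        refine three e he (sh (-⌊(e X).1⌋) X) (sh (-⌊(e Y).1⌋) Y) (sh (-⌊(e Z).1⌋) Z) ?_
          (x3.trans y3.symm) (y3.trans z3.symm) ?_ ?_ ?_
        · rintro Q (rfl | rfl | rfl)
          · exact ⟨x1, x2⟩
          · exact ⟨y1, y2⟩
          · exact ⟨z1, z2⟩
        · exact fun hh => hXY (shne_EGP _ _ X Y fX.1 fX.2 fY.1 fY.2 hh)
        · exact fun hh => hYZ (shne_EGP _ _ Y Z fY.1 fY.2 fZ.1 fZ.2 hh)
        · exact fun hh => hXZ (shne_EGP _ _ X Z fX.1 fX.2 fZ.1 fZ.2 hh)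
      exact_mod_cast this
    -- properties of the image
    have him : ∀ w ∈ F.image N, Gap Λ w.1 w.2 ∧ w.2 - w.1 ≤ h ∧ 0 ≤ w.1 ∧ w.1 < 1 := by
      intro w hw
      obtain ⟨Q, hQ, rfl⟩ := Finset.mem_image.1 hw
      obtain ⟨g1, g2, g3, g4⟩ := hgap Q hQ
      refine ⟨⟨?_, ?_, ?_, ?_⟩, ?_, ?_, ?_⟩
      · show (e Q).1 + ((-⌊(e Q).1⌋ : ℤ) : ℝ) < (e Q).2 + ((-⌊(e Q).1⌋ : ℤ) : ℝ)
        linarith
      · exact (hTn _ _).1 g2
      · exact (hTn _ _).1 g3
      · ext x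
        simp only [mem_inter_iff, mem_empty_iff_false, iff_false, not_and]
        intro hx hxL
        have h1 : x - ((-⌊(e Q).1⌋ : ℤ) : ℝ) ∈ Λ := by
          rw [hTn (-⌊(e Q).1⌋)]
          simpa using hxL
        have h2 : x - ((-⌊(e Q).1⌋ : ℤ) : ℝ) ∈ Ioo (e Q).1 (e Q).2 := by
          have b1 : (e Q).1 + ((-⌊(e Q).1⌋ : ℤ) : ℝ) < x := hx.1
          have b2 : x < (e Q).2 + ((-⌊(e Q).1⌋ : ℤ) : ℝ) := hx.2
          exact ⟨by linarith, by linarith⟩
        have : x - ((-⌊(e Q).1⌋ : ℤ) : ℝ) ∈ Ioo (e Q).1 (e Q).2 ∩ Λ := ⟨h2, h1⟩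
        rw [g4] at this
        exact this
      · show (e Q).2 + ((-⌊(e Q).1⌋ : ℤ) : ℝ) - ((e Q).1 + ((-⌊(e Q).1⌋ : ℤ) : ℝ)) ≤ h
        have := hlen Q hQ
        linarith
      · show 0 ≤ (e Q).1 + ((-⌊(e Q).1⌋ : ℤ) : ℝ)
        have := Int.floor_le (e Q).1
        push_cast
        linarith
      · show (e Q).1 + ((-⌊(e Q).1⌋ : ℤ) : ℝ) < 1
        have := Int.lt_floor_add_one (e Q).1
        push_cast
        linarith
    have hsum1 : ∑ Q ∈ F, ((e Q).2 - (e Q).1) ≤ 2 * ∑ w ∈ F.image N, (w.2 - w.1) := by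
      rw [← Finset.sum_fiberwise_of_maps_to (g := N) (t := F.image N)
        (fun Q hQ => Finset.mem_image_of_mem N hQ), Finset.mul_sum]
      refine Finset.sum_le_sum fun w hw => ?_
      have hw0 : 0 < w.2 - w.1 := by
        have := (him w hw).1.1
        linarith
      calc ∑ Q ∈ F.filter (fun Q => N Q = w), ((e Q).2 - (e Q).1)
          = ∑ _Q ∈ F.filter (fun Q => N Q = w), (w.2 - w.1) := by
            refine Finset.sum_congr rfl fun Q hQ => ?_
            rw [← (Finset.mem_filter.1 hQ).2]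
            show _ = (e Q).2 + ((-⌊(e Q).1⌋ : ℤ) : ℝ) - ((e Q).1 + ((-⌊(e Q).1⌋ : ℤ) : ℝ))
            ring
        _ = ((F.filter (fun Q => N Q = w)).card : ℝ) * (w.2 - w.1) := by
            rw [Finset.sum_const, nsmul_eq_mul]
        _ ≤ 2 * (w.2 - w.1) := mul_le_mul_of_nonneg_right (hfib w hw) hw0.le
    have hsum2 : ∑ w ∈ F.image N, (w.2 - w.1) ≤ m := by
      have hper := hPER (Metric.cthickening h Λ) Metric.isClosed_cthickening.measurableSet
        (periodic_EGP h Λ hT) (ℝ × ℝ) (F.image N) (fun w => Ioo w.1 w.2) ?_ ?_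
      · rw [b.meas]
        refine le_trans (le_of_eq ?_) hper
        refine Finset.sum_congr rfl fun w hw => ?_
        have := (him w hw).1.1
        rw [Real.volume_Ioo, ENNReal.toReal_ofReal (by linarith)]
      · intro w hw
        refine ⟨measurableSet_Ioo, fun x hx => ?_⟩
        obtain ⟨g1, g2, -, -⟩ := him w hw
        refine Metric.mem_cthickening_of_dist_le x w.1 h Λ g1.2.1 ?_
        rw [Real.dist_eq, abs_of_pos (by linarith [hx.1])]
        linarith [hx.2]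
      · intro w hw w' hw' k hne
        obtain ⟨g1, -, g3, g4⟩ := him w hw
        obtain ⟨g1', -, g3', g4'⟩ := him w' hw'
        have gs : Gap Λ (w'.1 + k) (w'.2 + k) := by
          obtain ⟨a1, a2, a3, a4⟩ := g1'
          refine ⟨by linarith, (hTn _ _).1 a2, (hTn _ _).1 a3, ?_⟩
          ext x
          simp only [mem_inter_iff, mem_empty_iff_false, iff_false, not_and]
          intro hx hxL
          have h1 : x - (k : ℝ) ∈ Λ := by
            rw [hTn k]
            simpa using hxL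
          have : x - (k : ℝ) ∈ Ioo w'.1 w'.2 ∩ Λ :=
            ⟨⟨by linarith [hx.1], by linarith [hx.2]⟩, h1⟩
          rw [a4] at this
          exact this
        have hdiff : (w.1, w.2) ≠ (w'.1 + (k : ℝ), w'.2 + (k : ℝ)) := by
          intro heq
          have e1 : w.1 = w'.1 + k := congrArg Prod.fst heq
          have e2 : w.2 = w'.2 + k := congrArg Prod.snd heq
          have k0 : k = 0 := by
            have b1 : (k : ℝ) < 1 := by linarith
            have b2 : (-1 : ℝ) < k := by linarith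
            have b3 : k < 1 := by exact_mod_cast b1
            have b4 : -1 < k := by exact_mod_cast b2
            omega
          rw [k0] at e1 e2
          rcases hne with hne | hne
          · refine hne (Prod.ext ?_ ?_)
            · rw [e1]; simp
            · rw [e2]; simp
          · exact hne k0
        rw [Set.disjoint_left]
        rintro x hx ⟨y, hy, rfl⟩
        have y1 : w'.1 + k < y + k := by linarith [hy.1]
        have y2 : y + k < w'.2 + k := by linarith [hy.2]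
        have x1 : w.1 < y + k := hx.1
        have x2 : y + k < w.2 := hx.2
        rcases hsep w.1 w.2 (w'.1 + k) (w'.2 + k) g1 gs hdiff with h1 | h1
        · linarith
        · linarith
    linarith
  rw [Finset.sum_add_distrib]
  have s1 := side Prod.fst (Or.inl rfl)
  have s2 := side Prod.snd (Or.inr rfl)
  have s1' : ∑ Q ∈ F, (Q.1.2 - Q.1.1) ≤ 2 * m := s1
  have s2' : ∑ Q ∈ F, (Q.2.2 - Q.2.1) ≤ 2 * m := s2
  linarith

end Pool.Agent.Helper21.HN
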