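import Pool.Agent.Helper21.HN.St2

/-!
# MP_10ef18_an (Hector), project HN: module EXI
-/

set_option autoImplicit false

namespace Pool.Agent.Helper21.HN

open Set MeasureTheory Pool.Agent.Helper82.HG Pool.Agent.Helper82.HC

theorem tEXI : StCST → StEXI := by
  intro hCST K S Λ G P L h m hB t ht hex
  obtain ⟨h1, _, h3, h4, _, h6, h7⟩ := hCST K S Λ hB.gens hB.lam P hB.pair
  by_contra hno
  obtain ⟨Q₀, hQ₀, hlt⟩ := hex
  have key : ∀ Q, Sta S P Q → cst S P Q ≤ t := by
    refine h7 (fun Q => cst S P Q ≤ t) ?_ ?_ ?_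
    · show cst S P P ≤ t
      rw [h3.2]; exact ht
    · intro Q hQ hle s hs
      show cst S P (pact s Q) ≤ t
      by_contra hgt
      rw [not_le] at hgt
      apply hno
      have hsh := h4 Q (-⌊Q.1.1⌋) hQ
      refine ⟨sh (-⌊Q.1.1⌋) Q, hsh.1, ?_, ?_, ?_, ?_⟩
      · show 0 ≤ Q.1.1 + ((-⌊Q.1.1⌋ : ℤ) : ℝ)
        push_cast
        have := Int.floor_le Q.1.1
        linarith
      · show Q.1.1 + ((-⌊Q.1.1⌋ : ℤ) : ℝ) < 1
        push_cast
        have := Int.lt_floor_add_one Q.1.1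
        linarith
      · rw [hsh.2]; exact hle
      · rw [hsh.2]
        have hsp : span (sh (-⌊Q.1.1⌋) Q) = span Q := by
          unfold span sh
          simp
        rw [hsp]
        exact lt_of_lt_of_le hgt (h6 Q s hQ hs)
    · intro Q hQ hle k
      show cst S P (sh k Q) ≤ t
      rw [(h4 Q k hQ).2]; exact hle
  exact absurd (key Q₀ hQ₀) (not_le.mpr hlt)

end Pool.Agent.Helper21.HN
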