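import Pool.Agent.Helper21.HN.St

set_option autoImplicit false

namespace Pool.Agent.Helper21.HN

open Set MeasureTheory Pool.Agent.Helper82.HG Pool.Agent.Helper82.HC

private def Sepa_GEO (Λ : Set ℝ) : Prop :=
  ∀ a b a' b', Gap Λ a b → Gap Λ a' b' → (a, b) ≠ (a', b') → b < a' ∨ b' < a

private theorem right_GEO {Λ : Set ℝ} (H : Sepa_GEO Λ) {a b a' b' : ℝ} (h : Gap Λ a b)
    (h' : Gap Λ a' b') (e : b = b') : a = a' := by
  by_contra hne
  rcases H a b a' b' h h' (fun he => hne (congrArg Prod.fst he)) with h1 | h1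
  · have := h'.1
    linarith
  · have := h.1
    linarith

private theorem left_GEO {Λ : Set ℝ} (H : Sepa_GEO Λ) {a b a' b' : ℝ} (h : Gap Λ a b)
    (h' : Gap Λ a' b') (e : a = a') : b = b' := by
  by_contra hne
  rcases H a b a' b' h h' (fun he => hne (congrArg Prod.snd he)) with h1 | h1
  · have := h.1
    linarith
  · have := h'.1
    linarith

private theorem lt_right_GEO {Λ : Set ℝ} (H : Sepa_GEO Λ) {a b a' b' : ℝ} (h : Gap Λ a b)
    (h' : Gap Λ a' b') (e : b < b') : b < a' := by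
  rcases H a b a' b' h h' (fun he => e.ne (congrArg Prod.snd he)) with h1 | h1
  · exact h1
  · have := h.1
    linarith

private theorem lt_left_GEO {Λ : Set ℝ} (H : Sepa_GEO Λ) {a b a' b' : ℝ} (h : Gap Λ a b)
    (h' : Gap Λ a' b') (e : a < a') : b < a' := by
  rcases H a b a' b' h h' (fun he => e.ne (congrArg Prod.fst he)) with h1 | h1
  · exact h1
  · have := h'.1
    linarith

private theorem ext_GEO {Λ : Set ℝ} (H : Sepa_GEO Λ) {Q R : PG} (hQ : IsPair Λ Q)
    (hR : IsPair Λ R) (e1 : Q.1.2 = R.1.2) (e2 : Q.2.1 = R.2.1) : Q = R := by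
  have e3 := right_GEO H hQ.1 hR.1 e1
  have e4 := left_GEO H hQ.2.1 hR.2.1 e2
  exact Prod.ext (Prod.ext e3 e1) (Prod.ext e2 e4)

theorem tGEO : StLAM → StGEO := by
  intro hLAM K S Λ hg hl
  obtain ⟨-, -, -, -, -, -, -, H⟩ := hLAM K S Λ hg hl
  have H' : Sepa_GEO Λ := H
  refine ⟨?_, ?_, ?_, ?_, ?_, ?_⟩
  · intro P hP
    obtain ⟨h1, h2, h3, h4⟩ := hP
    have g1 := h1.1
    have g2 := h2.1
    have h5 : P.1.2 < P.2.1 := by
      rcases h3.lt_or_eq with h | h
      · exact h
      · exact lt_right_GEO H' h1 h2 (by linarith)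
    unfold mid span
    refine ⟨by linarith, by linarith, by linarith⟩
  · intro Q R hQ hR hN
    obtain ⟨n1, n2, n3⟩ := hN
    have q1 := hQ.1.1
    have q2 := hQ.2.1.1
    have r1 := hR.1.1
    have r2 := hR.2.1.1
    have A : R.1.1 ≤ Q.1.1 := by
      rcases n1.lt_or_eq with h | h
      · have := lt_right_GEO H' hR.1 hQ.1 h
        linarith
      · exact (right_GEO H' hR.1 hQ.1 h).le
    have B : Q.2.2 ≤ R.2.2 := by
      rcases n2.lt_or_eq with h | h
      · have := lt_left_GEO H' hQ.2.1 hR.2.1 h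
        linarith
      · exact (left_GEO H' hQ.2.1 hR.2.1 h).le
    refine ⟨A, B, ?_, ?_⟩
    · unfold mid
      rcases n1.lt_or_eq with h | h
      · linarith
      · rcases n2.lt_or_eq with h' | h'
        · linarith
        · exact absurd (ext_GEO H' hQ hR h.symm h') n3
    · unfold span
      linarith
  · intro Q R hQ hR e1 e2
    exact ext_GEO H' hQ hR e1 e2
  · intro Q R X hQ hR hX hQR hRX
    obtain ⟨a1, a2, a3⟩ := hQR
    obtain ⟨b1, b2, b3⟩ := hRX
    refine ⟨b1.trans a1, a2.trans b2, ?_⟩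
    intro e
    subst e
    exact a3 (ext_GEO H' hQ hR (le_antisymm b1 a1) (le_antisymm a2 b2))
  · intro Q R hQ hR h
    exact lt_right_GEO H' hR.1 hQ.1 h
  · intro Q R hQ hR h
    exact lt_left_GEO H' hQ.2.1 hR.2.1 h

end Pool.Agent.Helper21.HN
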