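import Pool.Agent.Helper21.HN.St2

/-!
# Project HN, module INQ
-/

set_option autoImplicit false

namespace Pool.Agent.Helper21.HN

open Set MeasureTheory Pool.Agent.Helper82.HG Pool.Agent.Helper82.HC

theorem tINQ (_hBAS : StBAS) (_hLAM : StLAM) (hPAC : StPAC) (hWAY : StWAY) (hWTC : StWTC)
    (hCST : StCST) (hINN : StINN) : StINQ := by
  intro K S Λ G P L h m hB Q hQ hcQ V hV h1 h2
  have hK := hB.K1
  have hPair := hB.pair
  obtain ⟨c1, c2, -⟩ := hCST K S Λ hB.gens hB.lam P hPair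
  obtain ⟨g, c, hw, hc, hQe⟩ := (c2 Q (25 * L) hQ).1 hcQ
  have hQp : IsPair Λ Q := (c1 Q hQ).1
  have hg : g ∈ Gr S := ((hWAY K S Λ hB.gens hB.lam P hPair).1 g c hw).1
  have hgi : g⁻¹ ∈ Gr S := (Gr S).inv_mem hg
  have hV12 : V.1 < V.2 := (hB.ggap V hV).1
  obtain ⟨-, -, -, hcore, -⟩ := hPAC K S Λ hB.gens hB.lam
  have hco : core Q = ⇑g '' core P := by rw [hQe]; exact hcore g hg P hPair
  have hm1 : V.1 ∈ core Q := ⟨h1, hV12.trans h2⟩
  have hm2 : V.2 ∈ core Q := ⟨h1.trans hV12, h2⟩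
  rw [hco] at hm1 hm2
  obtain ⟨x1, hx1, hx1e⟩ := hm1
  obtain ⟨x2, hx2, hx2e⟩ := hm2
  have hi1 : g⁻¹ V.1 = x1 := by rw [← hx1e]; simp
  have hi2 : g⁻¹ V.2 = x2 := by rw [← hx2e]; simp
  have hV' : sact g⁻¹ V ∈ G := hB.gact _ hgi V hV
  have hV'e : sact g⁻¹ V = (min x1 x2, max x1 x2) := by
    unfold sact
    rw [hi1, hi2]
  have hback : sact g (sact g⁻¹ V) = V := by
    rw [hV'e]
    unfold sact
    rcases le_total x1 x2 with hle | hle
    · rw [min_eq_left hle, max_eq_right hle]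
      simp only
      rw [hx1e, hx2e, min_eq_left hV12.le, max_eq_right hV12.le]
    · rw [min_eq_right hle, max_eq_left hle]
      simp only
      rw [hx1e, hx2e, min_eq_right hV12.le, max_eq_left hV12.le]
  have hl : P.1.2 < (sact g⁻¹ V).1 := by
    rw [hV'e]; exact lt_min hx1.1 hx2.1
  have hr : (sact g⁻¹ V).2 < P.2.1 := by
    rw [hV'e]; exact max_lt hx1.2 hx2.2
  have hinn := hINN K S Λ G P L h m hB _ hV' hl hr
  have hL := hB.L0
  have hKL := hB.KL
  have hKc : 400 * K * c ≤ 1 := by nlinarith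
  obtain ⟨hmu, hw2⟩ := hWTC K S Λ hK hB.gens hB.lam
  obtain ⟨-, -, w3, -, w5⟩ := hw2 P g c hPair hw hKc
  have w3' := (w3 _ (hB.ggap _ hV') (hPair.1.1.le.trans hl.le) (hr.le.trans hPair.2.1.1.le)).1
  rw [hback, ← hQe] at w3'
  rw [← hQe] at w5
  have hsP : 0 < span P := by
    unfold span
    have a1 := hPair.1.1
    have a2 := hPair.2.1.1
    have a3 := hPair.2.2.1
    linarith
  have hsQ : 0 < span Q := by
    unfold span
    have a1 := hQp.1.1
    have a2 := hQp.2.1.1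
    have a3 := hQp.2.2.1
    linarith
  have hmuQ := (hmu Q hQp).1
  have e1 : span Q * (9 * wt S (sact g⁻¹ V)) ≤ span Q * (5 * mu S P) :=
    mul_le_mul_of_nonneg_left hinn hsQ.le
  have e2 : (5 * wt S V) * span P ≤ (3 * mu S Q) * span P := by
    have e3 : 0 < mu S Q * span P := mul_pos hmuQ hsP
    nlinarith
  exact le_of_mul_le_mul_right e2 hsP

end Pool.Agent.Helper21.HN
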