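import Pool.Agent.Helper21.HN.St2

/-!
# MP_10ef18_an (Hector), project HN: module LBA (helper99)
-/

set_option autoImplicit false

namespace Pool.Agent.Helper21.HN

open Set MeasureTheory Pool.Agent.Helper82.HG Pool.Agent.Helper82.HC

private theorem cst_le_LBA {K : ℝ} {S : Set (Equiv.Perm ℝ)} {Λ : Set ℝ} (hCST : StCST)
    (hg : Gens K S) (hl : Lam S Λ) {P : PG} (hP : IsPair Λ P) {Q : PG} (hQ : Sta S P Q)
    {w : Equiv.Perm ℝ} {t : ℝ} (hw : Way S P w t) (hE : Q = pact w P) : cst S P Q ≤ t := by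
  refine le_of_forall_pos_lt_add fun ε hε => ?_
  exact ((hCST K S Λ hg hl P hP).2.1 Q (t + ε) hQ).2 ⟨w, t, hw, by linarith, hE⟩

theorem tLBA : StACT → StPAC → StGEO → StWAY → StNEA → StTRA → StCST → StLBA := by
  intro hACT hPAC hGEO hWAY hNEA hTRA hCST K S Λ G P L h m b u c C hu hcL hC hCP
  have hP := b.pair
  obtain ⟨hc1, hc2, -, -, hc5, -, -⟩ := hCST K S Λ b.gens b.lam P hP
  obtain ⟨hw1, hw2, hw3, -⟩ := hWAY K S Λ b.gens b.lam P hP
  obtain ⟨hp1, hpm, -, -, hpn, -, -⟩ := hPAC K S Λ b.gens b.lam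
  obtain ⟨hg1, hg2, -, -, -, -⟩ := hGEO K S Λ b.gens b.lam
  have hCp : IsPair Λ C := (hc1 C hC).1
  obtain ⟨huG, hc0, -⟩ := hw1 u c hu
  have hK1 := b.K1
  have hL0 := b.L0
  have hKL := b.KL
  have hh0 := b.h0
  have hhL := b.hL
  have hKc : 400 * K * c ≤ 1 := by
    have : K * c ≤ K * L := mul_le_mul_of_nonneg_left hcL.le (by linarith)
    nlinarith [mul_pos (lt_of_lt_of_le one_pos hK1) hL0]
  have hKch : 400 * K * (c + h) ≤ 1 := by
    have h1 : K * (c + h) ≤ K * (2 * L) := mul_le_mul_of_nonneg_left (by linarith) (by linarith)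
    nlinarith [mul_pos (lt_of_lt_of_le one_pos hK1) hL0]
  obtain ⟨e1, e2, e3, e4⟩ := hg2 C P hCp hP hCP
  have sC : 0 < span C := lt_trans (hg1 C hCp).1 (hg1 C hCp).2.1
  have sP : 0 < span P := lt_trans (hg1 P hP).1 (hg1 P hP).2.1
  -- the pair R
  have aP := hACT K S Λ b.gens b.lam u huG P hP
  have aC := hACT K S Λ b.gens b.lam u huG C hCp
  have hR : IsPair Λ (pact u P) := aP.1
  have hC' : IsPair Λ (pact u C) := aC.1
  have sR : 0 < span (pact u P) := lt_trans (hg1 _ hR).1 (hg1 _ hR).2.1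
  have sC' : 0 < span (pact u C) := lt_trans (hg1 _ hC').1 (hg1 _ hC').2.1
  -- (iii)
  have hsC : span C = C.2.2 - C.1.1 := rfl
  have m1 : C.2.2 ∈ Icc P.1.1 P.2.2 := ⟨by linarith, e2⟩
  have m2 : C.1.1 ∈ Icc P.1.1 P.2.2 := ⟨e1, by linarith⟩
  have hn := hNEA K S Λ hK1 b.gens b.lam P u c hP hu hKc C.2.2 m1 C.1.1 m2
  rw [← aC.2.2.1, abs_of_pos (show (0 : ℝ) < C.2.2 - C.1.1 by linarith), ← hsC] at hn
  have hSC' : Sta S P (pact u C) := hc5 C u hC huG
  refine ⟨?_, ?_, hn.1, hn.2⟩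
  · -- (i)
    obtain ⟨c', hc'w, hc'⟩ := hTRA K S Λ hK1 b.gens b.lam P C u c hP hCp e1 e2 hu hKc
    have hc'' : c' ≤ 101 / 100 * (span C / span P) * c := by
      have : c' ≤ (101 * (c * span C)) / (100 * span P) := by
        rw [le_div_iff₀ (by positivity)]; linarith
      refine this.trans (le_of_eq ?_)
      field_simp
    refine le_of_forall_pos_le_add fun ε hε => ?_
    obtain ⟨w, t, hw, ht, hE⟩ := (hc2 C (cst S P C + ε) hC).1 (by linarith)
    obtain ⟨hwG, -, -⟩ := hw1 w t hw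
    have hway : Way S P (u * w) (t + c') := hw2 w t u c' hw (hE ▸ hc'w)
    have hEE : pact u C = pact (u * w) P := by rw [hpm u huG w hwG P hP, ← hE]
    have := cst_le_LBA hCST b.gens b.lam hP hSC' hway hEE
    linarith
  · -- (ii)
    have hN' : Nst (pact u C) (pact u P) := hpn u huG C P hCp hP hCP
    obtain ⟨c₁, hc₁, hw₁⟩ := hw3 u c hu
    have hsm : span (pact u P) ≤ h := b.sml u c hu (by linarith)
    obtain ⟨hv1, -, -, -⟩ := hWAY K S Λ b.gens b.lam (pact u P) hR
    obtain ⟨hiG, hc₁0, -⟩ := hv1 _ _ hw₁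
    have hKc1 : 400 * K * c₁ ≤ 1 := by
      have : 400 * K * c₁ ≤ 400 * K * (c + h) :=
        mul_le_mul_of_nonneg_left (by linarith) (by linarith)
      linarith
    obtain ⟨f1, f2, -, -⟩ := hg2 _ _ hC' hR hN'
    obtain ⟨c₂, hw₂, hc₂⟩ := hTRA K S Λ hK1 b.gens b.lam (pact u P) (pact u C) u⁻¹ c₁ hR hC' f1 f2
      hw₁ hKc1
    have hc₂' : c₂ ≤ 103 / 100 * (span C / span P) * (c + h) := by
      have h1 : c₂ ≤ (101 * (c₁ * span (pact u C))) / (100 * span (pact u P)) := by
        rw [le_div_iff₀ (by positivity)]; linarith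
      have h2 : span (pact u C) / span (pact u P) ≤ 101 / 100 * (span C / span P) := by
        rw [div_le_iff₀ sR]
        have : span (pact u C) ≤ (101 * (span (pact u P) * span C)) / (100 * span P) := by
          rw [le_div_iff₀ (by positivity)]; linarith [hn.1]
        refine this.trans (le_of_eq ?_)
        field_simp
      have h3 : (101 * (c₁ * span (pact u C))) / (100 * span (pact u P))
          = 101 / 100 * c₁ * (span (pact u C) / span (pact u P)) := by
        field_simp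
      have h4 : 101 / 100 * c₁ * (span (pact u C) / span (pact u P))
          ≤ 101 / 100 * (c + h) * (101 / 100 * (span C / span P)) := by
        apply mul_le_mul _ h2 (by positivity) (by positivity)
        nlinarith
      have h5 : 0 ≤ (span C / span P) * (c + h) := by positivity
      calc c₂ ≤ _ := h1
        _ = _ := h3
        _ ≤ _ := h4
        _ ≤ 103 / 100 * (span C / span P) * (c + h) := by nlinarith
    refine le_of_forall_pos_le_add fun ε hε => ?_
    obtain ⟨w, t, hw, ht, hE⟩ := (hc2 (pact u C) (cst S P (pact u C) + ε) hSC').1 (by linarith)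
    obtain ⟨hwG, -, -⟩ := hw1 w t hw
    have hway : Way S P (u⁻¹ * w) (t + c₂) := hw2 w t u⁻¹ c₂ hw (hE ▸ hw₂)
    have hEE : C = pact (u⁻¹ * w) P := by
      rw [hpm u⁻¹ hiG w hwG P hP, ← hE, ← hpm u⁻¹ hiG u huG C hCp, inv_mul_cancel, hp1 C hCp]
    have := cst_le_LBA hCST b.gens b.lam hP hC hway hEE
    linarith

end Pool.Agent.Helper21.HN
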