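import Pool.Agent.Helper21.HN.St2

/-!
# MP_10ef18_an, project HN, module LIQ
-/

set_option autoImplicit false

namespace Pool.Agent.Helper21.HN

open Set MeasureTheory Pool.Agent.Helper82.HG Pool.Agent.Helper82.HC

/-- Lipschitz from a bound of the derivative -/
private theorem lip_LIQ {f : ℝ → ℝ} (hf : Differentiable ℝ f) {B : ℝ}
    (hB : ∀ x, |deriv f x| ≤ B) (x y : ℝ) : |f x - f y| ≤ B * |x - y| := by
  have := Convex.norm_image_sub_le_of_norm_deriv_le (f := f) (s := univ) (x := y) (y := x)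
    (fun z _ => hf z) (fun z _ => hB z) convex_univ (mem_univ _) (mem_univ _)
  simpa [Real.norm_eq_abs] using this

private theorem ap_inv_LIQ (F : Equiv.Perm ℝ) (x : ℝ) : F (F⁻¹ x) = x := F.apply_symm_apply x

private theorem nice_LIQ (F : Equiv.Perm ℝ) (K : ℝ) (h2 : ContDiff ℝ 2 (⇑F))
    (h0 : ∀ x, deriv (⇑F) x ≠ 0) (hd : ∃ d : ℝ, (d = 1 ∨ d = -1) ∧ ∀ x : ℝ, F (x + 1) = F x + d)
    (hK : ∀ x, |iteratedDeriv 2 (⇑F) x| ≤ K * |deriv (⇑F) x| ∧
      |iteratedDeriv 2 (⇑F) x| ≤ K * |deriv (⇑F) x| ^ 2) :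
    Nice K F ∧ Nice K F⁻¹ := by
  have hdiff : Differentiable ℝ (⇑F) := h2.differentiable (by norm_num)
  have h1 : ContDiff ℝ 1 (deriv (⇑F)) := by
    have : ContDiff ℝ (1 + 1) (⇑F) := by
      rw [one_add_one_eq_two]
      exact h2
    exact (contDiff_succ_iff_deriv.mp this).2.2
  have hgdiff : Differentiable ℝ (deriv (⇑F)) := h1.differentiable (by norm_num)
  have hit : ∀ x, iteratedDeriv 2 (⇑F) x = deriv (deriv (⇑F)) x := by
    intro x
    rw [iteratedDeriv_succ, iteratedDeriv_one]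
  have hstr : ∀ x, HasStrictDerivAt (⇑F) (deriv (⇑F) x) x := fun x =>
    h2.contDiffAt.hasStrictDerivAt (by norm_num)
  have hopen : IsOpenMap (⇑F) := isOpenMap_of_hasStrictDerivAt hstr h0
  have hcont : Continuous (⇑F⁻¹) := F.continuous_symm_iff.mpr hopen
  have hinv : ∀ x, HasDerivAt (⇑F⁻¹) (deriv (⇑F) (F⁻¹ x))⁻¹ x := by
    intro x
    apply HasDerivAt.of_local_left_inverse hcont.continuousAt (hdiff _).hasDerivAt (h0 _)
    filter_upwards with y
    exact F.apply_symm_apply y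
  have hinvd : ∀ x, deriv (⇑F⁻¹) x = (deriv (⇑F) (F⁻¹ x))⁻¹ := fun x => (hinv x).deriv
  refine ⟨⟨hdiff, h0, ?_, hd⟩, ⟨fun x => (hinv x).differentiableAt, ?_, ?_, ?_⟩⟩
  · intro x y
    rw [Real.log_abs, Real.log_abs]
    refine lip_LIQ (f := fun x => Real.log (deriv (⇑F) x)) (fun x => (hgdiff x).log (h0 x))
      (fun z => ?_) x y
    rw [((hgdiff z).hasDerivAt.log (h0 z)).deriv, abs_div,
      div_le_iff₀ (abs_pos.mpr (h0 z)), ← hit z]
    exact (hK z).1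
  · intro x
    rw [hinvd x]
    exact inv_ne_zero (h0 _)
  · intro x y
    rw [hinvd x, hinvd y, abs_inv, abs_inv, Real.log_inv, Real.log_inv, Real.log_abs,
      Real.log_abs]
    have hD : ∀ z, HasDerivAt (fun x => -Real.log (deriv (⇑F) (F⁻¹ x)))
        (-(deriv (deriv (⇑F)) (F⁻¹ z) * (deriv (⇑F) (F⁻¹ z))⁻¹ / deriv (⇑F) (F⁻¹ z))) z := by
      intro z
      have e1 : HasDerivAt (fun x => deriv (⇑F) (F⁻¹ x))
          (deriv (deriv (⇑F)) (F⁻¹ z) * (deriv (⇑F) (F⁻¹ z))⁻¹) z :=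
        HasDerivAt.comp z (hgdiff (F⁻¹ z)).hasDerivAt (hinv z)
      exact (e1.log (h0 _)).neg
    refine lip_LIQ (f := fun x => -Real.log (deriv (⇑F) (F⁻¹ x)))
      (fun z => (hD z).differentiableAt) (fun z => ?_) x y
    rw [(hD z).deriv, abs_neg, abs_div, abs_mul, abs_inv,
      div_le_iff₀ (abs_pos.mpr (h0 (F⁻¹ z))), ← div_eq_mul_inv,
      div_le_iff₀ (abs_pos.mpr (h0 (F⁻¹ z))), ← hit]
    refine (hK (F⁻¹ z)).2.trans (le_of_eq ?_)
    ring
  · obtain ⟨d, hd1, hd⟩ := hd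
    refine ⟨d, hd1, fun x => ?_⟩
    rcases hd1 with rfl | rfl
    · apply F.injective
      rw [hd, ap_inv_LIQ, ap_inv_LIQ]
    · have h3 := hd (F⁻¹ x - 1)
      rw [sub_add_cancel, ap_inv_LIQ] at h3
      apply F.injective
      rw [ap_inv_LIQ, ← sub_eq_add_neg]
      linarith

theorem tLIQ : StLIQ := by
  intro n F K h2 h0 hd hK
  refine ⟨{s | ∃ i, s = F i ∨ s = (F i)⁻¹}, ⟨?_, ?_⟩, ?_⟩
  · rintro s ⟨i, rfl | rfl⟩
    · exact (nice_LIQ (F i) K (h2 i) (h0 i) (hd i) (hK i)).1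
    · exact (nice_LIQ (F i) K (h2 i) (h0 i) (hd i) (hK i)).2
  · rintro s ⟨i, rfl | rfl⟩
    · exact ⟨i, Or.inr rfl⟩
    · exact ⟨i, Or.inl (inv_inv _)⟩
  · apply le_antisymm
    · unfold Gr
      rw [Subgroup.closure_le]
      rintro s (rfl | ⟨i, rfl | rfl⟩)
      · exact Subgroup.subset_closure (Or.inl rfl)
      · exact Subgroup.subset_closure (Or.inr ⟨i, rfl⟩)
      · exact Subgroup.inv_mem _ (Subgroup.subset_closure (Or.inr ⟨i, rfl⟩))
    · rw [Subgroup.closure_le]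
      rintro s (rfl | ⟨i, rfl⟩)
      · exact Subgroup.subset_closure (Or.inl rfl)
      · exact Subgroup.subset_closure (Or.inr ⟨i, Or.inl rfl⟩)

end Pool.Agent.Helper21.HN
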