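import Pool.Agent.Helper21.HN.St2

/-!
# MP_10ef18_an (Hector), project HN: module MAI
-/

set_option autoImplicit false

namespace Pool.Agent.Helper21.HN

open Set MeasureTheory Pool.Agent.Helper82.HG Pool.Agent.Helper82.HC

private theorem lim_MAI (Λ : Set ℝ) (hc : IsClosed Λ) (c : ℝ)
    (h : (volume (Λ ∩ Icc (0 : ℝ) 1)).toReal < c) :
    ∃ r : ℝ, 0 < r ∧ ∀ h : ℝ, 0 < h → h < r →
      (volume (Metric.cthickening h Λ ∩ Icc (0 : ℝ) 1)).toReal < c := by
  let μ : Measure ℝ := volume.restrict (Icc (0 : ℝ) 1)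
  have hfin : ∀ s : Set ℝ, μ s ≠ ⊤ := by
    intro s
    have : μ s ≤ μ univ := measure_mono (subset_univ _)
    have h2 : μ univ = ENNReal.ofReal (1 - 0) := by
      simp [μ]
    rw [h2] at this
    exact ne_top_of_le_ne_top ENNReal.ofReal_ne_top this
  have h1 := tendsto_measure_cthickening_of_isClosed (μ := μ) (s := Λ)
    ⟨1, one_pos, hfin _⟩ hc
  have h2 := (ENNReal.tendsto_toReal (hfin Λ)).comp h1
  have hval : ∀ s : Set ℝ, MeasurableSet s → μ s = volume (s ∩ Icc (0 : ℝ) 1) := by
    intro s hs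
    exact Measure.restrict_apply hs
  have h3 : ∀ᶠ r in nhds (0 : ℝ), (ENNReal.toReal ∘ fun r => μ (Metric.cthickening r Λ)) r < c := by
    refine h2.eventually_lt_const ?_
    rw [hval Λ hc.measurableSet]
    exact h
  rw [Metric.eventually_nhds_iff] at h3
  obtain ⟨r, hr, hr2⟩ := h3
  refine ⟨r, hr, ?_⟩
  intro h h0 h1
  have := @hr2 h (by rw [Real.dist_eq, sub_zero, abs_of_pos h0]; exact h1)
  simp only [Function.comp] at this
  rw [hval _ Metric.isClosed_cthickening.measurableSet] at this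
  exact this

theorem tMAI : StLAM → StFAR → StFIN → StMKB → StFNL → StMAI := by
  intro _ hFAR hFIN hMKB hFNL K S Λ hK hG hL hv
  obtain ⟨η, hη, hfar⟩ := hFAR K S Λ hG hL
  have hK0 : (0 : ℝ) < K := lt_of_lt_of_le one_pos hK
  have hv' : (volume (Λ ∩ Icc (0 : ℝ) 1)).toReal < 1 / (10000 * K) / 200 := by
    rw [div_div, lt_div_iff₀ (by positivity)]
    nlinarith
  obtain ⟨r, hr, hr2⟩ := lim_MAI Λ hL.closed _ hv'
  let L : ℝ := 1 / (10000 * K)
  have hL0 : 0 < L := by positivity
  have hKL : 10000 * K * L = 1 := by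
    simp only [L]; field_simp
  let h : ℝ := min (min η r) (L / 100) / 2
  have hh0 : 0 < h := by
    have : 0 < min (min η r) (L / 100) := lt_min (lt_min hη hr) (by positivity)
    simp only [h]; linarith
  have hm0 : 0 < min (min η r) (L / 100) := lt_min (lt_min hη hr) (by positivity)
  have hhη : h < η := by
    have : min (min η r) (L / 100) ≤ η := le_trans (min_le_left _ _) (min_le_left _ _)
    simp only [h]; linarith
  have hhr : h < r := by
    have : min (min η r) (L / 100) ≤ r := le_trans (min_le_left _ _) (min_le_right _ _)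
    simp only [h]; linarith
  have hhL : 200 * h ≤ L := by
    have : min (min η r) (L / 100) ≤ L / 100 := min_le_right _ _
    simp only [h]; linarith
  refine hFIN K S Λ hG hL ⟨h / 7, by positivity, ?_⟩
  intro P₁ hP₁ hW1 hW2
  by_contra hcon
  have hcon' : 7 * span P₁ ≤ h := by
    have := not_le.mp hcon
    linarith
  have hmm := hr2 h hh0 hhr
  obtain ⟨G, P, hB⟩ := hMKB K S Λ hK hG hL L h
    ((volume (Metric.cthickening h Λ ∩ Icc (0 : ℝ) 1)).toReal) P₁ hL0 (le_of_eq hKL) hh0 hhL
    (by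
      have : (volume (Metric.cthickening h Λ ∩ Icc (0 : ℝ) 1)).toReal < L / 200 := hmm
      linarith) rfl hP₁ hcon' hW1 hW2
  obtain ⟨g, hg, hg2⟩ := hfar P hB.pair
  have := hFNL K S Λ G P L h _ hB g hg
  linarith

end Pool.Agent.Helper21.HN
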