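import Pool.Agent.Helper21.HN.St2

set_option autoImplicit false

namespace Pool.Agent.Helper21.HN

open Set MeasureTheory Pool.Agent.Helper82.HG Pool.Agent.Helper82.HC

private theorem shift_MEA (S : Set (Equiv.Perm ℝ)) (Λ : Set ℝ)
    (h1 : ∀ g ∈ Gr S, ∀ x, g x ∈ Λ ↔ x ∈ Λ) : (fun x : ℝ => x + 1) '' Λ = Λ := by
  have hT : T ∈ Gr S := Subgroup.subset_closure (Set.mem_insert _ _)
  have hx : ∀ x : ℝ, x + 1 ∈ Λ ↔ x ∈ Λ := fun x => by
    have := h1 T hT x
    simpa [T] using this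
  ext y
  constructor
  · rintro ⟨x, hxm, rfl⟩
    exact (hx x).2 hxm
  · intro hy
    refine ⟨y - 1, ?_, by ring⟩
    apply (hx (y - 1)).1
    simpa using hy

private theorem per_MEA (S : Set (Equiv.Perm ℝ)) (Λ : Set ℝ) (h : ℝ)
    (h1 : ∀ g ∈ Gr S, ∀ x, g x ∈ Λ ↔ x ∈ Λ) (x : ℝ) :
    x ∈ Metric.cthickening h Λ ↔ x + 1 ∈ Metric.cthickening h Λ := by
  have him := shift_MEA S Λ h1
  have hiso : Isometry (fun x : ℝ => x + 1) := isometry_add_right 1
  have h2 : Metric.infEDist (x + 1) Λ = Metric.infEDist x Λ := by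
    have h3 := Metric.infEDist_image (x := x) (t := Λ) hiso
    rw [him] at h3
    exact h3
  rw [Metric.mem_cthickening_iff, Metric.mem_cthickening_iff, h2]

theorem tMEA : StLAM → StCST → StPER → StMEA := by
  intro hLAM hCST hPER K S Λ G P L h m hB F U hF hdis
  obtain ⟨h1, -⟩ := hLAM K S Λ hB.gens hB.lam
  obtain ⟨c1, c2, -⟩ := hCST K S Λ hB.gens hB.lam P hB.pair
  have key := hPER (Metric.cthickening h Λ) Metric.isClosed_cthickening.measurableSet
    (fun x => per_MEA S Λ h h1 x) PG F U ?_ hdis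
  · rw [hB.meas]
    exact key
  · intro Q hQ
    obtain ⟨hs, hc, hm, hU⟩ := hF Q hQ
    refine ⟨hm, hU.trans ?_⟩
    obtain ⟨g, c, hw, hcl, hQe⟩ := (c2 Q (25 * L) hs).1 hc
    have hsp : span Q ≤ h := by
      rw [hQe]
      exact hB.sml g c hw hcl.le
    obtain ⟨hp, -⟩ := c1 Q hs
    obtain ⟨g1, g2, g3, g4⟩ := hp
    intro x hx
    have hx1 : Q.1.2 < x := hx.1
    have hx2 : x < Q.2.1 := hx.2
    apply Metric.mem_cthickening_of_dist_le x Q.1.2 h Λ g1.2.2.1
    have ha : Q.1.1 < Q.1.2 := g1.1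
    have hb : Q.2.1 < Q.2.2 := g2.1
    rw [Real.dist_eq, abs_of_pos (by linarith)]
    unfold span at hsp
    linarith

end Pool.Agent.Helper21.HN
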