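import Pool.Agent.Helper21.HN.St

/-!
# MP_10ef18_an (Hector), project HN, module MIN: the minimising pair
-/

set_option autoImplicit false

namespace Pool.Agent.Helper21.HN

open Set MeasureTheory Pool.Agent.Helper82.HG Pool.Agent.Helper82.HC

private lemma sact_one_MIN (u : ℝ × ℝ) (h : u.1 < u.2) : sact 1 u = u := by
  unfold sact
  simp only [Equiv.Perm.coe_one, id_eq, min_eq_left h.le, max_eq_right h.le]

theorem tMIN : StLAM → StWGT → Pool.Agent.Helper82.HG.StSEP → StMIN' := by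
  intro hLAM hWGT hSEP K S Λ hK hG hL Θ P₁ hP₁ hKΘ hTot
  obtain ⟨-, -, -, -, -, -, hgap, hdis⟩ := hLAM K S Λ hG hL
  have hW := hWGT K S Λ hG hL
  obtain ⟨hW1pos, hW1le, hW1, hW1inv, -⟩ := hW P₁.1 hP₁.1
  obtain ⟨hW2pos, hW2le, hW2, hW2inv, -⟩ := hW P₁.2 hP₁.2.1
  set w₀ := min (W S P₁.1) (W S P₁.2) with hw₀
  have hw₀pos : 0 < w₀ := lt_min hW1pos hW2pos
  -- weights of members
  have hmem : ∀ u ∈ Orb2 S P₁.1 P₁.2, w₀ ≤ W S u := by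
    rintro u ⟨g, hg, rfl | rfl⟩
    · rw [hW1inv g hg]; exact min_le_left _ _
    · rw [hW2inv g hg]; exact min_le_right _ _
  have key : ∀ Q : PG, IsPair Λ Q → Q.1 ∈ Orb2 S P₁.1 P₁.2 → Q.2 ∈ Orb2 S P₁.1 P₁.2 →
      Real.log w₀ ≤ Psi S Q := by
    intro Q hQ hQ1 hQ2
    obtain ⟨g1, g2, h12, hsp⟩ := hQ
    have l1 : Q.1.1 < Q.1.2 := g1.1
    have l2 : Q.2.1 < Q.2.2 := g2.1
    have hlt : Q.1.2 < Q.2.1 := by
      rcases hdis Q.1.1 Q.1.2 Q.2.1 Q.2.2 g1 g2 (by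
        intro h
        have := (Prod.mk.inj h).1
        linarith) with h | h
      · exact h
      · linarith
    obtain ⟨u1pos, u1le1, u1len, -, -⟩ := hW Q.1 g1
    obtain ⟨u2pos, u2le1, u2len, -, -⟩ := hW Q.2 g2
    have hKT : K * Θ ≤ 1 / 1024 := by linarith
    have s1 : 64 * K * Θ * ((Q.1.2 - Q.1.1) + 2 * (4 * (Q.1.2 - Q.1.1))) ≤ Q.1.2 - Q.1.1 := by
      have : 64 * K * Θ * ((Q.1.2 - Q.1.1) + 2 * (4 * (Q.1.2 - Q.1.1))) =
          576 * (K * Θ) * (Q.1.2 - Q.1.1) := by ring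
      rw [this]
      nlinarith
    have s2 : 64 * K * Θ * ((Q.2.2 - Q.2.1) + 2 * (4 * (Q.2.2 - Q.2.1))) ≤ Q.2.2 - Q.2.1 := by
      have : 64 * K * Θ * ((Q.2.2 - Q.2.1) + 2 * (4 * (Q.2.2 - Q.2.1))) =
          576 * (K * Θ) * (Q.2.2 - Q.2.1) := by ring
      rw [this]
      nlinarith
    have hs := hSEP K S Λ (by linarith) hG hL Q.1.1 Q.1.2 Q.2.1 Q.2.2 Θ Θ
      (4 * (Q.1.2 - Q.1.1)) (4 * (Q.2.2 - Q.2.1)) g1 g2 hlt (hTot Q.1 hQ1) (hTot Q.2 hQ2)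
      (by linarith) (by linarith) s1 s2
    have wt1 : wt S Q.1 * W S Q.1 = Q.1.2 - Q.1.1 := by
      unfold wt; field_simp
    have wt2 : wt S Q.2 * W S Q.2 = Q.2.2 - Q.2.1 := by
      unfold wt; field_simp
    have wp1 : 0 < wt S Q.1 := by unfold wt; exact div_pos (by linarith) u1pos
    have wp2 : 0 < wt S Q.2 := by unfold wt; exact div_pos (by linarith) u2pos
    have wl1 : wt S Q.1 ≤ 1 := by unfold wt; exact (div_le_one u1pos).2 u1len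
    have mupos : 0 < mu S Q := lt_min wp1 wp2
    have mule1 : mu S Q ≤ wt S Q.1 := min_le_left _ _
    have mule2 : mu S Q ≤ wt S Q.2 := min_le_right _ _
    have e1 : mu S Q * w₀ ≤ Q.1.2 - Q.1.1 := by
      rw [← wt1]
      exact mul_le_mul mule1 (hmem _ hQ1) hw₀pos.le wp1.le
    have e2 : mu S Q * w₀ ≤ Q.2.2 - Q.2.1 := by
      rw [← wt2]
      exact mul_le_mul mule2 (hmem _ hQ2) hw₀pos.le wp2.le
    have hmid : mu S Q * w₀ ≤ mid Q := by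
      unfold mid
      refine le_trans ?_ hs
      have : 4 * (mu S Q * w₀) ≤ min (4 * (Q.1.2 - Q.1.1)) (4 * (Q.2.2 - Q.2.1)) :=
        le_min (by linarith) (by linarith)
      linarith
    have hlog : Real.log (mu S Q) + Real.log w₀ ≤ Real.log (mid Q) := by
      rw [← Real.log_mul mupos.ne' hw₀pos.ne']
      exact Real.log_le_log (mul_pos mupos hw₀pos) hmid
    have hmu0 : Real.log (mu S Q) ≤ 0 := Real.log_nonpos mupos.le (le_trans mule1 wl1)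
    unfold Psi
    linarith
  have one_mem : (1 : Equiv.Perm ℝ) ∈ Gr S := Subgroup.one_mem _
  have hm1 : P₁.1 ∈ Orb2 S P₁.1 P₁.2 := ⟨1, one_mem, Or.inl (sact_one_MIN _ hP₁.1.1).symm⟩
  have hm2 : P₁.2 ∈ Orb2 S P₁.1 P₁.2 := ⟨1, one_mem, Or.inr (sact_one_MIN _ hP₁.2.1.1).symm⟩
  let V : Set ℝ := {t | ∃ Q : PG, IsPair Λ Q ∧ Q.1 ∈ Orb2 S P₁.1 P₁.2 ∧
    Q.2 ∈ Orb2 S P₁.1 P₁.2 ∧ t = Psi S Q}
  have hne : V.Nonempty := ⟨Psi S P₁, P₁, hP₁, hm1, hm2, rfl⟩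
  have hbdd : BddBelow V := by
    refine ⟨Real.log w₀, ?_⟩
    rintro t ⟨Q, hQ, h1, h2, rfl⟩
    exact key Q hQ h1 h2
  obtain ⟨t, ⟨P, hP, h1, h2, rfl⟩, hlt⟩ := Real.lt_sInf_add_pos hne (ε := 1 / 1000) (by norm_num)
  refine ⟨P, hP, h1, h2, ?_⟩
  intro Q hQ hQ1 hQ2
  have : sInf V ≤ Psi S Q := csInf_le hbdd ⟨Q, hQ, hQ1, hQ2, rfl⟩
  linarith

end Pool.Agent.Helper21.HN
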