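import Pool.Agent.Helper21.HN.St

/-! Project HN, module MKB: a base exists. -/

set_option autoImplicit false

namespace Pool.Agent.Helper21.HN

open Set MeasureTheory Pool.Agent.Helper82.HG Pool.Agent.Helper82.HC

private lemma sact_one_MKB (u : ℝ × ℝ) (h : u.1 < u.2) : sact 1 u = u := by
  unfold sact
  simp only [Equiv.Perm.coe_one, id_eq, min_eq_left h.le, max_eq_right h.le]

private lemma sact_mul_MKB (g k : Equiv.Perm ℝ) (u : ℝ × ℝ) :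
    sact g (sact k u) = sact (g * k) u := by
  unfold sact
  simp only [Equiv.Perm.coe_mul, Function.comp_apply]
  rcases le_total (k u.1) (k u.2) with h | h
  · rw [min_eq_left h, max_eq_right h]
  · rw [min_eq_right h, max_eq_left h, min_comm, max_comm]

theorem tMKB : StLAM → StWGT → StTOT → StMIN' → StSML → StMKB := by
  intro hLAM hWGT hTOT hMIN hSML K S Λ hK hG hL L h m P₁ hL0 hKL hh hhL hmL hm hP₁ hsp hW1 hW2
  obtain ⟨-, -, -, -, -, -, hgap, -⟩ := hLAM K S Λ hG hL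
  have wgt := hWGT K S Λ hG hL
  obtain ⟨p1pos, -, -, p1inv, -⟩ := wgt P₁.1 hP₁.1
  obtain ⟨p2pos, -, -, p2inv, -⟩ := wgt P₁.2 hP₁.2.1
  have q1 : P₁.1.1 < P₁.1.2 := hP₁.1.1
  have q2 : P₁.2.1 < P₁.2.2 := hP₁.2.1.1
  have q3 : P₁.1.2 ≤ P₁.2.1 := hP₁.2.2.1
  have one_mem : (1 : Equiv.Perm ℝ) ∈ Gr S := Subgroup.one_mem _
  have hm1 : P₁.1 ∈ Orb2 S P₁.1 P₁.2 := ⟨1, one_mem, Or.inl (sact_one_MKB _ q1).symm⟩
  have hm2 : P₁.2 ∈ Orb2 S P₁.1 P₁.2 := ⟨1, one_mem, Or.inr (sact_one_MKB _ q2).symm⟩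
  have hgaps : ∀ x ∈ Orb2 S P₁.1 P₁.2, Gap Λ x.1 x.2 := by
    rintro u ⟨g, hg, rfl | rfl⟩
    · exact hgap _ _ hP₁.1 g hg
    · exact hgap _ _ hP₁.2.1 g hg
  have hw : ∀ x ∈ Orb2 S P₁.1 P₁.2, W S x ≤ h := by
    unfold span at hsp
    rintro u ⟨g, hg, rfl | rfl⟩
    · rw [p1inv g hg]; linarith
    · rw [p2inv g hg]; linarith
  have hinv : ∀ g ∈ Gr S, ∀ x ∈ Orb2 S P₁.1 P₁.2, sact g x ∈ Orb2 S P₁.1 P₁.2 := by
    rintro g hg u ⟨k, hk, rfl | rfl⟩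
    · exact ⟨g * k, mul_mem hg hk, Or.inl (sact_mul_MKB _ _ _)⟩
    · exact ⟨g * k, mul_mem hg hk, Or.inr (sact_mul_MKB _ _ _)⟩
  have htot : ∀ u ∈ Orb2 S P₁.1 P₁.2, Tot S u (2 * m) := by
    intro u hu
    rw [hm]
    exact hTOT K S Λ hG hL h u hh (hgaps u hu) (hw u hu)
  have hK0 : 0 < K := by linarith
  have hKm : K * (200 * m) ≤ K * L := mul_le_mul_of_nonneg_left hmL hK0.le
  obtain ⟨P, hP, hP1, hP2, hmin⟩ := hMIN K S Λ hK hG hL (2 * m) P₁ hP₁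
    (by nlinarith) htot
  refine ⟨Orb2 S P₁.1 P₁.2, P, ⟨hK, hG, hL, hL0, hKL, hh, hhL, hmL, hm, hP, hP1, hP2, hinv, hgaps,
    hmin, ?_⟩⟩
  intro g c hway hc
  have hKc : K * c ≤ K * (25 * L) := mul_le_mul_of_nonneg_left hc hK0.le
  have := hSML K S Λ hK hG hL P₁ P hP₁ hW1 hW2 hP hP1 hP2 (hmin P₁ hP₁ hm1 hm2) g c hway
    (by nlinarith)
  linarith

end Pool.Agent.Helper21.HN
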