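import Pool.Agent.Helper21.HN.St

/-! # HN module NEA: almost affine control along a way -/

set_option autoImplicit false

namespace Pool.Agent.Helper21.HN

open Set MeasureTheory Pool.Agent.Helper82.HG Pool.Agent.Helper82.HC

private theorem exp_NEA : Real.exp (1 / 200) ≤ 101 / 100 := by
  have h1 := Real.add_one_le_exp (-(1 / 200) : ℝ)
  rw [Real.exp_neg] at h1
  have h2 := Real.exp_pos (1 / 200 : ℝ)
  have h3 : (199 / 200 : ℝ) * Real.exp (1 / 200) ≤ 1 := by
    have h4 : (199 / 200 : ℝ) ≤ (Real.exp (1 / 200))⁻¹ := by linarith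
    calc (199 / 200 : ℝ) * Real.exp (1 / 200) ≤ (Real.exp (1 / 200))⁻¹ * Real.exp (1 / 200) :=
          mul_le_mul_of_nonneg_right h4 h2.le
      _ = 1 := inv_mul_cancel₀ h2.ne'
  linarith

/-- two positive numbers whose logs differ by at most `1/200` -/
private theorem ratio_NEA {a b : ℝ} (ha : 0 < a) (hb : 0 < b)
    (h : |Real.log a - Real.log b| ≤ 1 / 200) : 100 * a ≤ 101 * b ∧ 100 * b ≤ 101 * a := by
  have key : ∀ {a b : ℝ}, 0 < a → 0 < b → Real.log a - Real.log b ≤ 1 / 200 →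
      100 * a ≤ 101 * b := by
    intro a b ha hb h
    have h1 : Real.log a ≤ Real.log b + 1 / 200 := by linarith
    have h2 := Real.exp_le_exp.2 h1
    rw [Real.exp_log ha, Real.exp_add, Real.exp_log hb] at h2
    have h3 := mul_le_mul_of_nonneg_left exp_NEA hb.le
    linarith
  rw [abs_le] at h
  exact ⟨key ha hb h.2, key hb ha (by linarith)⟩

private theorem mvt_NEA {h : ℝ → ℝ} (hd : Differentiable ℝ h) {a b : ℝ} (hab : a < b) :
    ∃ ξ ∈ Ioo a b, |h b - h a| = |deriv h ξ| * (b - a) := by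
  obtain ⟨ξ, hξ, he⟩ := exists_deriv_eq_slope h hab hd.continuous.continuousOn
    (hd.differentiableOn)
  refine ⟨ξ, hξ, ?_⟩
  have hpos : 0 < b - a := by linarith
  rw [he, abs_div, abs_of_pos hpos]
  field_simp

theorem tNEA : StBAS → StACT → StCTL → StWAY → StNEA := by
  intro hB hA hC hW K S Λ hK hG hL P g c hP hw hKc
  obtain ⟨hw1, -, -, -⟩ := hW K S Λ hG hL P hP
  obtain ⟨hgG, hc0, l, hl, hcl⟩ := hw1 g c hw
  obtain ⟨hd, hne, -, -⟩ := hB K S hG g hgG
  obtain ⟨-, -, hspan, -, -⟩ := hA K S Λ hG hL g hgG P hP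
  have hlt : P.1.1 < P.2.2 := by
    have h1 := hP.1.1
    have h2 := hP.2.1.1
    have h3 := hP.2.2.1
    linarith
  have hs0 : 0 < span P := by
    unfold span
    linarith
  have hlen : len (P.1.1, P.2.2) = span P := by
    unfold len span
    rw [abs_sub_comm]
    exact abs_of_pos (by simpa using hlt)
  have hmin : min (P.1.1, P.2.2).1 (P.1.1, P.2.2).2 = P.1.1 := min_eq_left hlt.le
  have hmax : max (P.1.1, P.2.2).1 (P.1.1, P.2.2).2 = P.2.2 := max_eq_right hlt.le
  have hKc0 : 0 ≤ K * c := mul_nonneg (by linarith) hc0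
  have hcond : 4 * K * cost l * (len (P.1.1, P.2.2) + 2 * 0) ≤ len (P.1.1, P.2.2) := by
    rw [hcl, hlen, mul_zero, add_zero]
    have h1 : 4 * K * c ≤ 1 := by nlinarith
    calc 4 * K * c * span P ≤ 1 * span P := mul_le_mul_of_nonneg_right h1 hs0.le
      _ = span P := one_mul _
  have osc : ∀ a ∈ Icc P.1.1 P.2.2, ∀ b ∈ Icc P.1.1 P.2.2,
      |Real.log (|deriv g a|) - Real.log (|deriv g b|)| ≤ 1 / 200 := by
    intro a ha b hb
    have h1 := hC K S (by linarith) hG (P.1.1, P.2.2) g l 0 hlt.ne le_rfl hl hcond a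
      (by rw [hmin, hmax, sub_zero, add_zero]; exact ha) b
      (by rw [hmin, hmax, sub_zero, add_zero]; exact hb)
    refine h1.trans ?_
    have hab : |a - b| ≤ span P := by
      unfold span
      rw [abs_le]
      constructor <;> linarith [ha.1, ha.2, hb.1, hb.2]
    rw [hlen, hcl]
    have h2 : 2 * K * c / span P * |a - b| ≤ 2 * K * c / span P * span P :=
      mul_le_mul_of_nonneg_left hab (div_nonneg (by linarith) hs0.le)
    refine h2.trans ?_
    rw [div_mul_cancel₀ _ hs0.ne']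
    linarith
  obtain ⟨ξ, hξ, he⟩ := mvt_NEA hd hlt
  have hξI : ξ ∈ Icc P.1.1 P.2.2 := ⟨hξ.1.le, hξ.2.le⟩
  have main : ∀ y z : ℝ, y < z → y ∈ Icc P.1.1 P.2.2 → z ∈ Icc P.1.1 P.2.2 →
      100 * (|g z - g y| * span P) ≤ 101 * (span (pact g P) * (z - y)) ∧
      100 * (span (pact g P) * (z - y)) ≤ 101 * (|g z - g y| * span P) := by
    intro y z hyz hy hz
    obtain ⟨η, hη, hη2⟩ := mvt_NEA hd hyz
    have hηI : η ∈ Icc P.1.1 P.2.2 := ⟨by linarith [hη.1, hy.1], by linarith [hη.2, hz.2]⟩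
    obtain ⟨r1, r2⟩ := ratio_NEA (abs_pos.2 (hne η)) (abs_pos.2 (hne ξ)) (osc η hηI ξ hξI)
    have hsp : span (pact g P) = |deriv g ξ| * span P := by
      rw [hspan, he]
      rfl
    rw [hη2, hsp]
    have hw0 : 0 ≤ (z - y) * span P := mul_nonneg (by linarith) hs0.le
    have m1 := mul_le_mul_of_nonneg_right r1 hw0
    have m2 := mul_le_mul_of_nonneg_right r2 hw0
    constructor
    · calc 100 * (|deriv g η| * (z - y) * span P) = 100 * |deriv g η| * ((z - y) * span P) := by ring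
        _ ≤ 101 * |deriv g ξ| * ((z - y) * span P) := m1
        _ = 101 * (|deriv g ξ| * span P * (z - y)) := by ring
    · calc 100 * (|deriv g ξ| * span P * (z - y)) = 100 * |deriv g ξ| * ((z - y) * span P) := by ring
        _ ≤ 101 * |deriv g η| * ((z - y) * span P) := m2
        _ = 101 * (|deriv g η| * (z - y) * span P) := by ring
  intro y hy z hz
  rcases lt_trichotomy y z with hyz | hyz | hyz
  · obtain ⟨m1, m2⟩ := main y z hyz hy hz
    rw [abs_sub_comm (g y), abs_sub_comm y z, abs_of_pos (by linarith : 0 < z - y)]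
    exact ⟨m1, m2⟩
  · subst hyz; simp
  · obtain ⟨m1, m2⟩ := main z y hyz hz hy
    rw [abs_of_pos (by linarith : 0 < y - z)]
    exact ⟨m1, m2⟩

end Pool.Agent.Helper21.HN
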