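import Pool.Agent.Helper21.HN.St

/-! Project HN, module PAC: algebra of `pact`. -/

set_option autoImplicit false

namespace Pool.Agent.Helper21.HN

open Set MeasureTheory Pool.Agent.Helper82.HG Pool.Agent.Helper82.HC

private def Ord_PAC (P : PG) : Prop :=
  P.1.1 < P.1.2 ∧ P.1.2 ≤ P.2.1 ∧ P.2.1 < P.2.2

private theorem pact_mono_PAC {g : Equiv.Perm ℝ} (hg : StrictMono g) {P : PG}
    (hP : Ord_PAC P) : pact g P = ((g P.1.1, g P.1.2), (g P.2.1, g P.2.2)) := by
  obtain ⟨h1, h2, h3⟩ := hP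
  unfold pact sact
  rw [if_pos (hg (lt_of_lt_of_le h1 h2)), min_eq_left (hg h1).le, max_eq_right (hg h1).le,
    min_eq_left (hg h3).le, max_eq_right (hg h3).le]

private theorem pact_anti_PAC {g : Equiv.Perm ℝ} (hg : StrictAnti g) {P : PG}
    (hP : Ord_PAC P) : pact g P = ((g P.2.2, g P.2.1), (g P.1.2, g P.1.1)) := by
  obtain ⟨h1, h2, h3⟩ := hP
  unfold pact sact
  rw [if_neg (not_lt.2 (hg (lt_of_lt_of_le h1 h2)).le), min_eq_right (hg h1).le,
    max_eq_left (hg h1).le, min_eq_right (hg h3).le, max_eq_left (hg h3).le]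

private theorem ord_pact_PAC {g : Equiv.Perm ℝ} (hg : StrictMono g ∨ StrictAnti g)
    {P : PG} (hP : Ord_PAC P) : Ord_PAC (pact g P) := by
  rcases hg with hg | hg
  · rw [pact_mono_PAC hg hP]
    exact ⟨hg hP.1, hg.monotone hP.2.1, hg hP.2.2⟩
  · rw [pact_anti_PAC hg hP]
    exact ⟨hg hP.2.2, hg.antitone hP.2.1, hg hP.1⟩

private theorem pact_mul_PAC {g h : Equiv.Perm ℝ} (hg : StrictMono g ∨ StrictAnti g)
    (hh : StrictMono h ∨ StrictAnti h) {P : PG} (hP : Ord_PAC P) :
    pact (g * h) P = pact g (pact h P) := by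
  have hQ := ord_pact_PAC hh hP
  rcases hg with hg | hg
  · rw [pact_mono_PAC hg hQ]
    rcases hh with hh | hh
    · have h1 : StrictMono (⇑(g * h)) := fun x y hxy => hg (hh hxy)
      rw [pact_mono_PAC h1 hP, pact_mono_PAC hh hP]
      rfl
    · have h1 : StrictAnti (⇑(g * h)) := fun x y hxy => hg (hh hxy)
      rw [pact_anti_PAC h1 hP, pact_anti_PAC hh hP]
      rfl
  · rw [pact_anti_PAC hg hQ]
    rcases hh with hh | hh
    · have h1 : StrictAnti (⇑(g * h)) := fun x y hxy => hg (hh hxy)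
      rw [pact_anti_PAC h1 hP, pact_mono_PAC hh hP]
      rfl
    · have h1 : StrictMono (⇑(g * h)) := fun x y hxy => hg (hh hxy)
      rw [pact_mono_PAC h1 hP, pact_anti_PAC hh hP]
      rfl

private theorem int_PAC {g : Equiv.Perm ℝ} {d : ℝ} (hd : d = 1 ∨ d = -1)
    (hg : ∀ x, g (x + 1) = g x + d) (n : ℤ) : ∃ m : ℤ, ∀ x, g (x + n) = g x + m := by
  obtain ⟨e, he⟩ : ∃ e : ℤ, d = e := by
    rcases hd with hd | hd
    · exact ⟨1, by rw [hd]; simp⟩
    · exact ⟨-1, by rw [hd]; simp⟩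
  refine ⟨n * e, ?_⟩
  induction n using Int.induction_on with
  | zero => intro x; simp
  | succ n ih =>
    intro x
    have h1 := ih x
    have h2 := hg (x + ((n : ℤ) : ℝ))
    rw [he] at h2
    push_cast at h1 h2 ⊢
    rw [← add_assoc, h2, h1]
    ring
  | pred n ih =>
    intro x
    have h1 := ih x
    have h2 := hg (x + ((-(n : ℤ) - 1 : ℤ) : ℝ))
    rw [he] at h2
    push_cast at h1 h2 ⊢
    have h3 : x + (-(n : ℝ) - 1) + 1 = x + -(n : ℝ) := by ring
    rw [h3, h1] at h2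
    linarith

private theorem ord_sh_PAC (n : ℤ) {P : PG} (hP : Ord_PAC P) : Ord_PAC (sh n P) := by
  obtain ⟨h1, h2, h3⟩ := hP
  exact ⟨by simpa [sh] using h1, by simpa [sh] using h2, by simpa [sh] using h3⟩

private theorem pact_sh_PAC {g : Equiv.Perm ℝ} (hg : StrictMono g ∨ StrictAnti g) {d : ℝ}
    (hd : d = 1 ∨ d = -1) (hg1 : ∀ x, g (x + 1) = g x + d) (n : ℤ) :
    ∃ m : ℤ, ∀ P : PG, Ord_PAC P → pact g (sh n P) = sh m (pact g P) := by
  obtain ⟨m, hm⟩ := int_PAC hd hg1 n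
  refine ⟨m, fun P hP => ?_⟩
  have hQ : Ord_PAC (sh n P) := ord_sh_PAC n hP
  rcases hg with hg | hg
  · rw [pact_mono_PAC hg hQ, pact_mono_PAC hg hP]
    unfold sh
    simp only [hm]
  · rw [pact_anti_PAC hg hQ, pact_anti_PAC hg hP]
    unfold sh
    simp only [hm]

private theorem T_app_PAC (x : ℝ) : T x = x + 1 := rfl

private theorem Tinv_app_PAC (x : ℝ) : T⁻¹ x = x - 1 := by
  have h : T (x - 1) = x := by rw [T_app_PAC]; ring
  calc T⁻¹ x = T⁻¹ (T (x - 1)) := by rw [h]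
    _ = x - 1 := Equiv.symm_apply_apply T (x - 1)

private theorem Tz_app_PAC (m : ℤ) : ∀ x : ℝ, (T ^ m) x = x + m := by
  induction m using Int.induction_on with
  | zero => intro x; simp
  | succ n ih =>
    intro x
    rw [zpow_add, zpow_one, Equiv.Perm.mul_apply, T_app_PAC, ih]
    push_cast
    ring
  | pred n ih =>
    intro x
    rw [zpow_sub, zpow_one, Equiv.Perm.mul_apply, Tinv_app_PAC, ih]
    push_cast
    ring

theorem tPAC : StBAS → StACT → StPAC := by
  intro hB hA K S Λ hS hL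
  have hord : ∀ P : PG, IsPair Λ P → Ord_PAC P := fun P h => ⟨h.1.1, h.2.2.1, h.2.1.1⟩
  have hm : ∀ g ∈ Gr S, StrictMono g ∨ StrictAnti g := fun g hg => (hB K S hS g hg).2.2.1
  have h1m : StrictMono (⇑(1 : Equiv.Perm ℝ)) := fun x y hxy => hxy
  have hone : ∀ P : PG, Ord_PAC P → pact 1 P = P := by
    intro P hP
    rw [pact_mono_PAC h1m hP]
    rfl
  have hTm : ∀ m : ℤ, StrictMono (⇑(T ^ m)) := by
    intro m x y hxy
    rw [Tz_app_PAC, Tz_app_PAC]
    linarith
  have hTG : ∀ m : ℤ, T ^ m ∈ Gr S := fun m =>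
    Subgroup.zpow_mem _ (Subgroup.subset_closure (Set.mem_insert _ _)) m
  have hTsh : ∀ (m : ℤ) (P : PG), Ord_PAC P → pact (T ^ m) P = sh m P := by
    intro m P hP
    rw [pact_mono_PAC (hTm m) hP]
    unfold sh
    simp only [Tz_app_PAC]
  refine ⟨fun P hP => hone P (hord P hP),
    fun g hg h hh P hP => pact_mul_PAC (hm g hg) (hm h hh) (hord P hP), ?_, ?_, ?_, ?_, hTG⟩
  · intro m P hP
    have e := hTsh m P (hord P hP)
    exact ⟨e, e ▸ (hA K S Λ hS hL (T ^ m) (hTG m) P hP).1⟩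
  · intro g hg P hP
    have hP' := hord P hP
    rcases hm g hg with h | h
    · rw [pact_mono_PAC h hP']
      unfold core
      ext y
      constructor
      · rintro ⟨h1, h2⟩
        refine ⟨g⁻¹ y, ⟨?_, ?_⟩, Equiv.apply_symm_apply g y⟩
        · have : g P.1.2 < g (g⁻¹ y) := by
            rw [show g (g⁻¹ y) = y from Equiv.apply_symm_apply g y]; exact h1
          exact h.lt_iff_lt.1 this
        · have : g (g⁻¹ y) < g P.2.1 := by
            rw [show g (g⁻¹ y) = y from Equiv.apply_symm_apply g y]; exact h2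
          exact h.lt_iff_lt.1 this
      · rintro ⟨x, ⟨h1, h2⟩, rfl⟩
        exact ⟨h h1, h h2⟩
    · rw [pact_anti_PAC h hP']
      unfold core
      ext y
      constructor
      · rintro ⟨h1, h2⟩
        refine ⟨g⁻¹ y, ⟨?_, ?_⟩, Equiv.apply_symm_apply g y⟩
        · have : g (g⁻¹ y) < g P.1.2 := by
            rw [show g (g⁻¹ y) = y from Equiv.apply_symm_apply g y]; exact h2
          exact h.lt_iff_gt.1 this
        · have : g P.2.1 < g (g⁻¹ y) := by
            rw [show g (g⁻¹ y) = y from Equiv.apply_symm_apply g y]; exact h1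
          exact h.lt_iff_gt.1 this
      · rintro ⟨x, ⟨h1, h2⟩, rfl⟩
        exact ⟨h h2, h h1⟩
  · intro g hg P Q hP hQ hPQ
    have hP' := hord P hP
    have hQ' := hord Q hQ
    obtain ⟨h1, h2, h3⟩ := hPQ
    have hne : pact g P ≠ pact g Q := by
      intro e
      apply h3
      have hgi : g⁻¹ ∈ Gr S := Subgroup.inv_mem _ hg
      have e1 : ∀ R : PG, Ord_PAC R → pact g⁻¹ (pact g R) = R := by
        intro R hR
        rw [← pact_mul_PAC (hm _ hgi) (hm g hg) hR, inv_mul_cancel]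
        exact hone R hR
      rw [← e1 P hP', ← e1 Q hQ', e]
    refine ⟨?_, ?_, hne⟩
    · rcases hm g hg with h | h
      · rw [pact_mono_PAC h hP', pact_mono_PAC h hQ']
        exact h.monotone h1
      · rw [pact_anti_PAC h hP', pact_anti_PAC h hQ']
        exact h.antitone h2
    · rcases hm g hg with h | h
      · rw [pact_mono_PAC h hP', pact_mono_PAC h hQ']
        exact h.monotone h2
      · rw [pact_anti_PAC h hP', pact_anti_PAC h hQ']
        exact h.antitone h1
  · intro g hg m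
    obtain ⟨-, -, hsm, d, hd, hsd⟩ := hB K S hS g hg
    obtain ⟨m', hm'⟩ := pact_sh_PAC hsm hd hsd m
    exact ⟨m', fun P hP => hm' P (hord P hP)⟩

end Pool.Agent.Helper21.HN
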