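import Pool.Agent.Helper21.HN.St

/-!
# MP_10ef18_an, project HN, module PER: disjoint sets modulo `1`
-/

set_option autoImplicit false

namespace Pool.Agent.Helper21.HN

open Set MeasureTheory Pool.Agent.Helper82.HG Pool.Agent.Helper82.HC

private theorem shift_PER (N : Set ℝ) (hN : ∀ x, x ∈ N ↔ x + 1 ∈ N) (m : ℤ) :
    ∀ x : ℝ, x ∈ N ↔ x + (m : ℝ) ∈ N := by
  induction m using Int.induction_on with
  | zero => intro x; simp
  | succ k ih =>
    intro x
    rw [ih x, hN (x + ((k : ℤ) : ℝ))]
    push_cast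
    rw [add_assoc]
  | pred k ih =>
    intro x
    have h1 := hN (x + (((-(k : ℤ) - 1 : ℤ)) : ℝ))
    rw [h1, ih x]
    push_cast
    have : x + (-(k : ℝ) - 1) + 1 = x + -(k : ℝ) := by ring
    rw [this]

theorem tPER : StPER := by
  intro N hNm hN ι s U hU hd
  have hvol : ∀ i ∈ s, volume (U i) =
      volume (⋃ m : ℤ, {x : ℝ | x + (m : ℝ) ∈ U i ∧ x ∈ Ico (0 : ℝ) 1}) := by
    intro i hi
    have hmeas : ∀ m : ℤ, MeasurableSet {x : ℝ | x + (m : ℝ) ∈ U i ∧ x ∈ Ico (0 : ℝ) 1} := by
      intro m
      exact ((measurable_id.add_const (m : ℝ)) (hU i hi).1).inter measurableSet_Ico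
    rw [measure_iUnion _ hmeas]
    · have hU' : U i = ⋃ m : ℤ, (U i ∩ Ico (m : ℝ) (m + 1)) := by
        rw [← inter_iUnion, iUnion_Ico_intCast, inter_univ]
      conv_lhs => rw [hU']
      rw [measure_iUnion]
      · refine tsum_congr fun m => ?_
        rw [← measure_preimage_add_right volume (m : ℝ) (U i ∩ Ico (m : ℝ) (m + 1))]
        congr 1
        ext x
        simp only [mem_preimage, mem_inter_iff, mem_Ico, mem_ofPred_eq]
        constructor
        · rintro ⟨h1, h2, h3⟩
          exact ⟨h1, by linarith, by linarith⟩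
        · rintro ⟨h1, h2, h3⟩
          exact ⟨h1, by linarith, by linarith⟩
      · intro m n hmn
        exact ((pairwise_disjoint_Ico_intCast ℝ) hmn).mono inter_subset_right inter_subset_right
      · intro m
        exact (hU i hi).1.inter measurableSet_Ico
    · intro m n hmn
      rw [Function.onFun, Set.disjoint_left]
      rintro x ⟨h1, _⟩ ⟨h2, _⟩
      have h3 := hd i hi i hi (m - n) (Or.inr (sub_ne_zero.mpr hmn))
      refine Set.disjoint_left.mp h3 h1 ⟨x + (n : ℝ), h2, ?_⟩
      push_cast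
      ring
  have hsum : ∑ i ∈ s, volume (U i) ≤ volume (N ∩ Icc (0 : ℝ) 1) := by
    rw [Finset.sum_congr rfl hvol, ← measure_biUnion_finset]
    · apply measure_mono
      intro x hx
      simp only [mem_iUnion, mem_ofPred_eq] at hx
      obtain ⟨i, hi, m, h1, h2⟩ := hx
      exact ⟨(shift_PER N hN m x).mpr ((hU i hi).2 h1), h2.1, h2.2.le⟩
    · intro i hi j hj hij
      rw [Function.onFun, Set.disjoint_left]
      intro x hx hy
      simp only [mem_iUnion, mem_ofPred_eq] at hx hy
      obtain ⟨m, h1, _⟩ := hx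
      obtain ⟨n, h2, _⟩ := hy
      have h3 := hd i hi j hj (m - n) (Or.inl hij)
      refine Set.disjoint_left.mp h3 h1 ⟨x + (n : ℝ), h2, ?_⟩
      push_cast
      ring
    · intro i hi
      refine MeasurableSet.iUnion fun m => ?_
      exact ((measurable_id.add_const (m : ℝ)) (hU i hi).1).inter measurableSet_Ico
  have hfin : volume (N ∩ Icc (0 : ℝ) 1) ≠ ⊤ :=
    ne_top_of_le_ne_top (by simp) (measure_mono inter_subset_right)
  rw [← ENNReal.toReal_sum]
  · exact ENNReal.toReal_mono hfin hsum
  · intro i hi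
    refine ne_top_of_le_ne_top hfin (le_trans ?_ hsum)
    exact Finset.single_le_sum (f := fun i => volume (U i)) (fun _ _ => zero_le) hi

end Pool.Agent.Helper21.HN
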