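import Pool.Agent.Helper21.HN.St2

/-! Project HN, module PRV: the copies of the labels inside a record do not meet smaller records. -/

set_option autoImplicit false

namespace Pool.Agent.Helper21.HN

open Set MeasureTheory Pool.Agent.Helper82.HG Pool.Agent.Helper82.HC

theorem tPRV : StACT → StPAC → StGEO → StWAY → StCST → StLMN → StIMP → StLBA → StPRV := by
  intro _ hPAC hGEO hWAY hCST hLMN hIMP hLBA K S Λ G P L h m B Q R C u c hQ hR hNRQ hC hw hc hQe
  have hP := B.pair
  have hL := B.L0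
  obtain ⟨pac1, pac2, -, -, pac5, -, -⟩ := hPAC K S Λ B.gens B.lam
  obtain ⟨geo1, -⟩ := hGEO K S Λ B.gens B.lam
  obtain ⟨w1, -, -, -⟩ := hWAY K S Λ B.gens B.lam P hP
  obtain ⟨c1, -, ⟨hPst, hP0⟩, -, c5, -, -⟩ := hCST K S Λ B.gens B.lam P hP
  have hu : u ∈ Gr S := (w1 u c hw).1
  have hc0 : 0 ≤ c := (w1 u c hw).2.1
  have hui : u⁻¹ ∈ Gr S := Subgroup.inv_mem _ hu
  obtain ⟨hCs, hCP, hCc, hCl⟩ := hC
  obtain ⟨hQs, hQ1, hQ2, -⟩ := hQ
  obtain ⟨hRs, hR1, hR2, hRm⟩ := hR
  have hCp := (c1 C hCs).1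
  have hRp := (c1 R hRs).1
  have hQp := (c1 Q hQs).1
  have hsP : 0 < span P := lt_trans (geo1 P hP).1 (geo1 P hP).2.1
  have hsQ : 0 < span Q := lt_trans (geo1 Q hQp).1 (geo1 Q hQp).2.1
  have hcan : ∀ X : PG, IsPair Λ X → pact u⁻¹ (pact u X) = X := by
    intro X hX
    rw [← pac2 _ hui _ hu X hX, inv_mul_cancel]
    exact pac1 X hX
  have hcan' : ∀ X : PG, IsPair Λ X → pact u (pact u⁻¹ X) = X := by
    intro X hX
    rw [← pac2 _ hu _ hui X hX, mul_inv_cancel]
    exact pac1 X hX
  have hYs : Sta S P (pact u C) := c5 C u hCs hu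
  have hYp := (c1 _ hYs).1
  have hCsm : 20 * span C ≤ span P :=
    hIMP K S Λ G P L h m B C P hCs hPst (by linarith) (by rw [hP0]; exact hL) hCP
  have hratC : span C / span P ≤ 1 / 20 := by
    rw [div_le_div_iff₀ hsP (by norm_num)]
    linarith
  have hi := (hLBA K S Λ G P L h m B u c C hw (by linarith) hCs hCP).1
  have hYc : cst S P (pact u C) < 36 / 100 * L := by
    have h1 : 101 / 100 * (span C / span P) * c ≤ 101 / 100 * (1 / 20) * c := by
      apply mul_le_mul_of_nonneg_right _ hc0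
      linarith
    linarith
  rw [Set.disjoint_iff_inter_eq_empty]
  by_contra hne
  have hne' : (core R ∩ core (pact u C)).Nonempty := Set.nonempty_iff_ne_empty.2 hne
  rcases (hLMN K S Λ G P L h m B R (pact u C) hRs hYs (by linarith) (by linarith)).1 hne' with
    e | e | e
  · rw [← e] at hYc
    linarith
  · exact hRm _ hYs (by linarith) e
  · have hDs : Sta S P (pact u⁻¹ R) := c5 R _ hRs hui
    have hCD : Nst C (pact u⁻¹ R) := by
      have := pac5 _ hui _ _ hYp hRp e
      rwa [hcan C hCp] at this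
    have hDP : Nst (pact u⁻¹ R) P := by
      have := pac5 _ hui _ _ hRp hQp hNRQ
      rwa [hQe, hcan P hP] at this
    have hRsm : 20 * span R ≤ span Q :=
      hIMP K S Λ G P L h m B R Q hRs hQs (by linarith) (by linarith) hNRQ
    obtain ⟨-, h2, -, h4⟩ := hLBA K S Λ G P L h m B u c (pact u⁻¹ R) hw (by linarith) hDs hDP
    rw [hcan' R hRp] at h2 h4
    rw [← hQe] at h4
    have hratD : span (pact u⁻¹ R) / span P ≤ 101 / 2000 := by
      rw [div_le_div_iff₀ hsP (by norm_num)]
      have h5 : span R * span P ≤ span Q / 20 * span P :=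
        mul_le_mul_of_nonneg_right (by linarith) hsP.le
      have h6 : span Q * (span (pact u⁻¹ R) * 2000) ≤ span Q * (101 * span P) := by
        nlinarith [h4, h5]
      exact le_of_mul_le_mul_left h6 hsQ
    have hhL : c + h ≤ 805 / 1000 * L := by
      have := B.hL
      linarith
    have hch0 : 0 ≤ c + h := by
      have := B.h0
      linarith
    have h7 : 103 / 100 * (span (pact u⁻¹ R) / span P) * (c + h) ≤
        103 / 100 * (101 / 2000) * (805 / 1000 * L) := by
      apply mul_le_mul _ hhL hch0 (by norm_num)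
      linarith
    exact hCl _ hDs (by linarith) hCD hDP

end Pool.Agent.Helper21.HN
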