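import Pool.Agent.Helper21.HN.St2

/-!
# MP_10ef18_an (Hector), project HN: module REC
-/

set_option autoImplicit false

namespace Pool.Agent.Helper21.HN

open Set MeasureTheory Pool.Agent.Helper82.HG Pool.Agent.Helper82.HC

private lemma span_sh_REC (k : ℤ) (Q : PG) : span (sh k Q) = span Q := by
  unfold span sh
  simp

private lemma sh_sh_REC (k l : ℤ) (Q : PG) : sh k (sh l Q) = sh (l + k) Q := by
  unfold sh
  simp only [Prod.mk.injEq]
  push_cast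
  refine ⟨⟨by ring, by ring⟩, by ring, by ring⟩

private lemma sh_zero_REC (Q : PG) : sh 0 Q = Q := by
  unfold sh
  simp

private lemma sh_neg_REC (k : ℤ) (Q : PG) : sh k (sh (-k) Q) = Q := by
  rw [sh_sh_REC, neg_add_cancel, sh_zero_REC]

private lemma sh_neg'_REC (k : ℤ) (Q : PG) : sh (-k) (sh k Q) = Q := by
  rw [sh_sh_REC, add_neg_cancel, sh_zero_REC]

private lemma nst_sh_REC (k : ℤ) (Q R : PG) (h : Nst Q R) : Nst (sh k Q) (sh k R) := by
  obtain ⟨h1, h2, h3⟩ := h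
  refine ⟨?_, ?_, ?_⟩
  · show R.1.2 + (k : ℝ) ≤ Q.1.2 + (k : ℝ)
    linarith
  · show Q.2.1 + (k : ℝ) ≤ R.2.1 + (k : ℝ)
    linarith
  · intro he
    apply h3
    rw [← sh_neg'_REC k Q, he, sh_neg'_REC]

theorem tREC : StPAC → StCST → StTOP → StANC → StREC := by
  intro hPAC hCST hTOP hANC K S Λ G P L h m hB t ht htL hex
  obtain ⟨p1, p2, p3, p4, p5, p6, p7⟩ := hPAC K S Λ hB.gens hB.lam
  obtain ⟨c1, c2, c3, c4, c5, c6, c7⟩ := hCST K S Λ hB.gens hB.lam P hB.pair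
  have hTop := hTOP K S Λ G P L h m hB
  have hAnc := hANC K S Λ G P L h m hB t
  by_contra hno
  obtain ⟨Q₀, hQ₀, hlt⟩ := hex
  -- claim A
  have claimA : ∀ Q, Sta S P Q → cst S P Q ≤ t →
      (∀ R, Sta S P R → cst S P R ≤ t → ¬ Nst Q R) → ∀ s ∈ S, cst S P (pact s Q) ≤ t := by
    intro Q hQ hle htopQ s hs
    by_contra hgt
    rw [not_le] at hgt
    apply hno
    have hsh := c4 Q (-⌊Q.1.1⌋) hQ
    refine ⟨sh (-⌊Q.1.1⌋) Q, hsh.1, ?_, ?_, ?_, ?_, ?_⟩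
    · show 0 ≤ Q.1.1 + ((-⌊Q.1.1⌋ : ℤ) : ℝ)
      push_cast
      have := Int.floor_le Q.1.1
      linarith
    · show Q.1.1 + ((-⌊Q.1.1⌋ : ℤ) : ℝ) < 1
      push_cast
      have := Int.lt_floor_add_one Q.1.1
      linarith
    · rw [hsh.2]; exact hle
    · rw [hsh.2, span_sh_REC]
      exact lt_of_lt_of_le hgt (c6 Q s hQ hs)
    · intro R hR hRt hn
      have h1 := nst_sh_REC ⌊Q.1.1⌋ _ _ hn
      rw [sh_neg_REC] at h1
      have h2 := c4 R ⌊Q.1.1⌋ hR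
      exact htopQ _ h2.1 (by rw [h2.2]; exact hRt) h1
  have hSG : ∀ s ∈ S, s ∈ Gr S := fun s hs =>
    Subgroup.subset_closure (Set.mem_insert_of_mem _ hs)
  -- claim B
  have key : ∀ Q, Sta S P Q → (cst S P Q ≤ t ∧ ∀ R, Sta S P R → cst S P R ≤ t → ¬ Nst Q R) := by
    refine c7 (fun Q => cst S P Q ≤ t ∧ ∀ R, Sta S P R → cst S P R ≤ t → ¬ Nst Q R) ?_ ?_ ?_
    · refine ⟨?_, ?_⟩
      · rw [c3.2]; exact ht
      · intro R hR hRt
        exact hTop R hR (lt_of_le_of_lt hRt htL)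
    · rintro Q hQ ⟨hle, htopQ⟩ s hs
      refine ⟨claimA Q hQ hle htopQ s hs, ?_⟩
      intro U hU hUt hn
      have hsQ : Sta S P (pact s Q) := c5 Q s hQ (hSG s hs)
      obtain ⟨U', hU', hU't, hn', htopU'⟩ := (hAnc (pact s Q) U hsQ hU hn).2 htL hUt
      have hsi : s⁻¹ ∈ S := hB.gens.inv s hs
      have hA := claimA U' hU' hU't htopU' s⁻¹ hsi
      have hQp : IsPair Λ Q := (c1 Q hQ).1
      have hsQp : IsPair Λ (pact s Q) := (c1 _ hsQ).1
      have hUp : IsPair Λ U' := (c1 U' hU').1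
      have h5 := p5 s⁻¹ (hSG _ hsi) (pact s Q) U' hsQp hUp hn'
      have h6 : pact s⁻¹ (pact s Q) = Q := by
        rw [← p2 s⁻¹ (hSG _ hsi) s (hSG s hs) Q hQp, inv_mul_cancel]
        exact p1 Q hQp
      rw [h6] at h5
      exact htopQ _ (c5 U' s⁻¹ hU' (hSG _ hsi)) hA h5
    · rintro Q hQ ⟨hle, htopQ⟩ k
      refine ⟨?_, ?_⟩
      · rw [(c4 Q k hQ).2]; exact hle
      · intro R hR hRt hn
        have h1 := nst_sh_REC (-k) _ _ hn
        rw [sh_neg'_REC] at h1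
        have h2 := c4 R (-k) hR
        exact htopQ _ h2.1 (by rw [h2.2]; exact hRt) h1
  exact absurd (key Q₀ hQ₀).1 (not_le.mpr hlt)

end Pool.Agent.Helper21.HN
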