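import Pool.Agent.Helper21.HN.St

/-! Project HN, module SML: the states are small. -/

set_option autoImplicit false

namespace Pool.Agent.Helper21.HN

open Set MeasureTheory Pool.Agent.Helper82.HG Pool.Agent.Helper82.HC

private theorem midpos_SML (hLAM : StLAM) {K : ℝ} {S : Set (Equiv.Perm ℝ)} {Λ : Set ℝ}
    (hG : Gens K S) (hL : Lam S Λ) {P : PG} (hP : IsPair Λ P) : 0 < mid P := by
  obtain ⟨-, -, -, -, -, -, -, h8⟩ := hLAM K S Λ hG hL
  obtain ⟨h1, h2, h3, h4⟩ := hP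
  have hne : (P.1.1, P.1.2) ≠ (P.2.1, P.2.2) := by
    intro h
    have := congrArg Prod.fst h
    simp only at this
    have := h1.1
    linarith
  unfold mid
  rcases h8 _ _ _ _ h1 h2 hne with h | h
  · linarith
  · have := h1.1
    have := h2.1
    linarith

theorem tSML : StLAM → StWGT → StACT → StWAY → StWTC → StSML := by
  intro hLAM hWGT hACT hWAY hWTC K S Λ hK hG hL P₁ P hP1 hW1 hW2 hP hm1 hm2 hPsi g c hw hc
  obtain ⟨hmu, hwtc⟩ := hWTC K S Λ hK hG hL
  obtain ⟨hgG, -, -⟩ := (hWAY K S Λ hG hL P hP).1 g c hw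
  obtain ⟨hQ, hQ12, -, -, -⟩ := hACT K S Λ hG hL g hgG P hP
  obtain ⟨t1, -, -, -, t5⟩ := hwtc P g c hP hw hc
  have wgt := hWGT K S Λ hG hL
  have p1 : P₁.1.1 < P₁.1.2 := hP1.1.1
  have p2 : P₁.2.1 < P₁.2.2 := hP1.2.1.1
  have p3 : P₁.1.2 ≤ P₁.2.1 := hP1.2.2.1
  have q1 : P.1.1 < P.1.2 := hP.1.1
  have q2 : P.2.1 < P.2.2 := hP.2.1.1
  have q3 : P.1.2 ≤ P.2.1 := hP.2.2.1
  have m0 : 0 < mid P₁ := midpos_SML hLAM hG hL hP1
  have m1 : 0 < mid P := midpos_SML hLAM hG hL hP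
  have m2 : mid P₁ ≤ span P₁ := by unfold mid span; linarith
  have s0 : 0 < span P₁ := lt_of_lt_of_le m0 m2
  have s1 : 0 < span P := by unfold span; linarith
  obtain ⟨mu1, mu1'⟩ := hmu P₁ hP1
  obtain ⟨mu2, mu2'⟩ := hmu P hP
  obtain ⟨mu3, mu3'⟩ := hmu _ hQ
  have half : ∀ u : ℝ × ℝ, 0 < W S u → W S u ≤ 2 * (u.2 - u.1) → 1 / 2 ≤ wt S u := by
    intro u h0 h1
    unfold wt
    rw [le_div_iff₀ h0]
    linarith
  have hmu1 : 1 / 2 ≤ mu S P₁ :=
    le_min (half _ (wgt P₁.1 hP1.1).1 hW1) (half _ (wgt P₁.2 hP1.2.1).1 hW2)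
  -- the pair `P` is short
  have hlog : Real.log (mid P) ≤ Real.log (mid P₁ * (9 / 4) * mu S P) := by
    unfold Psi at hPsi
    have e1 : -Real.log (mu S P₁) ≤ Real.log 2 := by
      have := Real.log_le_log (by norm_num : (0 : ℝ) < 1 / 2) hmu1
      rw [one_div, Real.log_inv] at this
      linarith
    have e2 : Real.log (mu S P) ≤ 0 := Real.log_nonpos mu2.le mu2'
    have e3 : Real.log (9 / 4) = Real.log 2 + Real.log (9 / 8) := by
      rw [← Real.log_mul (by norm_num) (by norm_num)]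
      norm_num
    have e4 : 1 - (9 / 8 : ℝ)⁻¹ ≤ Real.log (9 / 8) := Real.one_sub_inv_le_log_of_pos (by norm_num)
    have e5 := Real.log_two_lt_d9
    rw [Real.log_mul (by positivity) (by positivity), Real.log_mul (by positivity) (by norm_num)]
    norm_num at e4
    linarith
  have hmid : mid P ≤ mid P₁ * (9 / 4) * mu S P := (Real.log_le_log_iff m1 (by positivity)).1 hlog
  have hmid2 : mid P ≤ span P₁ * (9 / 4) * mu S P :=
    hmid.trans (mul_le_mul_of_nonneg_right (mul_le_mul_of_nonneg_right m2 (by norm_num)) mu2.le)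
  have sQ : 0 < span (pact g P) := by
    have r1 : (pact g P).1.1 < (pact g P).1.2 := hQ.1.1
    have r2 : (pact g P).2.1 < (pact g P).2.2 := hQ.2.1.1
    have r3 : (pact g P).1.2 ≤ (pact g P).2.1 := hQ.2.2.1
    unfold span
    linarith
  have hmidQ : mid (pact g P) ≤ 3 * span P₁ := by
    have a1 : 100 * (span (pact g P) * mu S P) ≤ 101 * span P := by
      refine t5.trans ?_
      have : mu S (pact g P) * span P ≤ 1 * span P := mul_le_mul_of_nonneg_right mu3' s1.le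
      linarith
    have a2 : span (pact g P) * mid P ≤ span (pact g P) * (span P₁ * (9 / 4) * mu S P) :=
      mul_le_mul_of_nonneg_left hmid2 sQ.le
    have a3 : span (pact g P) * (span P₁ * (9 / 4) * mu S P) =
        9 / 4 * span P₁ * (span (pact g P) * mu S P) := by ring
    have a4 : 9 / 4 * span P₁ * (100 * (span (pact g P) * mu S P)) ≤
        9 / 4 * span P₁ * (101 * span P) := mul_le_mul_of_nonneg_left a1 (by positivity)
    have a5 : mid (pact g P) * span P ≤ 3 * span P₁ * span P := by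
      have a6 : 0 < span P₁ * span P := mul_pos s0 s1
      nlinarith [t1, a2, a3, a4, a6]
    exact le_of_mul_le_mul_right a5 s1
  -- the gaps of the orbits are short
  have l1 : P₁.1.2 - P₁.1.1 ≤ span P₁ := by unfold span; linarith
  have l2 : P₁.2.2 - P₁.2.1 ≤ span P₁ := by unfold span; linarith
  have horb : ∀ x ∈ Orb2 S P₁.1 P₁.2, W S x ≤ 2 * span P₁ := by
    rintro x ⟨k, hk, rfl | rfl⟩
    · rw [(wgt P₁.1 hP1.1).2.2.2.1 k hk]
      linarith
    · rw [(wgt P₁.2 hP1.2.1).2.2.2.1 k hk]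
      linarith
  have b1 : W S (sact g P.1) ≤ 2 * span P₁ := by
    rw [(wgt P.1 hP.1).2.2.2.1 g hgG]
    exact horb _ hm1
  have b2 : W S (sact g P.2) ≤ 2 * span P₁ := by
    rw [(wgt P.2 hP.2.1).2.2.2.1 g hgG]
    exact horb _ hm2
  have c1 : W S (pact g P).1 ≤ 2 * span P₁ ∧ W S (pact g P).2 ≤ 2 * span P₁ := by
    rcases hQ12 with ⟨h1, h2⟩ | ⟨h1, h2⟩
    · rw [h1, h2]; exact ⟨b1, b2⟩
    · rw [h1, h2]; exact ⟨b2, b1⟩
  have d1 := (wgt (pact g P).1 hQ.1).2.2.1
  have d2 := (wgt (pact g P).2 hQ.2.1).2.2.1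
  have e : span (pact g P) = ((pact g P).1.2 - (pact g P).1.1) + mid (pact g P) +
      ((pact g P).2.2 - (pact g P).2.1) := by
    unfold span mid
    ring
  rw [e]
  linarith [c1.1, c1.2]

end Pool.Agent.Helper21.HN
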