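import Pool.Agent.Helper21.HN.St2

/-!
# MP_10ef18_an, project HN: module TOP
-/

set_option autoImplicit false

namespace Pool.Agent.Helper21.HN

open Set MeasureTheory Pool.Agent.Helper82.HG Pool.Agent.Helper82.HC

private theorem real_TOP (sP sQ mP mQ uP uQ : ℝ) (hsP : 0 < sP) (hmP : 0 < mP) (hmQ : 0 < mQ)
    (huP : 0 < uP) (huQ : 0 < uQ) (h1 : 8 * sP ≤ 5 * sQ) (h2 : 100 * (mQ * sP) ≤ 101 * (sQ * mP))
    (h3 : 100 * (sQ * uP) ≤ 101 * (uQ * sP))
    (h4 : Real.log mP - 11 / 10 * Real.log uP ≤ Real.log mQ - 11 / 10 * Real.log uQ + 1 / 1000) :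
    False := by
  have hsQ : 0 < sQ := by linarith
  have e1 : Real.log mQ + Real.log sP ≤ Real.log (101 / 100) + Real.log sQ + Real.log mP := by
    rw [← Real.log_mul hmQ.ne' hsP.ne', ← Real.log_mul (by norm_num) hsQ.ne',
      ← Real.log_mul (by positivity) hmP.ne']
    exact Real.log_le_log (by positivity) (by nlinarith)
  have e2 : Real.log sQ + Real.log uP ≤ Real.log (101 / 100) + Real.log uQ + Real.log sP := by
    rw [← Real.log_mul hsQ.ne' huP.ne', ← Real.log_mul (by norm_num) huQ.ne',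
      ← Real.log_mul (by positivity) hsP.ne']
    exact Real.log_le_log (by positivity) (by nlinarith)
  have e3 : Real.log (101 / 100) ≤ 1 / 100 := by
    have := Real.log_le_sub_one_of_pos (show (0 : ℝ) < 101 / 100 by norm_num)
    linarith
  have e4 : 3 / 8 ≤ Real.log (8 / 5) := by
    have := Real.one_sub_inv_le_log_of_pos (show (0 : ℝ) < 8 / 5 by norm_num)
    norm_num at this ⊢
    linarith
  have e5 : Real.log (8 / 5) + Real.log sP ≤ Real.log sQ := by
    rw [← Real.log_mul (by norm_num) hsP.ne']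
    exact Real.log_le_log (by positivity) (by linarith)
  linarith

theorem tTOP : StACT → StGEO → StWAY → StWTC → StCST → StLMN → StTOP := by
  intro hACT hGEO hWAY hWTC hCST hLMN K S Λ G P L h m B Q hQ hc hN
  have hP := B.pair
  obtain ⟨c1, c2, c3, -⟩ := hCST K S Λ B.gens B.lam P hP
  obtain ⟨g, c, hw, hcL, rfl⟩ := (c2 Q (25 * L) hQ).1 hc
  have hL25 : (0 : ℝ) < 25 * L := by linarith [B.L0]
  have hK := B.K1
  have hKc : 400 * K * c ≤ 1 := by
    have h1 : 400 * K * c ≤ 400 * K * (25 * L) := by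
      apply mul_le_mul_of_nonneg_left hcL.le
      linarith
    linarith [B.KL]
  have hlm := (hLMN K S Λ G P L h m B P (pact g P) c3.1 hQ (by rw [c3.2]; exact hL25) hc).2 hN
  have hg : g ∈ Gr S := ((hWAY K S Λ B.gens B.lam P hP).1 g c hw).1
  obtain ⟨hpos, hWT⟩ := hWTC K S Λ hK B.gens B.lam
  obtain ⟨w1, -, -, -, w5⟩ := hWT P g c hP hw hKc
  have hPQ : IsPair Λ (pact g P) := (c1 _ hQ).1
  obtain ⟨-, hmem, -⟩ := hACT K S Λ B.gens B.lam g hg P hP
  have hm1 : (pact g P).1 ∈ G ∧ (pact g P).2 ∈ G := by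
    rcases hmem with ⟨a, b⟩ | ⟨a, b⟩
    · rw [a, b]; exact ⟨B.gact g hg _ B.mem1, B.gact g hg _ B.mem2⟩
    · rw [a, b]; exact ⟨B.gact g hg _ B.mem2, B.gact g hg _ B.mem1⟩
  have hpsi := B.psi (pact g P) hPQ hm1.1 hm1.2
  obtain ⟨g1, -⟩ := hGEO K S Λ B.gens B.lam
  have q1 := g1 P hP
  have q2 := g1 (pact g P) hPQ
  exact real_TOP (span P) (span (pact g P)) (mid P) (mid (pact g P)) (mu S P) (mu S (pact g P))
    (q1.1.trans q1.2.1) q1.1 q2.1 (hpos P hP).1 (hpos _ hPQ).1 hlm.2 w1 w5 hpsi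

end Pool.Agent.Helper21.HN
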