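import Pool.Agent.Helper21.HN.St

/-!
# MP_10ef18_an (Hector), project HN, module TOT: total length of an orbit of short gaps
-/

set_option autoImplicit false

namespace Pool.Agent.Helper21.HN

open Set MeasureTheory Pool.Agent.Helper82.HG Pool.Agent.Helper82.HC

private lemma T_zpow_TOT (k : ℤ) (x : ℝ) : (T ^ k : Equiv.Perm ℝ) x = x + k := by
  induction k generalizing x with
  | zero => simp
  | succ n ih =>
    rw [zpow_add_one, Equiv.Perm.mul_apply, ih]
    show x + 1 + _ = _
    push_cast
    ring
  | pred n ih =>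
    rw [zpow_sub_one, Equiv.Perm.mul_apply, ih]
    have : (T⁻¹ : Equiv.Perm ℝ) x = x - 1 := by
      rw [Equiv.Perm.inv_eq_iff_eq]
      show x = x - 1 + 1
      ring
    rw [this]
    push_cast
    ring

private lemma T_mem_TOT (S : Set (Equiv.Perm ℝ)) (m : ℤ) : T ^ m ∈ Gr S :=
  Subgroup.zpow_mem (Gr S) (Subgroup.subset_closure (Set.mem_insert _ _)) m

private lemma per_TOT (Λ : Set ℝ) (h : ℝ) (hp : ∀ x, x + 1 ∈ Λ ↔ x ∈ Λ) (x : ℝ) :
    x ∈ Metric.cthickening h Λ ↔ x + 1 ∈ Metric.cthickening h Λ := by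
  have hiso : Isometry (fun y : ℝ => y + 1) := isometry_add_right 1
  have himg : (fun y : ℝ => y + 1) '' Λ = Λ := by
    ext y
    constructor
    · rintro ⟨z, hz, rfl⟩
      exact (hp z).2 hz
    · intro hy
      refine ⟨y - 1, ?_, by simp⟩
      rw [← hp]
      simpa using hy
  have hE : Metric.infEDist (x + 1) Λ = Metric.infEDist x Λ := by
    conv_lhs => rw [← himg]
    exact Metric.infEDist_image hiso
  rw [Metric.mem_cthickening_iff, Metric.mem_cthickening_iff, hE]

theorem tTOT : StBAS → StLAM → StWGT → StPER → StTOT := by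
  intro _ hLAM hWGT hPER K S Λ hG hL h u hh hu hWh s hs hEq
  obtain ⟨hinv, -, -, -, -, -, hgap, hdis⟩ := hLAM K S Λ hG hL
  set N := Metric.cthickening h Λ with hN
  have hNm : MeasurableSet N := Metric.isClosed_cthickening.measurableSet
  have hp : ∀ x, x + 1 ∈ Λ ↔ x ∈ Λ := by
    intro x
    have := hinv (T ^ (1 : ℤ)) (T_mem_TOT S 1) x
    rwa [T_zpow_TOT, Int.cast_one] at this
  have hNp : ∀ x, x ∈ N ↔ x + 1 ∈ N := per_TOT Λ h hp
  -- facts on the members
  have hmem : ∀ w ∈ s, Gap Λ (min w.1 w.2) (max w.1 w.2) ∧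
      max w.1 w.2 - min w.1 w.2 ≤ h := by
    intro w hw
    obtain ⟨g, hg, rfl⟩ := hs w hw
    have g1 := hgap u.1 u.2 hu g hg
    refine ⟨g1, ?_⟩
    have h1 := (hWGT K S Λ hG hL (sact g u) g1).2.2.1
    have h2 := (hWGT K S Λ hG hL u hu).2.2.2.1 g hg
    rw [h2] at h1
    exact le_trans h1 hWh
  have hshift : ∀ a b : ℝ, Gap Λ a b → ∀ m : ℤ, Gap Λ (a + m) (b + m) := by
    intro a b hab m
    have := hgap a b hab (T ^ m) (T_mem_TOT S m)
    rw [T_zpow_TOT, T_zpow_TOT] at this
    have hlt := hab.1
    rwa [min_eq_left (by linarith), max_eq_right (by linarith)] at this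
  -- one orientation
  have part : ∀ t : Finset (ℝ × ℝ), t ⊆ s → ((∀ w ∈ t, w.1 < w.2) ∨ (∀ w ∈ t, w.2 < w.1)) →
      ∑ w ∈ t, len w ≤ (volume (N ∩ Icc (0 : ℝ) 1)).toReal := by
    intro t hts hor
    have hU := hPER N hNm hNp (ℝ × ℝ) t (fun w => Ioo (min w.1 w.2) (max w.1 w.2)) (by
      intro w hw
      refine ⟨measurableSet_Ioo, ?_⟩
      intro x hx
      obtain ⟨gw, lw⟩ := hmem w (hts hw)
      refine Metric.mem_cthickening_of_dist_le x (min w.1 w.2) h Λ gw.2.1 ?_
      rw [Real.dist_eq, abs_of_nonneg (by linarith [hx.1])]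
      linarith [hx.2]) (by
      intro w hw w' hw' m hne
      obtain ⟨gw, -⟩ := hmem w (hts hw)
      obtain ⟨gw', -⟩ := hmem w' (hts hw')
      have gs := hshift _ _ gw' m
      by_cases heq : (min w.1 w.2, max w.1 w.2) = (min w'.1 w'.2 + (m : ℝ), max w'.1 w'.2 + (m : ℝ))
      · exfalso
        obtain ⟨q1, q2⟩ := Prod.mk.inj heq
        have hE : Eqv w' w := by
          refine ⟨m, ?_⟩
          rcases hor with ho | ho
          · have a1 := ho w hw
            have a2 := ho w' hw'
            rw [min_eq_left a1.le, min_eq_left a2.le] at q1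
            rw [max_eq_right a1.le, max_eq_right a2.le] at q2
            exact ⟨q1, q2⟩
          · have a1 := ho w hw
            have a2 := ho w' hw'
            rw [min_eq_right a1.le, min_eq_right a2.le] at q1
            rw [max_eq_left a1.le, max_eq_left a2.le] at q2
            exact ⟨q2, q1⟩
        have hww := hEq w' (hts hw') w (hts hw) hE
        subst hww
        rcases hne with h1 | h1
        · exact h1 rfl
        · apply h1
          have : (m : ℝ) = 0 := by linarith
          exact_mod_cast this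
      · rw [Set.disjoint_left]
        rintro x hx ⟨y, hy, rfl⟩
        have hx1 := hx.1
        have hx2 := hx.2
        have hy1 := hy.1
        have hy2 := hy.2
        simp only at hx1 hx2
        rcases hdis _ _ _ _ gw gs heq with h1 | h1
        · linarith
        · linarith)
    refine le_trans (le_of_eq ?_) hU
    apply Finset.sum_congr rfl
    intro w hw
    rw [Real.volume_Ioo, ENNReal.toReal_ofReal (by
      have := (hmem w (hts hw)).1.1
      linarith)]
    unfold len
    rw [max_sub_min_eq_abs, abs_sub_comm]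
  rw [← Finset.sum_filter_add_sum_filter_not s (fun w => w.1 < w.2)]
  have p1 := part (s.filter (fun w => w.1 < w.2)) (Finset.filter_subset _ _)
    (Or.inl fun w hw => (Finset.mem_filter.1 hw).2)
  have p2 := part (s.filter (fun w => ¬ w.1 < w.2)) (Finset.filter_subset _ _)
    (Or.inr fun w hw => by
      obtain ⟨h1, h2⟩ := Finset.mem_filter.1 hw
      have h3 := (hmem w h1).1.1
      rcases lt_or_eq_of_le (not_lt.1 h2) with h4 | h4
      · exact h4
      · exfalso
        rw [h4, min_self, max_self] at h3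
        exact lt_irrefl _ h3)
  linarith

end Pool.Agent.Helper21.HN
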