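import Pool.Agent.Helper21.HN.St

set_option autoImplicit false

namespace Pool.Agent.Helper21.HN

open Set MeasureTheory Pool.Agent.Helper82.HG Pool.Agent.Helper82.HC

theorem tTRA : StBAS → StACT → StWAY → StNEA → StTRA := by
  intro _ hACT hWAY hNEA K S Λ hK hG hL P C g c hP hC h1 h2 hw hc
  have hC11 : C.1.1 ≤ C.2.2 := by
    have a1 := hC.1.1
    have a2 := hC.2.1.1
    have a3 := hC.2.2.1
    linarith
  have hspC : |C.2.2 - C.1.1| = span C := by
    unfold span
    exact abs_of_nonneg (by linarith)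
  have hKp : 0 < K := lt_of_lt_of_le one_pos hK
  induction hw with
  | nil =>
    exact ⟨0, Way.nil, by simp⟩
  | @tr g' c' m hw' ih =>
    obtain ⟨d, hd, hle⟩ := ih hc
    exact ⟨d, Way.tr m hd, hle⟩
  | @step g' c' s hs hw' ih =>
    have hgr : g' ∈ Gr S := ((hWAY K S Λ hG hL P hP).1 g' c' hw').1
    have hsp : span (pact g' P) = |g' P.2.2 - g' P.1.1| := (hACT K S Λ hG hL g' hgr P hP).2.2.1
    have hspn : 0 ≤ span (pact g' P) := by rw [hsp]; exact abs_nonneg _
    have hc' : 400 * K * c' ≤ 1 := by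
      have h3 : 0 ≤ 400 * K * span (pact g' P) := by positivity
      have h4 : 400 * K * (c' + span (pact g' P)) = 400 * K * c' + 400 * K * span (pact g' P) := by
        ring
      rw [h4] at hc
      linarith
    obtain ⟨d, hd, hle⟩ := ih hc'
    refine ⟨d + span (pact g' C), Way.step s hs hd, ?_⟩
    have hspc : span (pact g' C) = |g' C.2.2 - g' C.1.1| := (hACT K S Λ hG hL g' hgr C hC).2.2.1
    have hn := (hNEA K S Λ hK hG hL P g' c' hP hw' hc' C.2.2 ⟨le_trans h1 hC11, h2⟩
      C.1.1 ⟨h1, le_trans hC11 h2⟩).1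
    rw [hspC, ← hspc] at hn
    have e1 : 100 * ((d + span (pact g' C)) * span P) =
      100 * (d * span P) + 100 * (span (pact g' C) * span P) := by ring
    have e2 : 101 * ((c' + span (pact g' P)) * span C) =
      101 * (c' * span C) + 101 * (span (pact g' P) * span C) := by ring
    rw [e1, e2]
    linarith

end Pool.Agent.Helper21.HN
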