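import Pool.Agent.Helper21.HN.St

/-!
# MP_10ef18_an, project HN, module TRB: transport of a way to a pair outside
-/

set_option autoImplicit false

namespace Pool.Agent.Helper21.HN

open Set MeasureTheory Pool.Agent.Helper82.HG Pool.Agent.Helper82.HC

private lemma span_pos_TRB {Λ : Set ℝ} {P : PG} (hP : IsPair Λ P) : 0 < span P := by
  obtain ⟨h1, h2, h3, _⟩ := hP
  have e1 := h1.1
  have e2 := h2.1
  unfold span
  linarith

theorem tTRB : StBAS → StACT → StWAY → StNEA → StTRB := by
  intro _ hACT hWAY hNEA K S Λ hK hG hL P R g c hP hR hl hr hw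
  have hW := (hWAY K S Λ hG hL P hP).1
  have hsP := span_pos_TRB hP
  have hsR := span_pos_TRB hR
  have hK0 : 0 < K := by linarith
  induction hw with
  | nil =>
    intro _
    exact ⟨0, Way.nil, by simp⟩
  | tr m hw ih =>
    intro hc
    obtain ⟨c', hw', hle⟩ := ih hc
    exact ⟨c', Way.tr m hw', hle⟩
  | @step g c s hs hw ih =>
    intro hc
    have hg : g ∈ Gr S := (hW g c hw).1
    obtain ⟨hpP, _, hspP, _, _⟩ := hACT K S Λ hG hL g hg P hP
    have hsg := span_pos_TRB hpP
    have hc1 : 400 * K * (101 * (c * span R)) ≤ 100 * span P := by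
      refine le_trans ?_ hc
      have : c * span R ≤ (c + span (pact g P)) * span R := by
        have := mul_pos hsg hsR
        nlinarith
      have h4 : 0 ≤ 400 * K * 101 := by positivity
      nlinarith [mul_le_mul_of_nonneg_left this h4]
    obtain ⟨c₁, hw₁, hle⟩ := ih hc1
    have hc2 : 400 * K * c₁ ≤ 1 := by
      have h5 : (400 * K * c₁) * (100 * span P) ≤ 1 * (100 * span P) := by
        have h6 : 400 * K * (100 * (c₁ * span P)) ≤ 400 * K * (101 * (c * span R)) :=
          mul_le_mul_of_nonneg_left hle (by positivity)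
        calc (400 * K * c₁) * (100 * span P) = 400 * K * (100 * (c₁ * span P)) := by ring
          _ ≤ 400 * K * (101 * (c * span R)) := h6
          _ ≤ 100 * span P := hc1
          _ = 1 * (100 * span P) := by ring
      exact le_of_mul_le_mul_right h5 (by positivity)
    have hPI : P.1.1 ≤ P.2.2 := by
      unfold span at hsP
      linarith
    have h7 := (hNEA K S Λ hK hG hL R g c₁ hR hw₁ hc2 P.1.1 ⟨hl, le_trans hPI hr⟩ P.2.2
      ⟨le_trans hl hPI, hr⟩).2
    have e1 : |P.1.1 - P.2.2| = span P := by
      rw [abs_sub_comm, abs_of_nonneg (by linarith)]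
      rfl
    have e2 : |g P.1.1 - g P.2.2| = span (pact g P) := by
      rw [abs_sub_comm, hspP]
    rw [e1, e2] at h7
    refine ⟨c₁ + span (pact g R), Way.step s hs hw₁, ?_⟩
    nlinarith

end Pool.Agent.Helper21.HN
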