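import Pool.Agent.Helper21.HN.St

/-!
# MP_10ef18_an (Hector), project HN, module WAY: calculus of ways
-/

set_option autoImplicit false

namespace Pool.Agent.Helper21.HN

open Set MeasureTheory Pool.Agent.Helper82.HG Pool.Agent.Helper82.HC

private lemma T_mem_WAY (S : Set (Equiv.Perm ℝ)) : T ∈ Gr S :=
  Subgroup.subset_closure (Set.mem_insert _ _)

private lemma S_mem_WAY {S : Set (Equiv.Perm ℝ)} {s : Equiv.Perm ℝ} (hs : s ∈ S) : s ∈ Gr S :=
  Subgroup.subset_closure (Set.mem_insert_of_mem _ hs)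

private lemma mem_WAY {S : Set (Equiv.Perm ℝ)} {P : PG} {g : Equiv.Perm ℝ} {c : ℝ}
    (h : Way S P g c) : g ∈ Gr S := by
  induction h with
  | nil => exact one_mem _
  | tr m _ ih => exact mul_mem (zpow_mem (T_mem_WAY S) m) ih
  | step s hs _ ih => exact mul_mem (S_mem_WAY hs) ih

private lemma pth_WAY {S : Set (Equiv.Perm ℝ)} {P : PG}
    (hsp : ∀ g ∈ Gr S, span (pact g P) = |g P.2.2 - g P.1.1|)
    {g : Equiv.Perm ℝ} {c : ℝ} (h : Way S P g c) :
    0 ≤ c ∧ ∃ l, Pth S (P.1.1, P.2.2) g l ∧ cost l = c := by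
  induction h with
  | nil => exact ⟨le_refl _, [], Pth.nil, by simp [cost]⟩
  | tr m _ ih =>
    obtain ⟨h0, l, hl, hc⟩ := ih
    exact ⟨h0, l, Pth.tr m hl, hc⟩
  | @step g' c' s hs hw ih =>
    obtain ⟨h0, l, hl, hc⟩ := ih
    have hg' := hsp g' (mem_WAY hw)
    refine ⟨?_, _, Pth.step s hs hl, ?_⟩
    · rw [hg']
      positivity
    · have e1 : cost (act g' (P.1.1, P.2.2) :: l) = len (act g' (P.1.1, P.2.2)) + cost l := by
        simp [cost]
      have e2 : len (act g' (P.1.1, P.2.2)) = |g' P.2.2 - g' P.1.1| := by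
        simp only [len, act]
        exact abs_sub_comm _ _
      rw [e1, e2, hc, hg']
      ring

private lemma comp_WAY {S : Set (Equiv.Perm ℝ)} {P : PG}
    (hmul : ∀ g ∈ Gr S, ∀ h ∈ Gr S, pact (g * h) P = pact g (pact h P))
    {g : Equiv.Perm ℝ} {c : ℝ} (hw : Way S P g c) {h : Equiv.Perm ℝ} {c' : ℝ}
    (hh : Way S (pact g P) h c') : Way S P (h * g) (c + c') := by
  induction hh with
  | nil => simpa using hw
  | @tr h' c'' m _ ih =>
    rw [mul_assoc]
    exact Way.tr m ih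
  | @step h' c'' s hs hw' ih =>
    have e : c + (c'' + span (pact h' (pact g P))) = (c + c'') + span (pact (h' * g) P) := by
      rw [hmul h' (mem_WAY hw') g (mem_WAY hw)]
      ring
    rw [mul_assoc, e]
    exact Way.step s hs ih

private lemma all_WAY {K : ℝ} {S : Set (Equiv.Perm ℝ)} (hG : Gens K S) (P : PG)
    {g : Equiv.Perm ℝ} (hg : g ∈ Gr S) : ∃ c, Way S P g c := by
  unfold Gr at hg
  induction hg using Subgroup.closure_induction_left with
  | one => exact ⟨0, Way.nil⟩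
  | mul_left x hx y _ ih =>
    obtain ⟨c, hc⟩ := ih
    rcases Set.mem_insert_iff.1 hx with rfl | hx
    · exact ⟨c, by simpa using Way.tr 1 hc⟩
    · exact ⟨_, Way.step x hx hc⟩
  | inv_mul_cancel x hx y _ ih =>
    obtain ⟨c, hc⟩ := ih
    rcases Set.mem_insert_iff.1 hx with rfl | hx
    · exact ⟨c, by simpa using Way.tr (-1) hc⟩
    · exact ⟨_, Way.step x⁻¹ (hG.inv x hx) hc⟩

theorem tWAY : StACT → StPAC → StWAY := by
  intro hACT hPAC K S Λ hG hL P hP
  obtain ⟨pone, pmul, psh, -, -, -, -⟩ := hPAC K S Λ hG hL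
  have comp : ∀ (Q : PG), IsPair Λ Q → ∀ g c h c', Way S Q g c → Way S (pact g Q) h c' →
      Way S Q (h * g) (c + c') := by
    intro Q hQ g c h c' h1 h2
    exact comp_WAY (fun g hg h hh => pmul g hg h hh Q hQ) h1 h2
  have hpair : ∀ g ∈ Gr S, IsPair Λ (pact g P) := fun g hg => (hACT K S Λ hG hL g hg P hP).1
  have hsp : ∀ g ∈ Gr S, span (pact g P) = |g P.2.2 - g P.1.1| :=
    fun g hg => (hACT K S Λ hG hL g hg P hP).2.2.1
  refine ⟨?_, comp P hP, ?_, fun g hg => all_WAY hG P hg⟩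
  · intro g c h
    obtain ⟨h0, h1⟩ := pth_WAY hsp h
    exact ⟨mem_WAY h, h0, h1⟩
  · intro g c h
    induction h with
    | nil =>
      refine ⟨0, ?_, ?_⟩
      · rw [hsp 1 (one_mem _)]
        positivity
      · rw [inv_one]
        exact Way.nil
    | @tr g' c' m hw ih =>
      obtain ⟨d, hd, hwd⟩ := ih
      have hg' := mem_WAY hw
      have hTm : ∀ k : ℤ, T ^ k ∈ Gr S := fun k => zpow_mem (T_mem_WAY S) k
      have hTg : T ^ m * g' ∈ Gr S := mul_mem (hTm m) hg'
      have e1 : pact (T ^ (-m)) (pact (T ^ m * g') P) = pact g' P := by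
        rw [← pmul _ (hTm (-m)) _ hTg P hP]
        congr 1
        rw [← mul_assoc, zpow_neg, inv_mul_cancel, one_mul]
      have e2 : span (pact (T ^ m * g') P) = span (pact g' P) := by
        rw [pmul _ (hTm m) _ hg' P hP, (psh m _ (hpair g' hg')).1]
        simp only [span, sh]
        ring
      refine ⟨d, by rw [e2]; exact hd, ?_⟩
      have h1 : Way S (pact (T ^ m * g') P) (T ^ (-m) * 1) 0 := Way.tr (-m) Way.nil
      rw [mul_one] at h1
      have h2 := comp _ (hpair _ hTg) _ _ _ _ h1 (by rw [e1]; exact hwd)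
      have e3 : (T ^ m * g')⁻¹ = g'⁻¹ * T ^ (-m) := by
        rw [mul_inv_rev, zpow_neg]
      rw [e3]
      simpa using h2
    | @step g' c' s hs hw ih =>
      obtain ⟨d, hd, hwd⟩ := ih
      have hg' := mem_WAY hw
      have hsi : s⁻¹ ∈ S := hG.inv s hs
      have hsg : s * g' ∈ Gr S := mul_mem (S_mem_WAY hs) hg'
      have e1 : pact s⁻¹ (pact (s * g') P) = pact g' P := by
        rw [← pmul _ (S_mem_WAY hsi) _ hsg P hP]
        congr 1
        rw [← mul_assoc, inv_mul_cancel, one_mul]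
      have h1 : Way S (pact (s * g') P) (s⁻¹ * 1) (0 + span (pact 1 (pact (s * g') P))) :=
        Way.step s⁻¹ hsi Way.nil
      rw [mul_one, pone _ (hpair _ hsg), zero_add] at h1
      have h2 := comp _ (hpair _ hsg) _ _ _ _ h1 (by rw [e1]; exact hwd)
      refine ⟨span (pact (s * g') P) + d, by linarith, ?_⟩
      have e3 : (s * g')⁻¹ = g'⁻¹ * s⁻¹ := by rw [mul_inv_rev]
      rw [e3]
      exact h2

end Pool.Agent.Helper21.HN
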