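import Pool.Agent.Helper21.HN.St

/-! Project HN, module WTC: weights and distances along a way. -/

set_option autoImplicit false

namespace Pool.Agent.Helper21.HN

open Set MeasureTheory Pool.Agent.Helper82.HG Pool.Agent.Helper82.HC

/-- division of an inequality by a positive number, on both sides -/
private theorem div_WTC {A s t B w : ℝ} (hw : 0 < w) (h1 : 100 * (A * s) ≤ 101 * (t * B))
    (h2 : 100 * (t * B) ≤ 101 * (A * s)) :
    100 * (A / w * s) ≤ 101 * (t * (B / w)) ∧ 100 * (t * (B / w)) ≤ 101 * (A / w * s) := by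
  have e1 : A / w * s = A * s * w⁻¹ := by rw [div_eq_mul_inv]; ring
  have e2 : t * (B / w) = t * B * w⁻¹ := by rw [div_eq_mul_inv]; ring
  have hi : 0 ≤ w⁻¹ := (inv_pos.2 hw).le
  rw [e1, e2]
  have m1 := mul_le_mul_of_nonneg_right h1 hi
  have m2 := mul_le_mul_of_nonneg_right h2 hi
  constructor
  · linarith
  · linarith

/-- inequalities for the minimum of two numbers -/
private theorem min_WTC {a b a' b' s t : ℝ} (hs : 0 ≤ s) (ht : 0 ≤ t)
    (h1 : 100 * (a' * s) ≤ 101 * (t * a)) (h2 : 100 * (b' * s) ≤ 101 * (t * b))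
    (k1 : 100 * (t * a) ≤ 101 * (a' * s)) (k2 : 100 * (t * b) ≤ 101 * (b' * s)) :
    100 * (min a' b' * s) ≤ 101 * (t * min a b) ∧
      100 * (t * min a b) ≤ 101 * (min a' b' * s) := by
  rcases min_choice a b with h | h <;> rcases min_choice a' b' with k | k
  · rw [h, k]; exact ⟨h1, k1⟩
  · rw [h, k]
    have x1 : b' ≤ a' := by rw [← k]; exact min_le_left _ _
    have x2 : a ≤ b := by rw [← h]; exact min_le_right _ _
    have y1 := mul_le_mul_of_nonneg_right x1 hs
    have y2 := mul_le_mul_of_nonneg_left x2 ht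
    exact ⟨by linarith, by linarith⟩
  · rw [h, k]
    have x1 : a' ≤ b' := by rw [← k]; exact min_le_right _ _
    have x2 : b ≤ a := by rw [← h]; exact min_le_left _ _
    have y1 := mul_le_mul_of_nonneg_right x1 hs
    have y2 := mul_le_mul_of_nonneg_left x2 ht
    exact ⟨by linarith, by linarith⟩
  · rw [h, k]; exact ⟨h2, k2⟩

theorem tWTC : StLAM → StWGT → StACT → StNEA → StWAY → StWTC := by
  intro _ hWGT hACT hNEA hWAY K S Λ hK hG hL
  have wgt := hWGT K S Λ hG hL
  have wpos : ∀ u : ℝ × ℝ, Gap Λ u.1 u.2 → 0 < wt S u ∧ wt S u ≤ 1 := by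
    intro u hu
    obtain ⟨w0, -, w2, -, -⟩ := wgt u hu
    have h1 : u.1 < u.2 := hu.1
    unfold wt
    exact ⟨div_pos (by linarith) w0, (div_le_one w0).2 w2⟩
  refine ⟨?_, ?_⟩
  · intro P hP
    obtain ⟨a1, a2⟩ := wpos P.1 hP.1
    obtain ⟨b1, b2⟩ := wpos P.2 hP.2.1
    exact ⟨lt_min a1 b1, (min_le_left _ _).trans a2⟩
  · intro P g c hP hw hc
    obtain ⟨hgG, -, -⟩ := (hWAY K S Λ hG hL P hP).1 g c hw
    obtain ⟨hQ, hQ12, -, hmid, -⟩ := hACT K S Λ hG hL g hgG P hP
    have nea := hNEA K S Λ hK hG hL P g c hP hw hc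
    have p1 : P.1.1 < P.1.2 := hP.1.1
    have p2 : P.2.1 < P.2.2 := hP.2.1.1
    have p3 : P.1.2 ≤ P.2.1 := hP.2.2.1
    have q1 : (pact g P).1.1 < (pact g P).1.2 := hQ.1.1
    have q2 : (pact g P).2.1 < (pact g P).2.2 := hQ.2.1.1
    have q3 : (pact g P).1.2 ≤ (pact g P).2.1 := hQ.2.2.1
    have s0 : 0 ≤ span P := by unfold span; linarith
    have t0 : 0 ≤ span (pact g P) := by unfold span; linarith
    have hV : ∀ V : ℝ × ℝ, Gap Λ V.1 V.2 → P.1.1 ≤ V.1 → V.2 ≤ P.2.2 →
        100 * (wt S (sact g V) * span P) ≤ 101 * (span (pact g P) * wt S V) ∧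
        100 * (span (pact g P) * wt S V) ≤ 101 * (wt S (sact g V) * span P) := by
      intro V hVg hV1 hV2
      obtain ⟨w0, -, -, w3, -⟩ := wgt V hVg
      have hlt : V.1 < V.2 := hVg.1
      obtain ⟨m1, m2⟩ := nea V.2 ⟨by linarith, hV2⟩ V.1 ⟨hV1, by linarith⟩
      have e1 : wt S (sact g V) = |g V.2 - g V.1| / W S V := by
        have e2 : (sact g V).2 - (sact g V).1 = |g V.2 - g V.1| := by
          show max (g V.1) (g V.2) - min (g V.1) (g V.2) = |g V.2 - g V.1|
          exact max_sub_min_eq_abs _ _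
        unfold wt
        rw [w3 g hgG, e2]
      have e3 : wt S V = |V.2 - V.1| / W S V := by
        unfold wt
        rw [abs_of_pos (by linarith)]
      rw [e1, e3]
      exact div_WTC w0 m1 m2
    refine ⟨?_, ?_, hV, ?_⟩
    · obtain ⟨m1, -⟩ := nea P.2.1 ⟨by linarith, by linarith⟩ P.1.2 ⟨by linarith, by linarith⟩
      rw [hmid]
      rwa [abs_of_nonneg (by linarith : 0 ≤ P.2.1 - P.1.2)] at m1
    · obtain ⟨-, m2⟩ := nea P.2.1 ⟨by linarith, by linarith⟩ P.1.2 ⟨by linarith, by linarith⟩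
      rw [hmid]
      rwa [abs_of_nonneg (by linarith : 0 ≤ P.2.1 - P.1.2)] at m2
    · obtain ⟨h1, k1⟩ := hV P.1 hP.1 le_rfl (by linarith)
      obtain ⟨h2, k2⟩ := hV P.2 hP.2.1 (by linarith) le_rfl
      have e : mu S (pact g P) = min (wt S (sact g P.1)) (wt S (sact g P.2)) := by
        unfold mu
        rcases hQ12 with ⟨x1, x2⟩ | ⟨x1, x2⟩
        · rw [x1, x2]
        · rw [x1, x2, min_comm]
      rw [e]
      exact min_WTC s0 t0 h1 h2 k1 k2

end Pool.Agent.Helper21.HN
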