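import Pool.Agent.Helper21.HN.Defs

/-!
# MP_10ef18_an (Hector), project HN: statements of the modules, first part (tools)

Each `StXX : Prop` is proved in the module `Pool/Agent/Helper21/HN/M_XX.lean` as `theorem tXX : StXX`
(or `theorem tXX : StYY → StXX`, see the docstring; more hypotheses than listed are not allowed, fewer
are fine). `StBAS`, `StLAM`, `StCTL`, `StSEP` (of `Helper82.HG`), `StWGT`, `StACT`, `StFAR`, `StFIN`
(of `Helper82.HC`) are proved already (`Pool.Agent.Helper82.HG.tBAS` in `HG/M_BAS.lean`, and so on);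
they are taken as hypotheses here, so that a module imports only this file.
Note: `StSEP`, `StSUM`, `StMIN` exist in both namespaces; in this file `HG.StSEP` is the separation
of gaps.
-/

set_option autoImplicit false

namespace Pool.Agent.Helper21.HN

open Set MeasureTheory Pool.Agent.Helper82.HG Pool.Agent.Helper82.HC

/-- MODULE PAC (`theorem tPAC : StBAS → StACT → StPAC`). Algebra of `pact`.
PROOF. See the private lemmas of `Helper82/HC/M_STP.lean` (`pact_mono_STP`, `pact_anti_STP`,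
`pact_mul_STP`, `pact_sh_STP`, `int_STP`; they may be copied). Elements of the group are strictly
monotone or antitone; in the monotone case `pact g P = ((g c, g a), (g b, g d))`, in the antitone case
`((g d, g b), (g a, g c))`. `core`: a monotone (antitone) bijection maps `Ioo` onto `Ioo`. `Nst`: the
inequalities by monotonicity, `≠` because `pact g⁻¹ (pact g P) = P`. -/
def StPAC : Prop :=
  ∀ (K : ℝ) (S : Set (Equiv.Perm ℝ)) (Λ : Set ℝ), Gens K S → Lam S Λ →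
    (∀ P : PG, IsPair Λ P → pact 1 P = P) ∧
    (∀ g ∈ Gr S, ∀ h ∈ Gr S, ∀ P : PG, IsPair Λ P → pact (g * h) P = pact g (pact h P)) ∧
    (∀ (m : ℤ) (P : PG), IsPair Λ P → pact (T ^ m) P = sh m P ∧ IsPair Λ (sh m P)) ∧
    (∀ g ∈ Gr S, ∀ P : PG, IsPair Λ P → core (pact g P) = ⇑g '' core P) ∧
    (∀ g ∈ Gr S, ∀ P Q : PG, IsPair Λ P → IsPair Λ Q → Nst P Q → Nst (pact g P) (pact g Q)) ∧
    (∀ g ∈ Gr S, ∀ m : ℤ, ∃ m' : ℤ, ∀ P : PG, IsPair Λ P → pact g (sh m P) = sh m' (pact g P)) ∧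
    (∀ m : ℤ, T ^ m ∈ Gr S)

/-- MODULE GEO (`theorem tGEO : StLAM → StGEO`). Elementary geometry of pairs of gaps.
PROOF. StLAM (h): two different gaps `(a,b)`, `(a',b')` satisfy `b < a'` or `b' < a`. So a gap is
determined by its left (right) end point, and `P.1.2 < P.2.1` for a pair of gaps. (2): if
`R.1.2 = Q.1.2` the gaps `R.1`, `Q.1` agree, otherwise `R.1.2 < Q.1.2` and (5) gives
`R.1.1 < R.1.2 < Q.1.1`. -/
def StGEO : Prop :=
  ∀ (K : ℝ) (S : Set (Equiv.Perm ℝ)) (Λ : Set ℝ), Gens K S → Lam S Λ →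
    (∀ P : PG, IsPair Λ P → 0 < mid P ∧ mid P < span P ∧ span P < 1) ∧
    (∀ Q R : PG, IsPair Λ Q → IsPair Λ R → Nst Q R →
      R.1.1 ≤ Q.1.1 ∧ Q.2.2 ≤ R.2.2 ∧ mid Q < mid R ∧ span Q ≤ span R) ∧
    (∀ Q R : PG, IsPair Λ Q → IsPair Λ R → Q.1.2 = R.1.2 → Q.2.1 = R.2.1 → Q = R) ∧
    (∀ Q R X : PG, IsPair Λ Q → IsPair Λ R → IsPair Λ X → Nst Q R → Nst R X → Nst Q X) ∧
    (∀ Q R : PG, IsPair Λ Q → IsPair Λ R → R.1.2 < Q.1.2 → R.1.2 < Q.1.1) ∧
    (∀ Q R : PG, IsPair Λ Q → IsPair Λ R → Q.2.1 < R.2.1 → Q.2.2 < R.2.1)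

/-- MODULE WAY (`theorem tWAY : StACT → StPAC → StWAY`). Calculus of ways.
PROOF. (1) induction on the way; `span (pact g P) = |g P.2.2 - g P.1.1| = len (act g (P.1.1, P.2.2))`
by StACT; the list of the path is the list of visited hulls. (2) induction on the second way.
(3) induction on the first way, with the statement for all: `nil`: `Way (pact 1 P) 1 0`; `tr m`: the
reversed way starts with the translation `T^(-m)`, which is free (a way from `pact (T^m * g) P` for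
`T^(-m)` of cost `0`, then (2) with the reversed way from `pact g P`); `step s`: from `pact (s*g) P`
one step `s⁻¹` of cost `span (pact (s*g) P)`, then (2) with the reversed way from `pact g P`, whose cost
is at most `c + span (pact g P)`. (4) `Subgroup.closure_induction_left`, `S` is closed under inverses. -/
def StWAY : Prop :=
  ∀ (K : ℝ) (S : Set (Equiv.Perm ℝ)) (Λ : Set ℝ), Gens K S → Lam S Λ →
    ∀ P : PG, IsPair Λ P →
      (∀ g c, Way S P g c → g ∈ Gr S ∧ 0 ≤ c ∧ ∃ l, Pth S (P.1.1, P.2.2) g l ∧ cost l = c) ∧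
      (∀ g c h c', Way S P g c → Way S (pact g P) h c' → Way S P (h * g) (c + c')) ∧
      (∀ g c, Way S P g c → ∃ c', c' ≤ c + span (pact g P) ∧ Way S (pact g P) g⁻¹ c') ∧
      (∀ g ∈ Gr S, ∃ c, Way S P g c)

/-- MODULE NEA (`theorem tNEA : StBAS → StACT → StCTL → StWAY → StNEA`). Almost affine control.
PROOF. WAY (1) gives a path from `v = (P.1.1, P.2.2)` of cost `c`, `len v = span P`. StCTL with `ρ = 0`
(`4 K c ≤ 1`): `|log|g' y| - log|g' z|| ≤ 2 K c |y - z| / span P ≤ 2 K c ≤ 1/200` on the hull. Mean value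
theorem for `y, z` and for the end points of the hull: the two difference quotients are values of
`|g'|`, so their ratio is at most `exp (1/200) ≤ 101/100`. -/
def StNEA : Prop :=
  ∀ (K : ℝ) (S : Set (Equiv.Perm ℝ)) (Λ : Set ℝ), 1 ≤ K → Gens K S → Lam S Λ →
    ∀ (P : PG) (g : Equiv.Perm ℝ) (c : ℝ), IsPair Λ P → Way S P g c → 400 * K * c ≤ 1 →
    ∀ y ∈ Icc P.1.1 P.2.2, ∀ z ∈ Icc P.1.1 P.2.2,
      100 * (|g y - g z| * span P) ≤ 101 * (span (pact g P) * |y - z|) ∧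
      100 * (span (pact g P) * |y - z|) ≤ 101 * (|g y - g z| * span P)

/-- MODULE WTC (`theorem tWTC : StLAM → StWGT → StACT → StNEA → StWAY → StWTC`). Weights and distances
along a way.
PROOF. StNEA with `y, z` the end points of the core (`mid (pact g P) = |g P.2.1 - g P.1.2|` by StACT) and
of the gap `V` (`(sact g V).2 - (sact g V).1 = |g V.1 - g V.2|`, `W S (sact g V) = W S V > 0` by StWGT).
The components of `pact g P` are `sact g P.1`, `sact g P.2` in some order (StACT), so the claim for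
`mu` follows. Positivity and `≤ 1` from StWGT. -/
def StWTC : Prop :=
  ∀ (K : ℝ) (S : Set (Equiv.Perm ℝ)) (Λ : Set ℝ), 1 ≤ K → Gens K S → Lam S Λ →
    (∀ P : PG, IsPair Λ P → 0 < mu S P ∧ mu S P ≤ 1) ∧
    ∀ (P : PG) (g : Equiv.Perm ℝ) (c : ℝ), IsPair Λ P → Way S P g c → 400 * K * c ≤ 1 →
      100 * (mid (pact g P) * span P) ≤ 101 * (span (pact g P) * mid P) ∧
      100 * (span (pact g P) * mid P) ≤ 101 * (mid (pact g P) * span P) ∧
      (∀ V : ℝ × ℝ, Gap Λ V.1 V.2 → P.1.1 ≤ V.1 → V.2 ≤ P.2.2 →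
        100 * (wt S (sact g V) * span P) ≤ 101 * (span (pact g P) * wt S V) ∧
        100 * (span (pact g P) * wt S V) ≤ 101 * (wt S (sact g V) * span P)) ∧
      100 * (mu S (pact g P) * span P) ≤ 101 * (span (pact g P) * mu S P) ∧
      100 * (span (pact g P) * mu S P) ≤ 101 * (mu S (pact g P) * span P)

/-- MODULE TRA (`theorem tTRA : StBAS → StACT → StWAY → StNEA → StTRA`). Transport of a way to a pair
inside.
PROOF. Induction on the way (the hypothesis `400 K c ≤ 1` passes to the shorter way because spans are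
nonnegative). `nil`, `tr`: same cost. `step s`: the way for `g` from `C` of cost `c₁'`, then
`c' = c₁' + span (pact g C)` and `span (pact g C) = |g C.2.2 - g C.1.1|`, StNEA for `P, g` with these two
points of the hull of `P`: `100 span (pact g C) span P ≤ 101 span (pact g P) span C`. -/
def StTRA : Prop :=
  ∀ (K : ℝ) (S : Set (Equiv.Perm ℝ)) (Λ : Set ℝ), 1 ≤ K → Gens K S → Lam S Λ →
    ∀ (P C : PG) (g : Equiv.Perm ℝ) (c : ℝ), IsPair Λ P → IsPair Λ C → P.1.1 ≤ C.1.1 →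
      C.2.2 ≤ P.2.2 → Way S P g c → 400 * K * c ≤ 1 →
      ∃ c', Way S C g c' ∧ 100 * (c' * span P) ≤ 101 * (c * span C)

/-- MODULE TRB (`theorem tTRB : StBAS → StACT → StWAY → StNEA → StTRB`). Transport of a way to a pair
outside.
PROOF. Induction on the way. `step s`: the hypothesis passes to the shorter way; it gives `c₁'` with
`100 c₁' span P ≤ 101 c₁ span R`, hence `400 K c₁' ≤ 1`, and StNEA for `R, g` with the end points of the
hull of `P`: `100 span (pact g R) span P ≤ 101 |g P.2.2 - g P.1.1| span R = 101 span (pact g P) span R`. -/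
def StTRB : Prop :=
  ∀ (K : ℝ) (S : Set (Equiv.Perm ℝ)) (Λ : Set ℝ), 1 ≤ K → Gens K S → Lam S Λ →
    ∀ (P R : PG) (g : Equiv.Perm ℝ) (c : ℝ), IsPair Λ P → IsPair Λ R → R.1.1 ≤ P.1.1 →
      P.2.2 ≤ R.2.2 → Way S P g c → 400 * K * (101 * (c * span R)) ≤ 100 * span P →
      ∃ c', Way S R g c' ∧ 100 * (c' * span P) ≤ 101 * (c * span R)

/-- MODULE CST (`theorem tCST : StBAS → StACT → StPAC → StWAY → StCST`). The cost of a state.
PROOF. The set in the definition of `cst` is nonempty for a state (WAY (4)) and bounded below by 0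
(WAY (1)): (1), (2) (`csInf_lt_iff`). `Way.nil` gives `cst P P = 0`. A way to `Q` followed by a
translation has the same cost (`pact (T^m * g) P = sh m (pact g P)`), both directions. A way to `Q` of
cost `c` (word `g`) followed by `s` costs `c + span (pact g P) = c + span Q` (infimum over `c`).
Last claim: `Q = pact g P`, induction on `g` (`Subgroup.closure_induction_left`; `T⁻¹` is the
translation by `-1`; `s⁻¹ ∈ S`). -/
def StCST : Prop :=
  ∀ (K : ℝ) (S : Set (Equiv.Perm ℝ)) (Λ : Set ℝ), Gens K S → Lam S Λ →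
    ∀ P : PG, IsPair Λ P →
      (∀ Q, Sta S P Q → IsPair Λ Q ∧ 0 ≤ cst S P Q) ∧
      (∀ Q t, Sta S P Q → (cst S P Q < t ↔ ∃ g c, Way S P g c ∧ c < t ∧ Q = pact g P)) ∧
      (Sta S P P ∧ cst S P P = 0) ∧
      (∀ Q (m : ℤ), Sta S P Q → Sta S P (sh m Q) ∧ cst S P (sh m Q) = cst S P Q) ∧
      (∀ Q g, Sta S P Q → g ∈ Gr S → Sta S P (pact g Q)) ∧
      (∀ Q s, Sta S P Q → s ∈ S → cst S P (pact s Q) ≤ cst S P Q + span Q) ∧
      (∀ p : PG → Prop, p P → (∀ Q, Sta S P Q → p Q → ∀ s ∈ S, p (pact s Q)) →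
        (∀ Q, Sta S P Q → p Q → ∀ m : ℤ, p (sh m Q)) → ∀ Q, Sta S P Q → p Q)

/-- MODULE COV (`theorem tCOV : StCOV`). A covering lemma.
PROOF. The compact interval `[α, β - (β - α)/4]` is covered by the open intervals
`(b x - l x / 8, b x + l x)`, `x ∈ X` (if `b x ≤ t < b x + l x` then `0 < l x`). Take a finite subcover
`s`; its total length `(3/4)(β - α) ≤ ∑ (9/8) l x` (volume, `measure_biUnion_finset_le`). -/
def StCOV : Prop :=
  ∀ (ι : Type) (X : Set ι) (b l : ι → ℝ) (α β : ℝ), α ≤ β → (∀ x ∈ X, 0 ≤ l x) →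
    (∀ t, α ≤ t → t < β → ∃ x ∈ X, b x ≤ t ∧ t < b x + l x) →
    ∃ s : Finset ι, (∀ x ∈ s, x ∈ X) ∧ β - α ≤ 2 * ∑ x ∈ s, l x

/-- MODULE PER (`theorem tPER : StPER`). Disjoint sets modulo `1`.
PROOF. `volume (U i) = ∑_{m ∈ ℤ} volume (U i ∩ Ico m (m+1)) = ∑_m volume ((U i - m) ∩ Ico 0 1)`. The sets
`(U i - m) ∩ Ico 0 1` (`i ∈ s`, `m ∈ ℤ`) are pairwise disjoint, measurable, contained in `N ∩ Icc 0 1`
(`N` is periodic), which has finite measure `≤ 1`. So `∑_i volume (U i) ≤ volume (N ∩ Icc 0 1)` in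
`ℝ≥0∞`; pass to reals. -/
def StPER : Prop :=
  ∀ (N : Set ℝ), MeasurableSet N → (∀ x, x ∈ N ↔ x + 1 ∈ N) →
    ∀ (ι : Type) (s : Finset ι) (U : ι → Set ℝ), (∀ i ∈ s, MeasurableSet (U i) ∧ U i ⊆ N) →
    (∀ i ∈ s, ∀ j ∈ s, ∀ m : ℤ, (i ≠ j ∨ m ≠ 0) → Disjoint (U i) ((fun x : ℝ => x + m) '' U j)) →
    ∑ i ∈ s, (volume (U i)).toReal ≤ (volume (N ∩ Icc (0 : ℝ) 1)).toReal

/-- MODULE TOT (`theorem tTOT : StBAS → StLAM → StWGT → StPER → StTOT`). Total length of an orbit of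
short gaps.
PROOF. Let `s` be as in the definition of `Tot S u Θ`: elements `act g u`, pairwise inequivalent modulo
translation. `N = cthickening h Λ` is closed and periodic. For `w = act g u`, the interval `I w` between
`w.1` and `w.2` is a gap (StLAM (g)), of length `len w ≤ W S u ≤ h`, so `I w ⊆ N`
(`Metric.mem_cthickening_of_dist_le` or `infDist`). Split `s` into the `w` with `w.1 < w.2` and those
with `w.2 < w.1`. In each part the sets `I w` are pairwise disjoint modulo translation: different gaps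
are disjoint, and if `I w = I w' + m` then `Eqv w' w` (same orientation), so `w = w'`; and `I w` and
`I w + m`, `m ≠ 0`, are different gaps. StPER for each part: total length `≤ 2 volume.toReal`. -/
def StTOT : Prop :=
  ∀ (K : ℝ) (S : Set (Equiv.Perm ℝ)) (Λ : Set ℝ), Gens K S → Lam S Λ →
    ∀ (h : ℝ) (u : ℝ × ℝ), 0 < h → Gap Λ u.1 u.2 → W S u ≤ h →
      Tot S u (2 * (volume (Metric.cthickening h Λ ∩ Icc (0 : ℝ) 1)).toReal)

/-- MODULE MIN (`theorem tMIN : StLAM → StWGT → HG.StSEP → StMIN'`). The minimising pair.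
PROOF. Let `Q` be a pair of gaps of `G := Orb2 S P₁.1 P₁.2`. `Q.1.2 < Q.2.1` (StLAM (h)). `HG.StSEP` with
`ρ = 4 (Q.1.2 - Q.1.1)`, `ρ' = 4 (Q.2.2 - Q.2.1)`: `64 K Θ (9 len) ≤ len` as `1024 K Θ ≤ 1`; it gives
`mid Q ≥ min (len Q.1) (len Q.2)`, and `len Q.i = wt Q.i * W Q.i ≥ mu S Q * w₀`,
`w₀ := min (W S P₁.1) (W S P₁.2) > 0` (`W` is invariant). So `log (mid Q) ≥ log (mu S Q) + log w₀` and, as
`0 < mu S Q ≤ 1`, `Psi S Q ≥ log w₀ - (1/10) log (mu S Q) ≥ log w₀`. The set of values `Psi S Q` is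
nonempty (`Q = P₁`) and bounded below; take `P` with value less than the infimum `+ 1/1000`. -/
def StMIN' : Prop :=
  ∀ (K : ℝ) (S : Set (Equiv.Perm ℝ)) (Λ : Set ℝ), 1 ≤ K → Gens K S → Lam S Λ →
    ∀ (Θ : ℝ) (P₁ : PG), IsPair Λ P₁ → 1024 * K * Θ ≤ 1 →
    (∀ u ∈ Orb2 S P₁.1 P₁.2, Tot S u Θ) →
    ∃ P : PG, IsPair Λ P ∧ P.1 ∈ Orb2 S P₁.1 P₁.2 ∧ P.2 ∈ Orb2 S P₁.1 P₁.2 ∧
      ∀ Q : PG, IsPair Λ Q → Q.1 ∈ Orb2 S P₁.1 P₁.2 → Q.2 ∈ Orb2 S P₁.1 P₁.2 →
        Psi S P ≤ Psi S Q + 1 / 1000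

/-- MODULE SML (`theorem tSML : StLAM → StWGT → StACT → StWAY → StWTC → StSML`). The states are small.
PROOF. Let `η = span P₁`. `wt P₁.i ≥ 1/2`, so `mu S P₁ ≥ 1/2` and
`log (mid P) ≤ log (mid P₁) + (11/10) log 2 + 1/1000 + (11/10) log (mu S P)
≤ log η + log (9/4) + log (mu S P)` (`mid P₁ < η`, `log (mu S P) ≤ 0`,
`(11/10) log 2 + 1/1000 ≤ log 2 + 1/9 ≤ log 2 + log (9/8)`), i.e. `mid P ≤ (9/4) η mu S P`. Let
`Q = pact g P`, `λ = span Q / span P`. StWTC: `mu S Q ≥ (100/101) λ mu S P` and `mu S Q ≤ 1`, so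
`λ mu S P ≤ 101/100`, and `mid Q ≤ (101/100) λ mid P ≤ (101/100)² (9/4) η ≤ 3 η`. The gaps `Q.1`, `Q.2` are in
the two orbits, so their lengths are at most `max (W S P₁.1) (W S P₁.2) ≤ 2 η`. Sum: `≤ 7 η`. -/
def StSML : Prop :=
  ∀ (K : ℝ) (S : Set (Equiv.Perm ℝ)) (Λ : Set ℝ), 1 ≤ K → Gens K S → Lam S Λ →
    ∀ P₁ P : PG, IsPair Λ P₁ → W S P₁.1 ≤ 2 * (P₁.1.2 - P₁.1.1) →
    W S P₁.2 ≤ 2 * (P₁.2.2 - P₁.2.1) → IsPair Λ P → P.1 ∈ Orb2 S P₁.1 P₁.2 →
    P.2 ∈ Orb2 S P₁.1 P₁.2 → Psi S P ≤ Psi S P₁ + 1 / 1000 →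
    ∀ g c, Way S P g c → 400 * K * c ≤ 1 → span (pact g P) ≤ 7 * span P₁

/-- MODULE MKB (`theorem tMKB : StLAM → StWGT → StTOT → StMIN' → StSML → StMKB`). A base exists.
PROOF. `G = Orb2 S P₁.1 P₁.2`; `P₁.i ∈ G` (`g = 1`), `G` is invariant (`sact g (sact k u) = sact (g*k) u`)
and consists of gaps (StLAM (g)); for `u ∈ G`, `W S u ∈ {W S P₁.1, W S P₁.2} ≤ 2 span P₁ ≤ h`. StTOT gives
`Tot S u (2 m)`; `1024 K (2 m) ≤ 1024 K L / 100 ≤ 1` (`200 m ≤ L`, `10000 K L ≤ 1`). StMIN' gives `P`. `sml`: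
StSML (`P₁` itself is allowed in the minimising property), `400 K (25 L) ≤ 1`, `7 span P₁ ≤ h`. -/
def StMKB : Prop :=
  ∀ (K : ℝ) (S : Set (Equiv.Perm ℝ)) (Λ : Set ℝ), 1 ≤ K → Gens K S → Lam S Λ →
    ∀ (L h m : ℝ) (P₁ : PG), 0 < L → 10000 * K * L ≤ 1 → 0 < h → 200 * h ≤ L → 200 * m ≤ L →
    m = (volume (Metric.cthickening h Λ ∩ Icc (0 : ℝ) 1)).toReal →
    IsPair Λ P₁ → 7 * span P₁ ≤ h → W S P₁.1 ≤ 2 * (P₁.1.2 - P₁.1.1) →
    W S P₁.2 ≤ 2 * (P₁.2.2 - P₁.2.1) →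
    ∃ (G : Set (ℝ × ℝ)) (P : PG), Bse K S Λ G P L h m

end Pool.Agent.Helper21.HN
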