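import Pool.Agent.Helper21.HN.St

/-!
# MP_10ef18_an (Hector), project HN: statements of the modules, second part

In the whole file `λ_Q := span Q / span P` for a state `Q` of the base `Bse K S Λ G P L h m`. If
`cst S P Q < 25 L` then (StCST (2)) there is a way `Way S P g c` with `c < 25 L`, `Q = pact g P`, and
`400 K c ≤ 1` (`10000 K L ≤ 1`), so StNEA and StWTC apply to it: distances inside the hull of `P`, weights
and `mu` are multiplied by `λ_Q` up to factors `101/100`.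
-/

set_option autoImplicit false

namespace Pool.Agent.Helper21.HN

open Set MeasureTheory Pool.Agent.Helper82.HG Pool.Agent.Helper82.HC

/-- MODULE INN (`theorem tINN : StLAM → StGEO → StWTC → StINN`). Gaps of `G` inside the core of `P` are
light.
PROOF. Let `V ∈ G` be inside the core and suppose `5 mu S P < 9 wt S V`. `Q₁ = (P.1, V)` and
`Q₂ = (V, P.2)` are pairs of gaps of `G`, with `mid Q₁ + mid Q₂ < mid P` (`mid Q₁ = V.1 - P.1.2`,
`mid Q₂ = P.2.1 - V.2`), and `mu S Qᵢ ≥ min (mu S P) (wt S V) ≥ (5/9) mu S P`. `psi`: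
`log (mid P) - (11/10) log (mu S P) ≤ log (mid Qᵢ) - (11/10) log ((5/9) mu S P) + 1/1000`, so
`log (mid Qᵢ) ≥ log (mid P) - (11/10) log (9/5) - 1/1000 ≥ log (mid P) - log 2`, because
`log (9/5) = log 2 + log (9/10) ≤ log 2 - 1/10` and `(11/10) (log 2 - 1/10) + 1/1000 ≤ log 2`. So
`mid Qᵢ ≥ mid P / 2` for both, a contradiction. -/
def StINN : Prop :=
  ∀ (K : ℝ) (S : Set (Equiv.Perm ℝ)) (Λ : Set ℝ) (G : Set (ℝ × ℝ)) (P : PG) (L h m : ℝ),
    Bse K S Λ G P L h m → ∀ V ∈ G, P.1.2 < V.1 → V.2 < P.2.1 → 9 * wt S V ≤ 5 * mu S P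

/-- MODULE INQ (`theorem tINQ : StBAS → StLAM → StPAC → StWAY → StWTC → StCST → StINN → StINQ`).
The same for all states.
PROOF. `Q = pact g P`, `Way S P g c`, `c < 25 L`. `V' := sact g⁻¹ V ∈ G`; `core Q = g '' core P` contains
the closed interval `[V.1, V.2]`, so `P.1.2 < V'.1`, `V'.2 < P.2.1`, and `sact g V' = V`. StINN and StWTC:
`wt V ≤ (101/100) λ wt V' ≤ (101/100) (5/9) λ mu P ≤ (101/100)² (5/9) mu Q ≤ (3/5) mu Q`, `λ = λ_Q`. -/
def StINQ : Prop :=
  ∀ (K : ℝ) (S : Set (Equiv.Perm ℝ)) (Λ : Set ℝ) (G : Set (ℝ × ℝ)) (P : PG) (L h m : ℝ),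
    Bse K S Λ G P L h m → ∀ Q, Sta S P Q → cst S P Q < 25 * L →
      ∀ V ∈ G, Q.1.2 < V.1 → V.2 < Q.2.1 → 5 * wt S V ≤ 3 * mu S Q

/-- MODULE LMN (`theorem tLMN : StLAM → StACT → StGEO → StWAY → StWTC → StCST → StINQ → StLMN`).
Laminarity.
PROOF. The gaps `Q.1, Q.2, R.1, R.2` are in `G` (StACT, `gact`). Let the cores meet: `Q.1.2 < R.2.1` and
`R.1.2 < Q.2.1`. If `R.1.2 < Q.1.2` then `R.1.2 < Q.1.1` (StGEO (5)), so the gap `Q.1` is strictly inside
the core of `R`; if `R.1.2 = Q.1.2` nothing; same on the other side with StGEO (6). If `R.1.2 < Q.1.2`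
and `R.2.1 < Q.2.1` (crossing) then `Q.1` is inside the core of `R` and `R.2` inside the core of `Q`
(`R.2.1 > Q.1.2`), so StINQ gives `5 mu Q ≤ 5 wt Q.1 ≤ 3 mu R ≤ 3 wt R.2` and `5 wt R.2 ≤ 3 mu Q`:
contradiction with `mu > 0`. Symmetric crossing: same. Otherwise `Q = R` or nested (StGEO (3)).
If `Nst Q R`, at least one of `Q.1`, `Q.2` is strictly inside the core of `R` (not both end points agree,
StGEO (3)), so `5 mu Q ≤ 3 mu R`; StWTC: `mu Q ≥ (100/101) λ_Q mu P`, `mu R ≤ (101/100) λ_R mu P`, so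
`λ_Q ≤ (101/100)² (3/5) λ_R ≤ (5/8) λ_R`. -/
def StLMN : Prop :=
  ∀ (K : ℝ) (S : Set (Equiv.Perm ℝ)) (Λ : Set ℝ) (G : Set (ℝ × ℝ)) (P : PG) (L h m : ℝ),
    Bse K S Λ G P L h m → ∀ Q R, Sta S P Q → Sta S P R → cst S P Q < 25 * L →
      cst S P R < 25 * L →
      ((core Q ∩ core R).Nonempty → Q = R ∨ Nst Q R ∨ Nst R Q) ∧
      (Nst Q R → 5 * mu S Q ≤ 3 * mu S R ∧ 8 * span Q ≤ 5 * span R)

/-- MODULE TOP (`theorem tTOP : StACT → StGEO → StWAY → StWTC → StCST → StLMN → StTOP`). `P` is not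
nested in a state.
PROOF. Let `Nst P Q`, `Q = pact g P`, way of cost `c < 25 L`. StLMN (`cst P P = 0`): `8 span P ≤ 5 span Q`,
so `λ := λ_Q ≥ 8/5`. StWTC: `mid Q ≤ (101/100) λ mid P`, `mu Q ≥ (100/101) λ mu P`. `psi` for `Q` (its gaps
are in `G`, StACT): `Psi P ≤ Psi Q + 1/1000 ≤ Psi P - (1/10) log λ + (21/10) log (101/100) + 1/1000`;
`log λ ≥ log (8/5) ≥ 1 - 5/8 = 3/8`, `log (101/100) ≤ 1/100`: `3/80 ≤ 22/1000`, contradiction. -/
def StTOP : Prop :=
  ∀ (K : ℝ) (S : Set (Equiv.Perm ℝ)) (Λ : Set ℝ) (G : Set (ℝ × ℝ)) (P : PG) (L h m : ℝ),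
    Bse K S Λ G P L h m → ∀ Q, Sta S P Q → cst S P Q < 25 * L → ¬ Nst P Q

/-- MODULE IMP (`theorem tIMP : StACT → StPAC → StGEO → StWAY → StTRB → StCST → StTOP → StIMP`).
Nested cheap states have very different sizes.
PROOF. Let `Nst Q R` and suppose `span R < 20 span Q`. `Q = pact u P`, `Way S P u c`, `c < L`; WAY (3): a
way from `Q` for `u⁻¹` of cost `c₁ ≤ c + span Q ≤ L + h ≤ (201/200) L` (`sml`). StTRB with `Q` inside `R`
(StGEO (2)): `400 K 101 c₁ span R ≤ 400 K * 101 * (201/200) L * 20 span Q ≤ 100 span Q` (`10000 K L ≤ 1`);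
it gives a way from `R` for `u⁻¹` of cost `c₂ ≤ (101/100) c₁ span R / span Q ≤ 21 L`. With the way from
`P` to `R` of cost `< L`: a way from `P` of cost `< 22 L` to the state `pact u⁻¹ R`, and
`Nst (pact u⁻¹ Q) (pact u⁻¹ R)` with `pact u⁻¹ Q = P`. Contradiction to StTOP. -/
def StIMP : Prop :=
  ∀ (K : ℝ) (S : Set (Equiv.Perm ℝ)) (Λ : Set ℝ) (G : Set (ℝ × ℝ)) (P : PG) (L h m : ℝ),
    Bse K S Λ G P L h m → ∀ Q R, Sta S P Q → Sta S P R → cst S P Q < L → cst S P R < L →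
      Nst Q R → 20 * span Q ≤ span R

/-- MODULE LBA (`theorem tLBA : StACT → StPAC → StGEO → StWAY → StNEA → StTRA → StCST → StLBA`).
Rigidity of labels.
PROOF. Let `R = pact u P`. The hull of `C` is inside the hull of `P` (StGEO (2)). (iii) is StNEA for `u` and
the end points of the hull of `C`. (i) For every way `Way S P w t`, `C = pact w P`: StTRA gives
`Way S C u c'`, `c' ≤ (101/100) (span C / span P) c`, and WAY (2) a way of cost `t + c'` to
`pact (u * w) P = pact u C`. Infimum over `t` (StCST (2)). (ii) `Nst (pact u C) R`. WAY (3): a way from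
`R` for `u⁻¹` of cost `c₁ ≤ c + span R ≤ c + h` (`sml`), `400 K c₁ ≤ 1`. StTRA for `R` and `pact u C`: a way
from `pact u C` for `u⁻¹` of cost `c₂ ≤ (101/100) (span (pact u C) / span R) c₁
≤ (101/100)² (span C / span P) (c + h)` by (iii). Precede it by a way from `P` to `pact u C`; the end is
`pact u⁻¹ (pact u C) = C`. -/
def StLBA : Prop :=
  ∀ (K : ℝ) (S : Set (Equiv.Perm ℝ)) (Λ : Set ℝ) (G : Set (ℝ × ℝ)) (P : PG) (L h m : ℝ),
    Bse K S Λ G P L h m → ∀ (u : Equiv.Perm ℝ) (c : ℝ) (C : PG), Way S P u c → c < L →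
      Sta S P C → Nst C P →
      cst S P (pact u C) ≤ cst S P C + 101 / 100 * (span C / span P) * c ∧
      cst S P C ≤ cst S P (pact u C) + 103 / 100 * (span C / span P) * (c + h) ∧
      100 * (span (pact u C) * span P) ≤ 101 * (span (pact u P) * span C) ∧
      100 * (span (pact u P) * span C) ≤ 101 * (span (pact u C) * span P)

/-- MODULE ANC (`theorem tANC : StGEO → StCST → StLMN → StANC`). Smallest and greatest ancestors.
PROOF. (a) `A = {R' | Sta R', cst R' < t, Nst Q R'}` contains `R`; `σ = sInf (span '' A) ≥ span Q > 0`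
(StGEO (2)). Take `R' ∈ A` with `span R' < (8/5) σ`. If `D ∈ A` and `Nst D R'` then StLMN gives
`8 span D ≤ 5 span R' < 8 σ`, a contradiction. (b) `A = {R' | Sta R', cst R' ≤ t, Nst Q R'}`, spans are
`≤ h` (`sml`), `Σ = sSup (span '' A)`; take `R'` with `span R' > (5/8) Σ`. If `cst D ≤ t`, `Nst R' D` then
`Nst Q D` (StGEO (4)), `D ∈ A`, `8 span R' ≤ 5 span D ≤ 5 Σ`, a contradiction. -/
def StANC : Prop :=
  ∀ (K : ℝ) (S : Set (Equiv.Perm ℝ)) (Λ : Set ℝ) (G : Set (ℝ × ℝ)) (P : PG) (L h m : ℝ),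
    Bse K S Λ G P L h m → ∀ (t : ℝ) (Q R : PG), Sta S P Q → Sta S P R → Nst Q R →
      (t ≤ 25 * L → cst S P R < t →
        ∃ R', Sta S P R' ∧ cst S P R' < t ∧ Nst Q R' ∧
          ∀ D, Sta S P D → cst S P D < t → Nst Q D → ¬ Nst D R') ∧
      (t < 25 * L → cst S P R ≤ t →
        ∃ R', Sta S P R' ∧ cst S P R' ≤ t ∧ Nst Q R' ∧
          ∀ D, Sta S P D → cst S P D ≤ t → ¬ Nst R' D)

/-- MODULE EXI (`theorem tEXI : StCST → StEXI`). Exits.
PROOF. If for every state `Q` with `cst Q ≤ t` and `s ∈ S` also `cst (pact s Q) ≤ t`, then all states have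
cost `≤ t` (StCST (7) with `p Q := cst S P Q ≤ t`, StCST (3), (4)). So there are a state `Q` and `s ∈ S`
with `cst Q ≤ t < cst (pact s Q) ≤ cst Q + span Q`; replace `Q` by `sh (-⌊Q.1.1⌋) Q`. -/
def StEXI : Prop :=
  ∀ (K : ℝ) (S : Set (Equiv.Perm ℝ)) (Λ : Set ℝ) (G : Set (ℝ × ℝ)) (P : PG) (L h m : ℝ),
    Bse K S Λ G P L h m → ∀ t : ℝ, 0 ≤ t → (∃ Q, Sta S P Q ∧ t < cst S P Q) →
      ∃ Q, Sta S P Q ∧ 0 ≤ Q.1.1 ∧ Q.1.1 < 1 ∧ cst S P Q ≤ t ∧ t < cst S P Q + span Q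

/-- MODULE REC (`theorem tREC : StPAC → StCST → StTOP → StANC → StREC`). The record principle.
PROOF. Call a state `Q` top if `cst Q ≤ t` and no state `R` with `cst R ≤ t` has `Nst Q R`. Suppose that
for every top `Q` and `s ∈ S`, `cst (pact s Q) ≤ t`. Then all states are top, by StCST (7): `P` is top
(StTOP, StCST (3)). If `Q` is top then `R := pact s Q` has `cst R ≤ t`; if `Nst R U`, `cst U ≤ t`, let `U'`
be the greatest ancestor from StANC (b): `Nst R U'` and `U'` is top, so `cst (pact s⁻¹ U') ≤ t`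
(`s⁻¹ ∈ S`), and `Nst (pact s⁻¹ R) (pact s⁻¹ U')` with `pact s⁻¹ R = Q` contradicts the maximality of `Q`.
So `R` is top. Translates of a top state are top. Hence all states have cost `≤ t`, against the
hypothesis. So there are a top `Q` and `s ∈ S` with `t < cst (pact s Q) ≤ cst Q + span Q`; replace `Q` by
its translate `sh (-⌊Q.1.1⌋) Q`. -/
def StREC : Prop :=
  ∀ (K : ℝ) (S : Set (Equiv.Perm ℝ)) (Λ : Set ℝ) (G : Set (ℝ × ℝ)) (P : PG) (L h m : ℝ),
    Bse K S Λ G P L h m → ∀ t : ℝ, 0 ≤ t → t < 25 * L → (∃ Q, Sta S P Q ∧ t < cst S P Q) →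
      ∃ Q, Sta S P Q ∧ 0 ≤ Q.1.1 ∧ Q.1.1 < 1 ∧ cst S P Q ≤ t ∧ t < cst S P Q + span Q ∧
        ∀ R, Sta S P R → cst S P R ≤ t → ¬ Nst Q R

/-- MODULE MEA (`theorem tMEA : StLAM → StCST → StPER → StMEA`).
PROOF. `N = cthickening h Λ` is closed and periodic. For a state `Q` with `cst Q < 25 L`, `span Q ≤ h`
(`sml`), every point of `core Q` has distance `< mid Q ≤ h` from `Q.1.2 ∈ Λ`, so `U Q ⊆ core Q ⊆ N`. StPER
and `meas`. -/
def StMEA : Prop :=
  ∀ (K : ℝ) (S : Set (Equiv.Perm ℝ)) (Λ : Set ℝ) (G : Set (ℝ × ℝ)) (P : PG) (L h m : ℝ),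
    Bse K S Λ G P L h m → ∀ (F : Finset PG) (U : PG → Set ℝ),
      (∀ Q ∈ F, Sta S P Q ∧ cst S P Q < 25 * L ∧ MeasurableSet (U Q) ∧ U Q ⊆ core Q) →
      (∀ Q ∈ F, ∀ R ∈ F, ∀ k : ℤ, (Q ≠ R ∨ k ≠ 0) →
        Disjoint (U Q) ((fun x : ℝ => x + k) '' U R)) →
      ∑ Q ∈ F, (volume (U Q)).toReal ≤ m

/-- MODULE EGP (`theorem tEGP : StLAM → StACT → StPAC → StGEO → StWAY → StNEA → StCST → StLMN → StPER →
StEGP`). Total length of the end gaps.
PROOF. Let `Q₁, Q₂, Q₃ ∈ F` be different and suppose that their left gaps agree modulo translation.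
After translation (`Q'_i = sh k_i Q_i`, still different: `0 ≤ Q.1.1 < 1`) they have the same left gap
`V`, so their cores start at the same point and meet; StLMN: they are pairwise nested, so for two of
them `8 span ≤ 5 span` in one of the orders. `Q'_i = pact u_i P` with a way of cost `< 25 L` and
`V = sact u_i P.1` or `V = sact u_i P.2` (StACT); two of the three indices, `i, j`, have the same choice,
say `P.1`. StNEA for the end points of `P.1`: `|V| = (P.1.2 - P.1.1) λ_i` up to `101/100`, same for `j`, so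
`λ_i ≤ (101/100)² λ_j` and conversely; contradiction to `8 λ_i ≤ 5 λ_j` or `8 λ_j ≤ 5 λ_i`. So the map
`Q ↦ (Q.1.1 - ⌊Q.1.1⌋, Q.1.2 - ⌊Q.1.1⌋)` has fibres with at most two elements on `F`, and
`∑ (Q.1.2 - Q.1.1) ≤ 2 * (sum over the image)`. The image consists of different gaps `(a, b)` with
`0 ≤ a < 1`, disjoint modulo translation, of length `≤ h`, so contained in `N = cthickening h Λ`: StPER
bounds the sum by `m`. Same for the right gaps (normalise by `⌊Q.2.1⌋`). -/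
def StEGP : Prop :=
  ∀ (K : ℝ) (S : Set (Equiv.Perm ℝ)) (Λ : Set ℝ) (G : Set (ℝ × ℝ)) (P : PG) (L h m : ℝ),
    Bse K S Λ G P L h m → ∀ F : Finset PG,
      (∀ Q ∈ F, Sta S P Q ∧ cst S P Q < 25 * L ∧ 0 ≤ Q.1.1 ∧ Q.1.1 < 1) →
      ∑ Q ∈ F, ((Q.1.2 - Q.1.1) + (Q.2.2 - Q.2.1)) ≤ 4 * m

/-- the properties of a label: a cheap state `C` inside `P`, with no state of cost `< (9/10) L`
strictly between `C` and `P` -/
def Lbl (S : Set (Equiv.Perm ℝ)) (P : PG) (L : ℝ) (C : PG) : Prop :=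
  Sta S P C ∧ Nst C P ∧ 100 * cst S P C ≤ 31 * L ∧
    ∀ D, Sta S P D → 10 * cst S P D < 9 * L → Nst C D → ¬ Nst D P

/-- MODULE LAC (`theorem tLAC : StACT → StPAC → StGEO → StWAY → StCST → StIMP → StLBA → StANC → StLAC`).
The label of a non-maximal cheap state.
PROOF. Let `R'` be the smallest ancestor of `Q` from StANC (a) with `t = L`; `R' = pact u P`,
`Way S P u c`, `c < L`; `C := pact u⁻¹ Q`, so `Q = pact u C`, `Nst C P`, `Sta C`. StIMP: `20 span Q ≤ span R'`;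
LBA (iii): `λ := span C / span P ≤ (101/100) span Q / span R' ≤ 101/2000`. LBA (ii):
`cst C ≤ cst Q + (103/100) λ (c + h) ≤ L/4 + (103/100) (101/2000) (201/200) L ≤ (31/100) L`, and
`cst C - (104/100) λ L ≤ cst Q`. Label: let `10 cst D < 9 L`, `Nst C D`, `Nst D P`. StIMP (`cst P P = 0`):
`20 span D ≤ span P`. LBA (i): `cst (pact u D) ≤ cst D + (101/2000) L < L`; `Nst Q (pact u D)` and
`Nst (pact u D) R'`: contradiction to the choice of `R'`. Last inequality: LBA (i) and (iii):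
`cst Q + span Q ≤ cst C + (101/100) λ c + (101/100) λ span R'`, `span R' ≤ h ≤ L/200`. -/
def StLAC : Prop :=
  ∀ (K : ℝ) (S : Set (Equiv.Perm ℝ)) (Λ : Set ℝ) (G : Set (ℝ × ℝ)) (P : PG) (L h m : ℝ),
    Bse K S Λ G P L h m → ∀ Q R, Sta S P Q → Sta S P R → 4 * cst S P Q < L → cst S P R < L →
      Nst Q R → ∃ C, Lbl S P L C ∧
        cst S P C - 104 / 100 * (span C / span P) * L ≤ cst S P Q ∧
        cst S P Q + span Q ≤ cst S P C + 104 / 100 * (span C / span P) * L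

/-- MODULE LAB (`theorem tLAB : StACT → StPAC → StGEO → StWAY → StWTC → StCST → StCOV → StLMN → StEXI →
StMEA → StEGP → StLAC → StLAB`). Labels of total length `≥ |P|/25`.
PROOF. StCOV with `ι = PG ⊕ PG`, `α = 0`, `β = L/4`, `X = {inl Q | Q state, 0 ≤ Q.1.1 < 1, 4 cst Q < L, no
state R with cst R < L has Nst Q R} ∪ {inr C | Lbl C}`, `b (inl Q) = cst Q`, `l (inl Q) = span Q`,
`b (inr C) = cst C - (104/100) λ_C L`, `l (inr C) = (208/100) λ_C L`. For `0 ≤ t < L/4` StEXI gives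
`Q` with `cst Q ≤ t < cst Q + span Q`; if it has no ancestor of cost `< L` use `inl Q`, otherwise the label
`C` from StLAC. So there is a finite `s ⊆ X` with `L/4 ≤ 2 ∑`. Let `A`, `B` be the finsets of the `Q`, `C`
in `s`. `∑_A span Q = ∑_A mid Q + ∑_A (end gaps) ≤ m + 4 m`: StMEA with `U = core` (two different
members `Q, R` of `A`, or `Q = R` and `k ≠ 0`: if `core Q` meets `core R + k = core (sh k R)` then by StLMN
`Q = sh k R`, impossible because `0 ≤ Q.1.1, R.1.1 < 1`, or `Nst Q (sh k R)`, impossible, or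
`Nst (sh k R) Q`, i.e. `Nst R (sh (-k) Q)`, impossible) and StEGP. So
`L/4 ≤ 10 m + (416/100) L ∑_B λ_C ≤ L/20 + (416/100) L ∑_B λ_C`, `∑_B λ_C ≥ 20/416`, and
`λ_C ≤ (101/100) mid C / mid P` (StWTC), so `mid P ≤ 25 ∑_B mid C`. `F = B`. Disjointness: if the cores of
`C ≠ D` in `B` meet then (StLMN) `Nst C D` or `Nst D C`; in the first case `D` is a state of cost
`≤ (31/100) L` with `Nst C D`, `Nst D P`, against `Lbl C`; second case symmetric. -/
def StLAB : Prop :=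
  ∀ (K : ℝ) (S : Set (Equiv.Perm ℝ)) (Λ : Set ℝ) (G : Set (ℝ × ℝ)) (P : PG) (L h m : ℝ),
    Bse K S Λ G P L h m → (∃ Q, Sta S P Q ∧ L / 4 ≤ cst S P Q) →
      ∃ F : Finset PG, (∀ C ∈ F, Lbl S P L C) ∧
        (∀ C ∈ F, ∀ D ∈ F, C ≠ D → Disjoint (core C) (core D)) ∧
        mid P ≤ 25 * ∑ C ∈ F, mid C

/-- `Q` is a record: cost between `(39/100) L` and `(4/5) L`, no ancestor of at most the same cost -/
def Rcd (S : Set (Equiv.Perm ℝ)) (P : PG) (L : ℝ) (Q : PG) : Prop :=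
  Sta S P Q ∧ 39 * L < 100 * cst S P Q ∧ 5 * cst S P Q < 4 * L ∧
    ∀ R, Sta S P R → cst S P R ≤ cst S P Q → ¬ Nst Q R

/-- MODULE PRV (`theorem tPRV : StACT → StPAC → StGEO → StWAY → StCST → StLMN → StIMP → StLBA → StPRV`).
The copies of the labels inside a record do not meet smaller records.
PROOF. Let `Y := pact u C`; suppose `core R` meets `core Y`. `20 span C ≤ span P` (StIMP, costs `≤ 31 L/100`
and `0`), LBA (i): `cst Y ≤ (31/100) L + (101/2000) (4/5) L ≤ (36/100) L < cst R`. StLMN for `R`, `Y`: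
`R = Y`: contradiction. `Nst R Y`: contradiction, `R` is a record. `Nst Y R`: let `D := pact u⁻¹ R`; then
`Nst C D` and `Nst D P`; StIMP for `R`, `Q` (costs `< L`): `20 span R ≤ span Q`, LBA (iii) for `D`:
`span D / span P ≤ (101/100) span R / span Q ≤ 101/2000`, LBA (ii):
`cst D ≤ cst R + (103/100) (101/2000) (c + h) < (4/5) L + (1/10) L`. Contradiction to `Lbl C`. -/
def StPRV : Prop :=
  ∀ (K : ℝ) (S : Set (Equiv.Perm ℝ)) (Λ : Set ℝ) (G : Set (ℝ × ℝ)) (P : PG) (L h m : ℝ),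
    Bse K S Λ G P L h m → ∀ (Q R C : PG) (u : Equiv.Perm ℝ) (c : ℝ), Rcd S P L Q → Rcd S P L R →
      Nst R Q → Lbl S P L C → Way S P u c → 5 * c < 4 * L → Q = pact u P →
      Disjoint (core R) (core (pact u C))

/-- MODULE CON (`theorem tCON : StACT → StPAC → StGEO → StWAY → StNEA → StWTC → StCST → StCOV → StLMN →
StREC → StMEA → StEGP → StLAB → StPRV → StCON`). All states have cost less than `(4/5) L`.
PROOF. Suppose some state has cost `≥ 4L/5`. StLAB gives `F`. For `2L/5 ≤ t < 4L/5` StREC gives a state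
`Q`, `0 ≤ Q.1.1 < 1`, `cst Q ≤ t < cst Q + span Q`, without ancestors of cost `≤ t`; as
`span Q ≤ h ≤ L/200`, `Rcd Q`. StCOV (`ι = PG`, `b = cst`, `l = span`): a finite set `s` of such records,
`2L/5 ≤ 2 ∑_s span Q ≤ 2 (∑_s mid Q + 4 m)` (StEGP). For `Q ∈ s` choose a way `u_Q` of cost `c_Q` with
`5 c_Q < 4 L`, `Q = pact u_Q P`, and `U Q := ⋃_{C ∈ F} core (pact u_Q C)`. `U Q ⊆ core Q` (`Nst C P`). The
sets in the union are `u_Q '' core C`, pairwise disjoint, so `volume (U Q) = ∑_C mid (pact u_Q C)`, and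
by StNEA `mid (pact u_Q C) ≥ (100/101) (span Q / span P) mid C`, so
`volume (U Q) ≥ (100/101) (span Q/span P) (mid P/25) ≥ (100/101)² mid Q / 25 ≥ mid Q / 26`.
Disjointness for StMEA: let `Q, R ∈ s`, `Q ≠ R` or `k ≠ 0`, `R' := sh k R` (a record, `U R + k` is
contained in `core R'`). If `core Q`, `core R'` do not meet: fine. Otherwise StLMN: `Q = R'` is excluded
by `0 ≤ Q.1.1, R.1.1 < 1`; if `Nst R' Q` then StPRV: `core R'` does not meet `U Q`; if `Nst Q R'` then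
`Nst (sh (-k) Q) R` and StPRV: `core (sh (-k) Q)` does not meet `U R`; translate by `k`. StMEA:
`∑_s mid Q ≤ 26 m`. So `2L/5 ≤ 2 * 30 m ≤ 60 L / 200 = 3L/10`, a contradiction. -/
def StCON : Prop :=
  ∀ (K : ℝ) (S : Set (Equiv.Perm ℝ)) (Λ : Set ℝ) (G : Set (ℝ × ℝ)) (P : PG) (L h m : ℝ),
    Bse K S Λ G P L h m → ∀ Q, Sta S P Q → 5 * cst S P Q < 4 * L

/-- MODULE FNL (`theorem tFNL : StCST → StCON → StFNL`). All states are small.
PROOF. StCON and StCST (2) give a way of cost `< 4L/5 ≤ 25 L` with the same end; `sml`. -/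
def StFNL : Prop :=
  ∀ (K : ℝ) (S : Set (Equiv.Perm ℝ)) (Λ : Set ℝ) (G : Set (ℝ × ℝ)) (P : PG) (L h m : ℝ),
    Bse K S Λ G P L h m → ∀ g ∈ Gr S, span (pact g P) ≤ h

/-- MODULE MAI (`theorem tMAI : StLAM → StFAR → StFIN → StMKB → StFNL → StMAI`). Main theorem for
generating sets with Lipschitz log-derivative.
PROOF. Let `L = 1/(10000 K)`, `m(h) = (volume (cthickening h Λ ∩ Icc 0 1)).toReal`. By
`tendsto_measure_cthickening_of_isClosed` for the finite measure `volume.restrict (Icc 0 1)`,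
`m(h) → (volume (Λ ∩ Icc 0 1)).toReal < 1/(2000000 K) = L/200` as `h → 0+`. Let `η` be from StFAR. Choose
`0 < h < η` with `200 h ≤ L`, `200 m(h) ≤ L`. StFIN with `h/7`: let `P₁` be a pair as there, suppose
`span P₁ < h/7`; StMKB gives a base, StFNL says that all states have span `≤ h < η`, against StFAR. -/
def StMAI : Prop :=
  ∀ (K : ℝ) (S : Set (Equiv.Perm ℝ)) (Λ : Set ℝ), 1 ≤ K → Gens K S → Lam S Λ →
    2000000 * K * (volume (Λ ∩ Icc (0 : ℝ) 1)).toReal < 1 →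
    ∃ s : Finset (ℝ × ℝ), ∀ a b : ℝ, Gap Λ a b →
      ∃ p ∈ s, ∃ g ∈ Gr S, ⇑g '' Ioo p.1 p.2 = Ioo a b

/-- MODULE LIQ (`theorem tLIQ : StLIQ`). The generating set, with an explicit constant.
PROOF. As `Helper82/HG/M_LIP.lean` (`StLIP`): `S = {F i} ∪ {(F i)⁻¹}`. `log |deriv (F i)|` has derivative
`deriv (deriv (F i)) / deriv (F i)`, of absolute value `≤ K`; for the inverse,
`log |deriv (F i)⁻¹| = - log |deriv (F i) ((F i)⁻¹ x)|` has derivative of absolute value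
`|F''| / |F'|² ≤ K` at the point `(F i)⁻¹ x`. Degree and the equality of groups as there. -/
def StLIQ : Prop :=
  ∀ (n : ℕ) (F : Fin n → Equiv.Perm ℝ) (K : ℝ),
    (∀ i, ContDiff ℝ 2 (⇑(F i))) →
    (∀ i x, deriv (⇑(F i)) x ≠ 0) →
    (∀ i, ∃ d : ℝ, (d = 1 ∨ d = -1) ∧ ∀ x : ℝ, F i (x + 1) = F i x + d) →
    (∀ i x, |iteratedDeriv 2 (⇑(F i)) x| ≤ K * |deriv (⇑(F i)) x| ∧
      |iteratedDeriv 2 (⇑(F i)) x| ≤ K * |deriv (⇑(F i)) x| ^ 2) →
    ∃ S : Set (Equiv.Perm ℝ), Gens K S ∧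
      Gr S = Subgroup.closure (insert (Equiv.addRight (1 : ℝ)) (Set.range F))

end Pool.Agent.Helper21.HN
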